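import Mathlib
import Pool.Agent.TH881.RQ.Defs2

/-! Prime tuples `n + h_1, ..., n + h_m`, the `n` in a dense set of integers or of primes:
definitions. -/

set_option autoImplicit false

namespace Pool.Agent.TH881.RK

open Finset Filter Topology
open Pool.Agent.TH881
open Pool.Agent.TH881.RG
open Pool.Agent.TH881.RQ
open Pool.Agent.H373R2.T7

/-- all the `t j + a` are units -/
def gk {m W : ℕ} (t : Fin m → ZMod W) (a : ZMod W) : Prop := ∀ j, IsUnit (t j + a)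

open Classical in
/-- the proportion of the classes `a` of arguments for which all the `t j + a` are units -/
noncomputable def wk (pr : Bool) (m w : ℕ) (t : Fin m → ZMod (Wp w)) : ℝ :=
  (((AA pr w).filter (fun a => gk t a)).card : ℝ) / (AA pr w).card

open Classical in
/-- the sum of the weights `e t` over the `t` for which all the `t j + a` are units -/
noncomputable def rk (m w : ℕ) (e : (Fin m → ZMod (Wp w)) → ℝ) (a : ZMod (Wp w)) : ℝ :=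
  ∑ t : Fin m → ZMod (Wp w), if gk t a then e t else 0

/-- the largest proportion of bad arguments modulo `p` (smaller than one) -/
noncomputable def uk (pr : Bool) (m p : ℕ) : ℝ := ((min m (Aq pr p - 1) : ℕ) : ℝ) / Aq pr p

/-- moments of the local factors -/
noncomputable def Mk (m : ℕ) (u : ℕ → ℝ) (K k w : ℕ) : ℝ :=
  ∏ p ∈ pz w, (1 + (K : ℝ) * ((m : ℝ) ^ 2 / ((p : ℝ) - 1)) * ((1 / (1 - u p)) ^ k - 1))

/-- the minimal singular series -/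
noncomputable def SSk (pr : Bool) (m : ℕ) : ℝ :=
  ⨅ z : ℕ, ∏ p ∈ pz (z + m + 1), ((1 - uk pr m p) / (1 - 1 / (p : ℝ)) ^ m)

open Classical in
/-- an abstract moment inequality -/
def StAbs3 : Prop := ∀ (ι : Type) [Fintype ι] (X Y : ι → Type) [∀ i, Fintype (X i)] [∀ i, Fintype (Y i)]
    [∀ i, Nonempty (Y i)] (bad : ∀ i, X i → Y i → Prop) (R : ∀ i, X i → X i → Prop)
    (s : ∀ i, X i → ℝ) (_ : ∀ i x, 0 ≤ s i x) (_ : ∀ i x, s i x ≤ 1)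
    (T : ι → ℝ) (_ : ∀ i, T i = ∑ x, s i x) (_ : ∀ i, 0 < T i)
    (c b : ι → ℝ) (_ : ∀ i, 1 ≤ b i) (_ : ∀ i, 0 ≤ c i)
    (_ : ∀ i, ∀ (K : ℕ) (τ : Fin K → X i) (x : X i),
      ((univ.filter (fun y : Y i => (∀ j, ¬ bad i (τ j) y) ∧ ¬ bad i x y)).card : ℝ) ≤
        (if ∃ l, R i (τ l) x then b i else 1) * s i x *
          ((univ.filter (fun y : Y i => ∀ j, ¬ bad i (τ j) y)).card : ℝ))
    (_ : ∀ i, ∀ x : X i, ∑ x' ∈ univ.filter (fun x' => R i x x'), s i x' ≤ c i * T i)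
    (K k : ℕ) (_ : 1 ≤ K) (_ : 1 ≤ k) (e : (∀ i, X i) → ℝ) (_ : ∀ x, 0 ≤ e x) (_ : ∀ x, e x ≤ 1)
    (S : ℝ) (_ : S = ∑ x, e x * ∏ i, s i (x i)) (_ : 0 < S),
    (∑ y : (∀ i, Y i), (∑ x, if ∀ i, ¬ bad i (x i) (y i) then e x else 0) ^ K) /
        (Fintype.card (∀ i, Y i) : ℝ) ≤
      S ^ K * (((∏ i, T i) / S) ^ K * (∏ i, (1 + (K : ℝ) * c i * (b i ^ k - 1))) ^ (K - 1)) ^ (1 / (k : ℝ))

/-- the moment inequality -/
def StMIk (pr : Bool) (m : ℕ) : Prop := ∀ w K k : ℕ, 1 ≤ K → 1 ≤ k →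
    ∀ e : (Fin m → ZMod (Wp w)) → ℝ, (∀ t, 0 ≤ e t) → (∀ t, e t ≤ 1) →
    ∀ S : ℝ, S = ∑ t, e t * wk pr m w t → 0 < S →
    (∑ a ∈ AA pr w, rk m w e a ^ K) / (AA pr w).card ≤
      S ^ K * (((Nat.totient (Wp w) : ℝ) ^ m / S) ^ K * Mk m (uk pr m) K k w ^ (K - 1)) ^ (1 / (k : ℝ))

open Classical in
/-- the dual moment inequality -/
def StMIdk (pr : Bool) (m : ℕ) : Prop := ∀ w K k : ℕ, 1 ≤ K → 1 ≤ k → ∀ β : ZMod (Wp w) → ℝ,
    (∀ a, 0 ≤ β a) → (∀ a, β a ≤ 1) → ∀ S : ℝ, S = ∑ a ∈ AA pr w, β a * Vz w ^ m → 0 < S →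
    (∑ t : Fin m → ZMod (Wp w), (∑ a ∈ AA pr w, if gk t a then β a else 0) ^ K) / (Wp w : ℝ) ^ m ≤
      S ^ K * ((((AA pr w).card * Vz w ^ m) / S) ^ K *
        MMd (fun p => 1 / (Aq pr p : ℝ)) K (m * k) w ^ (K - 1)) ^ (1 / (k : ℝ))

/-- the Mertens type bound for the moments -/
def StMBk (pr : Bool) (m : ℕ) : Prop := ∀ (K : ℕ) (δ : ℝ), 0 < δ → ∃ k0 : ℕ, ∀ k : ℕ, k0 ≤ k → ∀ w : ℕ,
    Mk m (uk pr m) K k w ^ (1 / (k : ℝ)) ≤ (1 + δ) * (Phq (uk pr m) k)⁻¹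

/-- a pointwise lower bound -/
def StLBk (pr : Bool) (m : ℕ) : Prop := ∃ c : ℝ, 0 < c ∧ ∀ w : ℕ, ∀ t : Fin m → ZMod (Wp w),
    wk pr m w t ≠ 0 → c * Vz w ^ m ≤ wk pr m w t

/-- the limit of the smallest proportion -/
def StLim (pr : Bool) (m : ℕ) : Prop := 0 < SSk pr m ∧
    Tendsto (fun w : ℕ => Phq (uk pr m) w * Real.log w ^ m) atTop
      (𝓝 (Real.exp (-(m * Real.eulerMascheroniConstant)) * SSk pr m))

open Classical in
/-- the classes without obstruction which are missed by `B` -/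
noncomputable def misk (pr : Bool) (m w : ℕ) (B : Finset (ZMod (Wp w))) : Finset (Fin m → ZMod (Wp w)) :=
  univ.filter (fun t => wk pr m w t ≠ 0 ∧ ∀ a ∈ B, ¬ gk t a)

open Classical in
/-- the classes which are hit by `B` -/
noncomputable def sumk (m w : ℕ) (B : Finset (ZMod (Wp w))) : Finset (Fin m → ZMod (Wp w)) :=
  univ.filter (fun t => ∃ a ∈ B, gk t a)

/-- the local theorem near density one -/
def StOneK (pr : Bool) (m : ℕ) (c : ℝ) : Prop := ∀ δ : ℝ, 0 < δ → δ < c →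
    ∃ η0 : ℝ, 0 < η0 ∧ ∀ η : ℝ, 0 < η → η ≤ η0 → ∀ w : ℕ, ∀ B ⊆ AA pr w,
    (1 - η) * (AA pr w).card ≤ B.card →
    ((misk pr m w B).card : ℝ) / (Wp w : ℝ) ^ m ≤ Real.exp (-Real.exp (((c - δ) / η) ^ (1 / (m : ℝ))))

/-- the local example near density one -/
def StOneUpK (pr : Bool) (m : ℕ) (c : ℝ) : Prop := ∀ δ : ℝ, 0 < δ →
    ∃ η0 : ℝ, 0 < η0 ∧ ∀ η : ℝ, 0 < η → η ≤ η0 → ∃ w : ℕ, m + 1 ≤ w ∧ ∃ B ⊆ AA pr w,
    (1 - η) * (AA pr w).card ≤ B.card ∧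
    Real.exp (-Real.exp (((c + δ) / η) ^ (1 / (m : ℝ)))) ≤ ((misk pr m w B).card : ℝ) / (Wp w : ℝ) ^ m

/-- the local theorem near density zero -/
def StZeroK (pr : Bool) (m : ℕ) : Prop := ∀ δ : ℝ, 0 < δ →
    ∃ β0 : ℝ, 0 < β0 ∧ ∀ β : ℝ, 0 < β → β ≤ β0 → ∀ w : ℕ, ∀ B ⊆ AA pr w,
    β * (AA pr w).card ≤ B.card →
    Real.exp (-(m * Real.eulerMascheroniConstant)) - δ ≤
      Real.log (Real.log (1 / β)) ^ m * (((sumk m w B).card : ℝ) / (Wp w : ℝ) ^ m)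

/-- the local example near density zero -/
def StZeroUpK (pr : Bool) (m : ℕ) : Prop := ∀ δ : ℝ, 0 < δ →
    ∃ β0 : ℝ, 0 < β0 ∧ ∀ β : ℝ, 0 < β → β ≤ β0 → ∃ w : ℕ, ∃ B ⊆ AA pr w,
    β * (AA pr w).card ≤ B.card ∧
    Real.log (Real.log (1 / β)) ^ m * (((sumk m w B).card : ℝ) / (Wp w : ℝ) ^ m) ≤
      Real.exp (-(m * Real.eulerMascheroniConstant)) + δ

/-! ### global definitions -/

open Classical in
/-- the number of the vectors in `S` with entries in `[1, x]` -/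
noncomputable def cntk {m : ℕ} (S : Set (Fin m → ℕ)) (x : ℕ) : ℕ :=
  ((Fintype.piFinset (fun _ : Fin m => Icc 1 x)).filter (fun h => h ∈ S)).card

/-- upper density -/
noncomputable def udk {m : ℕ} (S : Set (Fin m → ℕ)) : ℝ :=
  limsup (fun x : ℕ => (cntk S x : ℝ) / (x : ℝ) ^ m) atTop

/-- lower density -/
noncomputable def ldk {m : ℕ} (S : Set (Fin m → ℕ)) : ℝ :=
  liminf (fun x : ℕ => (cntk S x : ℝ) / (x : ℝ) ^ m) atTop

/-- the vectors without local obstruction -/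
def Admk (pr : Bool) {m : ℕ} (h : Fin m → ℕ) : Prop :=
  ∀ p : ℕ, p.Prime → ∃ a : ℕ, (pr = true → ¬ p ∣ a) ∧ ∀ j, ¬ p ∣ a + h j

/-- the vectors `h` with all `n + h j` prime for some argument `n` in `A` -/
def hitk (pr : Bool) (m : ℕ) (A : Set ℕ) : Set (Fin m → ℕ) :=
  {h | ∃ n ∈ A, isArg pr n ∧ ∀ j, (n + h j).Prime}

/-- the vectors without local obstruction which are lost -/
def losk (pr : Bool) (m : ℕ) (A : Set ℕ) : Set (Fin m → ℕ) := {h | Admk pr h ∧ h ∉ hitk pr m A}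

/-- the largest upper density of the lost vectors if a proportion `δ` of the arguments is deleted -/
noncomputable def MDk (pr : Bool) (m : ℕ) (δ : ℝ) : ℝ :=
  sSup {d | ∃ A : Set ℕ, 1 - δ ≤ relq pr A ∧ d = udk (losk pr m A)}

/-- the least lower density of the vectors which are hit by a set of arguments of density `β` -/
noncomputable def FFk (pr : Bool) (m : ℕ) (β : ℝ) : ℝ :=
  sInf {d | ∃ A : Set ℕ, β ≤ relq pr A ∧ d = ldk (hitk pr m A)}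

/-- the logarithm on the primes -/
noncomputable def lp (n : ℕ) : ℝ := if n.Prime then Real.log n else 0

/-- mixing -/
def StMixK (pr : Bool) (m : ℕ) : Prop := ∀ κ ε : ℝ, 0 < κ → 0 < ε → ε < 1 →
    ∃ w0 : ℕ, ∀ w : ℕ, w0 ≤ w → ∃ X0 : ℕ, ∀ X : ℕ, X0 ≤ X → ∀ t : Fin m → ℕ,
    (∀ j, 0 < t j ∧ t j ≤ Wp w) →
    ∀ K : Finset ℕ, (∀ n ∈ K, isArg pr n ∧ √(X : ℝ) < n ∧ n ≤ X) →
    (∀ n ∈ K, ∀ n' ∈ K, n ≡ n' [MOD Wp w]) →
    (∀ n ∈ K, gk (fun j => (t j : ZMod (Wp w))) (n : ZMod (Wp w))) →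
    κ * ppq pr w X ≤ K.card →
    ∀ E ⊆ Fintype.piFinset (fun j => It w 0 X (t j)),
      |∑ N ∈ E, ∑ n ∈ K, ∏ j, lp (N j + n) -
          E.card * ((Vz w)⁻¹ ^ m * K.card)| ≤
        ε * (((X : ℝ) / Wp w) ^ m * ((Vz w)⁻¹ ^ m * K.card))

/-- almost all classes which are hit locally are hit globally -/
def StGlob (pr : Bool) (m : ℕ) : Prop := ∀ (A : Set ℕ) (β κ ε : ℝ), 0 < κ → κ < β → β ≤ 1 → 0 < ε →
    β ≤ relq pr A → ∃ w0 : ℕ, ∀ w : ℕ, w0 ≤ w → ∃ X0 : ℕ, ∀ X : ℕ, X0 ≤ X →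
    ∃ B ⊆ AA pr w, (β - κ) * (AA pr w).card ≤ B.card ∧
      (cntk {h : Fin m → ℕ | (fun j => (h j : ZMod (Wp w))) ∈ sumk m w B ∧ h ∉ hitk pr m A} X : ℝ) ≤
        ε * (X : ℝ) ^ m

/-- unions of classes -/
def StUnion (pr : Bool) (m : ℕ) : Prop := ∀ (w : ℕ) (B : Finset (ZMod (Wp w))), B ⊆ AA pr w →
    ∃ A : Set ℕ, (B.card : ℝ) / (AA pr w).card ≤ relq pr A ∧
      (m + 1 ≤ w → ((misk pr m w B).card : ℝ) / (Wp w : ℝ) ^ m ≤ udk (losk pr m A)) ∧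
      ldk (hitk pr m A) ≤ ((sumk m w B).card : ℝ) / (Wp w : ℝ) ^ m

end Pool.Agent.TH881.RK
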