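import Mathlib
import Pool.Agent.TH881.RK.Defs
import Pool.Agent.TH881.RQ.Mix2

/-! Mixing for prime tuples: moments of the sieve model. -/

set_option autoImplicit false

namespace Pool.Agent.TH881.RK

open Finset Filter Topology
open Pool.Agent.TH881
open Pool.Agent.TH881.RG
open Pool.Agent.TH881.RQ
open Pool.Agent.H373R2.T7

/-- pair correlations of the sieve model along a progression -/
lemma pair_corr (E V : ℕ) : ∃ N0 : ℕ, ∀ N : ℕ, N0 ≤ N → ∀ z : ℕ, 1 ≤ z → (z : ℝ) ≤ Real.log N ^ E →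
    ∀ w : ℕ, w ≤ z → ∀ H t : ℕ, 0 < t → t ≤ Wp w → ∀ b b' : ℕ,
    ∑ n ∈ It w 0 H t, lamz z (n + b) * lamz z (n + b') ≤
      ((H : ℝ) / Wp w + 1) * ((Vz w)⁻¹ ^ 2 * gw w z (Nat.dist b b')) +
        ((H : ℝ) / Wp w + 1) / Real.log N ^ V + √(N : ℝ) := by
  obtain ⟨N0, h0⟩ := corr E V
  refine ⟨N0, fun N hN z hz hzE w hwz H t ht htW b b' => ?_⟩
  have hcorr := h0 N hN z hz hzE w hwz
  have hW := Wp_pos w
  set W := Wp w with hWd
  have hWr : (0 : ℝ) < W := by exact_mod_cast hW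
  set X := H / W + 1 with hX
  have hXr : (X : ℝ) ≤ (H : ℝ) / W + 1 := by
    rw [hX]
    push_cast
    have : ((H / W : ℕ) : ℝ) ≤ (H : ℝ) / W := Nat.cast_div_le
    linarith
  have h1 : ∑ n ∈ It w 0 H t, lamz z (n + b) * lamz z (n + b') ≤
      ∑ m ∈ range X, lamz z (t + W * m + b) * lamz z (t + W * m + b') := by
    have hinj : Set.InjOn (fun m => t + W * m) ((range X : Finset ℕ) : Set ℕ) := by
      intro a _ b _ hab
      simp only at hab
      have : W * a = W * b := by omega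
      exact Nat.eq_of_mul_eq_mul_left hW this
    rw [← sum_image (f := fun n => lamz z (n + b) * lamz z (n + b')) hinj]
    apply sum_le_sum_of_subset_of_nonneg
    · intro n hn
      unfold It at hn
      rw [mem_filter, mem_Ioc] at hn
      obtain ⟨⟨h1, h2⟩, h3⟩ := hn
      have h4 : t ≤ n := by
        by_contra hcon
        have h5 : n < t := by omega
        have h6 := (Nat.modEq_iff_dvd' h5.le).1 h3
        have := Nat.le_of_dvd (by omega) h6
        omega
      have h5 := (Nat.modEq_iff_dvd' h4).1 h3.symm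
      obtain ⟨m, hm⟩ := h5
      rw [← hWd] at hm
      rw [mem_image]
      refine ⟨m, ?_, by omega⟩
      rw [mem_range, hX]
      have h6 : W * m ≤ H := by omega
      have h7 : m ≤ H / W := (Nat.le_div_iff_mul_le hW).2 (by rw [mul_comm]; exact h6)
      omega
    · intro n _ _
      exact mul_nonneg (lamz_nonneg z _) (lamz_nonneg z _)
  refine h1.trans ?_
  have h2 : ∑ m ∈ range X, lamz z (t + W * m + b) * lamz z (t + W * m + b') ≤
      X * ((Vz w)⁻¹ ^ 2 * gw w z (Nat.dist b b')) + X / Real.log N ^ V + √(N : ℝ) := by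
    rcases le_total b b' with h | h
    · have h3 := hcorr X (t + b) (b' - b)
      have e1 : Nat.dist b b' = b' - b := by simp only [Nat.dist]; omega
      rw [e1]
      refine le_trans (le_of_eq ?_) h3
      apply sum_congr rfl
      intro m _
      congr 2
      · omega
      · omega
    · have h3 := hcorr X (t + b') (b - b')
      have e1 : Nat.dist b b' = b - b' := by simp only [Nat.dist]; omega
      rw [e1]
      refine le_trans (le_of_eq ?_) h3
      apply sum_congr rfl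
      intro m _
      rw [mul_comm]
      congr 2
      · omega
      · omega
  refine h2.trans ?_
  have hV0 : 0 < (Vz w)⁻¹ := inv_pos.2 (Vz_pos w)
  have hg := one_le_gw w z (Nat.dist b b')
  have hL : 0 ≤ Real.log N ^ V := pow_nonneg (Real.log_natCast_nonneg N) V
  gcongr

/-- the first moment along a progression -/
lemma first_one (E V : ℕ) : ∃ N0 : ℕ, ∀ N : ℕ, N0 ≤ N → ∀ z : ℕ, 1 ≤ z → (z : ℝ) ≤ Real.log N ^ E →
    ∀ w : ℕ, Wp w ≤ z → ∀ H t b : ℕ, 0 < t → b + H ≤ N → (t + b).Coprime (Wp w) →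
    (Vz w)⁻¹ * (H / Wp w) - 2 * (N / Real.log N ^ V) ≤ ∑ n ∈ It w 0 H t, lamz z (n + b) := by
  obtain ⟨N0, h0⟩ := first_moment E V
  refine ⟨N0, fun N hN z hz hzE w hWz H t b ht hbH hcop => ?_⟩
  have h1 := h0 N hN z hz hzE w hWz b H (t + b) (by omega) hbH {0} (by
    intro x hx
    rw [mem_singleton] at hx
    omega) (by
    intro x hx
    rw [mem_singleton] at hx
    rw [hx, Nat.sub_zero]
    exact hcop)
  rw [card_singleton, Nat.cast_one, one_mul] at h1
  refine h1.trans (le_of_eq ?_)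
  have h2 := sum_It_shift w 0 H t b (fun n => lamz z n)
  rw [h2, zero_add]
  apply sum_congr rfl
  intro n hn
  rw [mem_It] at hn
  unfold cv
  rw [filter_true_of_mem, sum_singleton, Nat.sub_zero]
  intro x hx
  rw [mem_singleton] at hx
  omega

open Classical in
/-- the second moment -/
lemma second_k (m : ℕ) (w z : ℕ) (H : ℕ) (t : Fin m → ℕ) (K : Finset ℕ) (A D Y Γ : ℝ)
    (hA0 : 0 ≤ A) (hY0 : 0 ≤ Y) (hΓ0 : 0 ≤ Γ)
    (hoff : ∀ j, ∀ b ∈ K, ∀ b' ∈ K.erase b, ∑ n ∈ It w 0 H (t j), lamz z (n + b) * lamz z (n + b') ≤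
      A * gw w z (Nat.dist b b'))
    (hdiag : ∀ j, ∀ b ∈ K, ∑ n ∈ It w 0 H (t j), lamz z (n + b) * lamz z (n + b) ≤ D)
    (hΓ : ∀ b ∈ K, ∑ b' ∈ K.erase b, gw w z (Nat.dist b b') ^ m ≤ K.card * Γ) :
    ∑ N ∈ Fintype.piFinset (fun j => It w 0 H (t j)), (∑ b ∈ K, ∏ j, lamz z (N j + b)) ^ 2 ≤
      (K.card : ℝ) ^ 2 * Γ * A ^ m + K.card * D ^ m := by
  have h1 : ∀ N : Fin m → ℕ, (∑ b ∈ K, ∏ j, lamz z (N j + b)) ^ 2 =
      ∑ b ∈ K, (∏ j, (lamz z (N j + b) * lamz z (N j + b)) +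
        ∑ b' ∈ K.erase b, ∏ j, (lamz z (N j + b) * lamz z (N j + b'))) := by
    intro N
    rw [sq, sum_mul_sum]
    apply sum_congr rfl
    intro b hb
    rw [← add_sum_erase K _ hb]
    rw [prod_mul_distrib]
    congr 1
    apply sum_congr rfl
    intro b' _
    rw [prod_mul_distrib]
  rw [sum_congr rfl fun N _ => h1 N, sum_comm]
  have h2 : ∀ b ∈ K, ∑ N ∈ Fintype.piFinset (fun j => It w 0 H (t j)),
      (∏ j, (lamz z (N j + b) * lamz z (N j + b)) +
        ∑ b' ∈ K.erase b, ∏ j, (lamz z (N j + b) * lamz z (N j + b'))) ≤ D ^ m + A ^ m * (K.card * Γ) := by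
    intro b hb
    rw [sum_add_distrib, sum_comm]
    apply add_le_add
    · rw [← prod_univ_sum (fun j => It w 0 H (t j)) (fun _ n => lamz z (n + b) * lamz z (n + b))]
      calc ∏ j, ∑ n ∈ It w 0 H (t j), lamz z (n + b) * lamz z (n + b) ≤ ∏ _j : Fin m, D := by
            apply Finset.prod_le_prod
            · intro j _
              exact sum_nonneg fun n _ => mul_nonneg (lamz_nonneg z _) (lamz_nonneg z _)
            · intro j _
              exact hdiag j b hb
        _ = D ^ m := by rw [prod_const, card_univ, Fintype.card_fin]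
    · calc ∑ b' ∈ K.erase b, ∑ N ∈ Fintype.piFinset (fun j => It w 0 H (t j)),
            ∏ j, (lamz z (N j + b) * lamz z (N j + b')) ≤
            ∑ b' ∈ K.erase b, A ^ m * gw w z (Nat.dist b b') ^ m := by
            apply sum_le_sum
            intro b' hb'
            rw [← prod_univ_sum (fun j => It w 0 H (t j)) (fun _ n => lamz z (n + b) * lamz z (n + b')), ← mul_pow]
            calc ∏ j, ∑ n ∈ It w 0 H (t j), lamz z (n + b) * lamz z (n + b') ≤
                ∏ _j : Fin m, (A * gw w z (Nat.dist b b')) := by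
                  apply Finset.prod_le_prod
                  · intro j _
                    exact sum_nonneg fun n _ => mul_nonneg (lamz_nonneg z _) (lamz_nonneg z _)
                  · intro j _
                    exact hoff j b hb b' hb'
              _ = _ := by rw [prod_const, card_univ, Fintype.card_fin]
        _ = A ^ m * ∑ b' ∈ K.erase b, gw w z (Nat.dist b b') ^ m := by rw [mul_sum]
        _ ≤ _ := mul_le_mul_of_nonneg_left (hΓ b hb) (pow_nonneg hA0 m)
  refine (sum_le_sum h2).trans (le_of_eq ?_)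
  rw [sum_const, nsmul_eq_mul]
  ring

open Classical in
/-- the first moment -/
lemma first_k (m : ℕ) (w z : ℕ) (H : ℕ) (t : Fin m → ℕ) (K : Finset ℕ) (a : ℝ) (ha : 0 ≤ a)
    (h : ∀ j, ∀ b ∈ K, a ≤ ∑ n ∈ It w 0 H (t j), lamz z (n + b)) :
    (K.card : ℝ) * a ^ m ≤
      ∑ N ∈ Fintype.piFinset (fun j => It w 0 H (t j)), ∑ b ∈ K, ∏ j, lamz z (N j + b) := by
  rw [sum_comm]
  calc (K.card : ℝ) * a ^ m = ∑ _b ∈ K, a ^ m := by rw [sum_const, nsmul_eq_mul]
    _ ≤ _ := by
        apply sum_le_sum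
        intro b hb
        rw [← prod_univ_sum (fun j => It w 0 H (t j)) (fun _ n => lamz z (n + b))]
        calc a ^ m = ∏ _j : Fin m, a := by rw [prod_const, card_univ, Fintype.card_fin]
          _ ≤ _ := Finset.prod_le_prod (fun _ _ => ha) (fun j _ => h j b hb)

/-- the `m`-th moment of the local factors over a subset of a class -/
lemma avg_pow (pr : Bool) (hPM : StPMq pr (Polynomial.X)) (m J E : ℕ) (hJ : 1 ≤ J) :
    ∃ w0 : ℕ, ∀ w : ℕ, w0 ≤ w →
    ∃ X0 : ℕ, ∀ X : ℕ, X0 ≤ X → ∀ z : ℕ, (z : ℝ) ≤ Real.log X ^ E →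
    ∀ K : Finset ℕ, (∀ n ∈ K, isArg pr n ∧ √(X : ℝ) < n ∧ n ≤ X) →
    (∀ n ∈ K, ∀ n' ∈ K, n ≡ n' [MOD Wp w]) →
    ∀ κ : ℝ, 0 < κ → κ * ppq pr w X ≤ K.card →
    ∀ b ∈ K, ∑ b' ∈ K.erase b, gw w z (Nat.dist b b') ^ m ≤
      K.card * (100 / κ) ^ (1 / (J : ℝ)) := by
  classical
  obtain ⟨w0, h0⟩ := hPM (m * J) E
  refine ⟨w0, fun w hw => ?_⟩
  obtain ⟨X0, h1⟩ := h0 w hw
  refine ⟨X0, fun X hX z hz K hK hc κ hκ hcard b hb => ?_⟩
  have h2 := h1 X hX z hz b b (hK b hb).2.1 (hK b hb).2.2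
  have hBc : 0 < K.card := card_pos.2 ⟨b, hb⟩
  have hBr : (0 : ℝ) < K.card := by exact_mod_cast hBc
  have hd : ∀ b' : ℕ, ((Polynomial.X : Polynomial ℤ).eval (b' : ℤ) - (Polynomial.X : Polynomial ℤ).eval (b : ℤ)).natAbs =
      Nat.dist b b' := by
    intro b'
    rw [Polynomial.eval_X, Polynomial.eval_X]
    unfold Nat.dist
    omega
  have hpos : ∀ b' : ℕ, 0 ≤ gw w z (Nat.dist b b') ^ m := fun b' =>
    pow_nonneg (zero_le_one.trans (one_le_gw w z _)) m
  have h3 : ∑ b' ∈ K.erase b, (gw w z (Nat.dist b b') ^ m) ^ J ≤ 100 * ppq pr w X := by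
    refine le_trans ?_ h2
    refine le_trans (le_of_eq ?_) (sum_le_sum_of_subset_of_nonneg (s := K.erase b) ?_ ?_)
    · apply sum_congr rfl
      intro b' _
      rw [hd b', ← pow_mul]
    · intro x hx
      rw [mem_erase] at hx
      have h4 := hK x hx.2
      rw [mem_filter, mem_Icc]
      refine ⟨⟨?_, h4.2.2⟩, h4.1, h4.2.1, hc x hx.2 b hb, hx.1⟩
      have h5 : (0 : ℝ) < x := lt_of_le_of_lt (Real.sqrt_nonneg _) h4.2.1
      exact_mod_cast h5
    · intro x _ _
      exact pow_nonneg (zero_le_one.trans (one_le_gw w z _)) _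
  obtain ⟨n, rfl⟩ : ∃ n, J = n + 1 := ⟨J - 1, by omega⟩
  have h4 := pow_sum_div_card_le_sum_pow (s := K.erase b)
    (f := fun b' => gw w z (Nat.dist b b') ^ m) (fun b' _ => hpos b') n
  set Sg := ∑ b' ∈ K.erase b, gw w z (Nat.dist b b') ^ m with hSg
  have hSg0 : 0 ≤ Sg := sum_nonneg fun b' _ => hpos b'
  have h6 : 100 * ppq pr w X ≤ K.card * (100 / κ) := by
    calc 100 * ppq pr w X = (κ * ppq pr w X) * (100 / κ) := by
          field_simp
      _ ≤ _ := mul_le_mul_of_nonneg_right hcard (by positivity)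
  have h5 : Sg ^ (n + 1) ≤ (K.card : ℝ) ^ (n + 1) * (100 / κ) := by
    rcases Nat.eq_zero_or_pos (K.erase b).card with h0 | h0
    · have : K.erase b = ∅ := card_eq_zero.1 h0
      rw [hSg, this, sum_empty, zero_pow (by omega)]
      positivity
    · have h0r : (0 : ℝ) < (K.erase b).card := by exact_mod_cast h0
      rw [div_le_iff₀ (by positivity)] at h4
      have h7 : ((K.erase b).card : ℝ) ≤ K.card := by exact_mod_cast card_le_card (erase_subset b K)
      have h8 : ((K.erase b).card : ℝ) ^ n ≤ (K.card : ℝ) ^ n := pow_le_pow_left₀ h0r.le h7 n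
      calc Sg ^ (n + 1) ≤ _ := h4
        _ ≤ (K.card * (100 / κ)) * (K.card : ℝ) ^ n := by
            apply mul_le_mul (h3.trans h6) h8 (by positivity) (by positivity)
        _ = _ := by ring
  have hpos' : 0 < 100 / κ := by positivity
  have h9 : (K.card * (100 / κ) ^ (1 / ((n + 1 : ℕ) : ℝ))) ^ (n + 1) = (K.card : ℝ) ^ (n + 1) * (100 / κ) := by
    rw [mul_pow]
    congr 1
    rw [← Real.rpow_natCast, ← Real.rpow_mul hpos'.le, one_div, inv_mul_cancel₀ (by positivity), Real.rpow_one]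
  rw [← h9] at h5
  exact le_of_pow_le_pow_left₀ (by omega) (by positivity) h5

end Pool.Agent.TH881.RK
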