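import Mathlib
import Pool.Agent.TH881.RK.Mix0

/-! Mixing for prime tuples. -/

set_option autoImplicit false

namespace Pool.Agent.TH881.RK

open Finset Filter Topology
open Pool.Agent.TH881
open Pool.Agent.TH881.RG
open Pool.Agent.TH881.RQ
open Pool.Agent.H373R2.T7

/-- a small parameter -/
lemma exists_small (m : ℕ) (ε : ℝ) (hε : 0 < ε) : ∃ x : ℝ, 0 < x ∧ x ≤ 1 / 16 ∧
    (1 + x) ^ m * ((1 + x) * (1 + 3 * x) ^ m + x - 2 * (1 - x) ^ m + (1 + x) ^ m) ≤ ε := by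
  obtain ⟨F, hF⟩ : ∃ F : ℝ → ℝ, F = fun x : ℝ => (1 + x) ^ m * ((1 + x) * (1 + 3 * x) ^ m + x - 2 * (1 - x) ^ m + (1 + x) ^ m) :=
    ⟨_, rfl⟩
  have hc : Continuous F := by
    rw [hF]
    fun_prop
  have h0 : F 0 = 0 := by
    rw [hF]
    simp only [add_zero, mul_zero, sub_zero, one_pow, mul_one]
    norm_num
  have h1 : Tendsto F (𝓝[>] 0) (𝓝 0) := by
    have h2 := (hc.tendsto 0).mono_left (nhdsWithin_le_nhds (s := Set.Ioi (0 : ℝ)))
    rwa [h0] at h2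
  have h2 := (h1.eventually_lt_const hε).and (Ioo_mem_nhdsGT (show (0 : ℝ) < 1 / 16 by norm_num))
  obtain ⟨x, hx1, hx2⟩ := h2.exists
  refine ⟨x, hx2.1, hx2.2.le, ?_⟩
  have h3 := hx1.le
  rw [hF] at h3
  exact h3

/-- largeness conditions -/
lemma numk (m B0 w W : ℕ) (hW : 1 ≤ W) (κ ε ε1 : ℝ) (hκ : 0 < κ)
    (hε1 : 0 < ε1) : ∃ X0 : ℕ, ∀ X : ℕ, X0 ≤ X →
    4 ≤ Real.log X ∧ (W : ℝ) ≤ Real.log X ∧ (w : ℝ) ≤ Real.log X ∧
    2 * (W : ℝ) ^ 2 / ε1 ^ 2 ≤ X ∧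
    4 * (W : ℝ) / ε1 ≤ Real.log X ∧ 2 / ε1 ≤ Real.log X ∧
    (2 * Real.log X ^ (2 * (B0 + 2))) ^ m ≤ ε1 * (κ * ((X : ℝ) / (W * Real.log X))) ∧
    2 * (W : ℝ) ^ (m + 1) / (ε * κ) ≤ Real.log X := by
  have hlim : Tendsto (fun N : ℕ => Real.log (N : ℝ)) atTop atTop :=
    Real.tendsto_log_atTop.comp (tendsto_natCast_atTop_atTop (R := ℝ))
  have hev : ∀ᶠ X : ℕ in atTop, (2 * Real.log X ^ (2 * (B0 + 2))) ^ m ≤ ε1 * (κ * ((X : ℝ) / (W * Real.log X))) := by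
    have hWr : (0 : ℝ) < W := by exact_mod_cast hW
    have hc : 0 < ε1 * κ / (2 ^ m * W) := by positivity
    have h := (isLittleO_log_rpow_rpow_atTop ((2 * (B0 + 2) * m + 1 : ℕ) : ℝ) (show (0 : ℝ) < 1 by norm_num)).bound hc
    have h2 := (tendsto_natCast_atTop_atTop (R := ℝ)).eventually h
    filter_upwards [h2, eventually_ge_atTop 3] with x h3 hx
    have hx1 : (3 : ℝ) ≤ x := by exact_mod_cast hx
    have hl : 0 < Real.log x := Real.log_pos (by linarith)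
    rw [Real.norm_of_nonneg (by positivity), Real.norm_of_nonneg (by positivity), Real.rpow_natCast, Real.rpow_one] at h3
    rw [← mul_div_assoc, ← mul_div_assoc, le_div_iff₀ (by positivity)]
    calc (2 * Real.log x ^ (2 * (B0 + 2))) ^ m * (W * Real.log x) =
          (2 ^ m * W) * Real.log x ^ (2 * (B0 + 2) * m + 1) := by
          rw [pow_succ, mul_pow, ← pow_mul]; ring
      _ ≤ (2 ^ m * W) * (ε1 * κ / (2 ^ m * W) * x) := mul_le_mul_of_nonneg_left h3 (by positivity)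
      _ = ε1 * (κ * x) := by field_simp
  obtain ⟨X0, h0⟩ := eventually_atTop.1 (((hlim.eventually_ge_atTop 4).and (hlim.eventually_ge_atTop (W : ℝ))).and
    (((hlim.eventually_ge_atTop (w : ℝ)).and ((tendsto_natCast_atTop_atTop (R := ℝ)).eventually_ge_atTop
      (2 * (W : ℝ) ^ 2 / ε1 ^ 2))).and (((hlim.eventually_ge_atTop (4 * (W : ℝ) / ε1)).and
      (hlim.eventually_ge_atTop (2 / ε1))).and (hev.and (hlim.eventually_ge_atTop (2 * (W : ℝ) ^ (m + 1) / (ε * κ)))))))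
  refine ⟨X0, fun X hX => ?_⟩
  obtain ⟨⟨a1, a2⟩, ⟨a3, a4⟩, ⟨a5, a6⟩, a7, a8⟩ := h0 X hX
  exact ⟨a1, a2, a3, a4, a5, a6, a7, a8⟩

/-- variance from the first two moments -/
lemma var_k {ι : Type} (I E : Finset ι) (hE : E ⊆ I) (f : ι → ℝ) (μ c1 c2 c3 Hh ε : ℝ) (hμ : 0 ≤ μ) (hε : 0 ≤ ε)
    (hH : 0 ≤ Hh) (hI : (I.card : ℝ) ≤ c3 * Hh) (hS1 : c1 * (μ * Hh) ≤ ∑ n ∈ I, f n)
    (hS2 : ∑ n ∈ I, f n ^ 2 ≤ c2 * (μ ^ 2 * Hh)) (hc : c3 * (c2 - 2 * c1 + c3) ≤ ε ^ 2) (hc3 : 0 ≤ c3) :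
    |∑ n ∈ E, f n - E.card * μ| ≤ ε * (Hh * μ) := by
  have e0 : ∑ n ∈ I, (f n - μ) ^ 2 = ∑ n ∈ I, f n ^ 2 - 2 * μ * ∑ n ∈ I, f n + (I.card : ℝ) * μ ^ 2 := by
    rw [mul_sum, ← nsmul_eq_mul, ← sum_const, ← sum_sub_distrib, ← sum_add_distrib]
    apply sum_congr rfl
    intro n _
    ring
  have e1 : ∑ n ∈ I, (f n - μ) ^ 2 ≤ (c2 - 2 * c1 + c3) * (μ ^ 2 * Hh) := by
    rw [e0]
    have h1 : (I.card : ℝ) * μ ^ 2 ≤ c3 * Hh * μ ^ 2 := mul_le_mul_of_nonneg_right hI (by positivity)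
    have h2 : 2 * μ * (c1 * (μ * Hh)) ≤ 2 * μ * ∑ n ∈ I, f n := mul_le_mul_of_nonneg_left hS1 (by positivity)
    have h3 : 2 * μ * (c1 * (μ * Hh)) = 2 * c1 * (μ ^ 2 * Hh) := by ring
    have h4 : c3 * Hh * μ ^ 2 = c3 * (μ ^ 2 * Hh) := by ring
    rw [h3] at h2
    rw [h4] at h1
    have h5 : (c2 - 2 * c1 + c3) * (μ ^ 2 * Hh) = c2 * (μ ^ 2 * Hh) - 2 * c1 * (μ ^ 2 * Hh) + c3 * (μ ^ 2 * Hh) := by ring
    rw [h5]
    linarith
  have e2 : ∑ n ∈ E, f n - E.card * μ = ∑ n ∈ E, (f n - μ) := by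
    rw [sum_sub_distrib, sum_const, nsmul_eq_mul]
  rw [e2]
  apply abs_le_of_sq_le_sq _ (by positivity)
  have hcE : (E.card : ℝ) ≤ c3 * Hh := le_trans (by exact_mod_cast card_le_card hE) hI
  calc (∑ n ∈ E, (f n - μ)) ^ 2 ≤ E.card * ∑ n ∈ E, (f n - μ) ^ 2 := sq_sum_le_card_mul_sum_sq
    _ ≤ (c3 * Hh) * ∑ n ∈ I, (f n - μ) ^ 2 := by
        apply mul_le_mul hcE _ (sum_nonneg fun _ _ => sq_nonneg _) (by positivity)
        exact sum_le_sum_of_subset_of_nonneg hE fun _ _ _ => sq_nonneg _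
    _ ≤ (c3 * Hh) * ((c2 - 2 * c1 + c3) * (μ ^ 2 * Hh)) := mul_le_mul_of_nonneg_left e1 (by positivity)
    _ = (c3 * (c2 - 2 * c1 + c3)) * (Hh * μ) ^ 2 := by ring
    _ ≤ ε ^ 2 * (Hh * μ) ^ 2 := mul_le_mul_of_nonneg_right hc (sq_nonneg _)
    _ = _ := by ring

/-- **Mixing.** -/
theorem stMix_of (pr : Bool) (m : ℕ) (hPM : StPMq pr (Polynomial.X))
    (hA : ∀ U : ℕ, ∃ B0 : ℕ, ∀ E : ℕ, ∃ X0 : ℕ, ∀ X : ℕ, X0 ≤ X → ∀ z : ℕ, Real.log X ^ B0 ≤ z →
      (z : ℝ) ≤ Real.log X ^ E → ∀ K : Finset ℕ, K ⊆ Icc 1 X →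
      ∑ N ∈ Fintype.piFinset (fun _ : Fin m => Icc 1 X),
        |∑ n ∈ K, (∏ j, lp (N j + n) - ∏ j, lamz z (N j + n))| ≤ (X : ℝ) ^ m * X / Real.log X ^ U) :
    StMixK pr m := by
  classical
  intro κ ε hκ hε hε1
  obtain ⟨ε1, he0, he16, hsmall⟩ := exists_small m ((ε / 2) ^ 2) (by positivity)
  obtain ⟨J, hJ, hJ2⟩ := root_close (100 / κ) ε1 (by positivity) he0
  obtain ⟨B0, hsup⟩ := hA 2
  obtain ⟨m1, hsup⟩ := hsup (B0 + 2)
  obtain ⟨m2, hsec⟩ := pair_corr (B0 + 2) 2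
  obtain ⟨m3, hfir⟩ := first_one (B0 + 2) 2
  obtain ⟨w0, havg⟩ := avg_pow pr hPM m J (B0 + 2) hJ
  refine ⟨w0, fun w hw => ?_⟩
  obtain ⟨m5, havg⟩ := havg w hw
  obtain ⟨m4, hnum⟩ := numk m B0 w (Wp w) (Wp_pos w) κ ε ε1 hκ he0
  refine ⟨max (max m1 m2) (max (max m3 m5) (max m4 3)), ?_⟩
  intro X hX t ht K hK hcls hcop hcard E hE
  simp only [max_le_iff] at hX
  obtain ⟨⟨hm1, hm2⟩, ⟨hm3, hm5⟩, ⟨hm4, hX3⟩⟩ := hX
  obtain ⟨a1, a2, a3, a4, a5, a6, a7, a8⟩ := hnum X hm4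
  obtain ⟨L, hL⟩ : ∃ L : ℝ, L = Real.log X := ⟨_, rfl⟩
  rw [← hL] at a1 a2 a3 a5 a6 a7 a8
  have hL0 : 0 < L := by linarith
  have hL1 : 1 ≤ L := by linarith
  have hXr : (3 : ℝ) ≤ X := by exact_mod_cast hX3
  have hX0 : (0 : ℝ) < X := by linarith
  have hW : (0 : ℝ) < Wp w := by exact_mod_cast Wp_pos w
  have hW1 : (1 : ℝ) ≤ Wp w := by exact_mod_cast Wp_pos w
  obtain ⟨h, hh⟩ : ∃ h : ℝ, h = (X : ℝ) / Wp w := ⟨_, rfl⟩
  have hhpos : 0 < h := by rw [hh]; positivity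
  obtain ⟨v, hv⟩ : ∃ v : ℝ, v = (Vz w)⁻¹ := ⟨_, rfl⟩
  have hv1 : 1 ≤ v := by rw [hv]; exact (one_le_inv₀ (Vz_pos w)).2 (Vz_le_one w)
  have hv0 : 0 < v := by linarith
  -- sizes
  obtain ⟨NN, hNN⟩ : ∃ N : ℕ, N = 2 * X := ⟨_, rfl⟩
  have hXNN : X ≤ NN := by omega
  have hNNr : (NN : ℝ) = 2 * X := by rw [hNN]; push_cast; ring
  have hlog : L ≤ Real.log NN := by
    rw [hL]
    exact Real.log_le_log hX0 (by exact_mod_cast hXNN)
  have hLV0 : 0 < Real.log NN ^ 2 := by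
    have : 0 < Real.log NN := by linarith
    positivity
  have hLVL : L ≤ Real.log NN ^ 2 := by nlinarith
  -- the cardinality of K
  have hpp := ppq_ge pr w X (by rw [← hL]; exact hL1)
  rw [← hL] at hpp
  have hKc : κ * ((X : ℝ) / (Wp w * L)) ≤ K.card := (mul_le_mul_of_nonneg_left hpp hκ.le).trans hcard
  have hKr : (0 : ℝ) < K.card := lt_of_lt_of_le (by positivity) hKc
  -- level
  obtain ⟨z, hz⟩ : ∃ z : ℕ, z = ⌈L ^ (B0 + 1)⌉₊ := ⟨_, rfl⟩
  have hz1 : L ^ (B0 + 1) ≤ z := by rw [hz]; exact Nat.le_ceil _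
  have hLB : L ≤ L ^ (B0 + 1) := by
    calc L = L ^ 1 := (pow_one L).symm
      _ ≤ L ^ (B0 + 1) := pow_le_pow_right₀ hL1 (by omega)
  have hz2 : (z : ℝ) ≤ L ^ (B0 + 2) := by
    have h1 : (z : ℝ) ≤ L ^ (B0 + 1) + 1 := by
      rw [hz]
      exact (Nat.ceil_lt_add_one (by positivity)).le
    have h2 : L ^ (B0 + 2) = L ^ (B0 + 1) * L := pow_succ _ _
    have h3 : L ^ (B0 + 1) * 4 ≤ L ^ (B0 + 1) * L := mul_le_mul_of_nonneg_left a1 (by positivity)
    rw [h2]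
    linarith
  have hz0 : L ^ B0 ≤ z := (pow_le_pow_right₀ hL1 (by omega)).trans hz1
  have hz1' : 1 ≤ z := by
    have : (1 : ℝ) ≤ z := by linarith
    exact_mod_cast this
  have hWz : Wp w ≤ z := by
    have : (Wp w : ℝ) ≤ z := by linarith
    exact_mod_cast this
  have hwz : w ≤ z := by
    have : (w : ℝ) ≤ z := by linarith
    exact_mod_cast this
  have hzNN : (z : ℝ) ≤ Real.log NN ^ (B0 + 2) := hz2.trans (pow_le_pow_left₀ hL0.le hlog _)
  -- numerical conditions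
  have hq1 : √(NN : ℝ) ≤ ε1 * h := by
    apply Real.sqrt_le_iff.2
    refine ⟨by positivity, ?_⟩
    rw [hNNr, hh]
    rw [div_le_iff₀ (by positivity)] at a4
    rw [← mul_div_assoc, div_pow, le_div_iff₀ (by positivity)]
    calc 2 * (X : ℝ) * (Wp w : ℝ) ^ 2 = (2 * (Wp w : ℝ) ^ 2) * X := by ring
      _ ≤ (X * ε1 ^ 2) * X := mul_le_mul_of_nonneg_right a4 hX0.le
      _ = _ := by ring
  have hNN1 : (1 : ℝ) ≤ √(NN : ℝ) := by
    rw [Real.one_le_sqrt]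
    rw [hNNr]
    linarith
  have hq2 : 1 ≤ ε1 * h := hNN1.trans hq1
  have hq3 : 2 * ((NN : ℝ) / Real.log NN ^ 2) ≤ ε1 * h := by
    rw [div_le_iff₀ he0] at a5
    rw [← mul_div_assoc, div_le_iff₀ hLV0]
    have e0 : (Wp w : ℝ) * ((X : ℝ) / Wp w) = X := by field_simp
    calc 2 * (NN : ℝ) = 2 * (2 * ((Wp w : ℝ) * ((X : ℝ) / Wp w))) := by rw [e0, hNNr]
      _ = (4 * Wp w) * ((X : ℝ) / Wp w) := by ring
      _ ≤ (L * ε1) * ((X : ℝ) / Wp w) := mul_le_mul_of_nonneg_right a5 (by positivity)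
      _ ≤ (Real.log NN ^ 2 * ε1) * ((X : ℝ) / Wp w) := by
          apply mul_le_mul_of_nonneg_right _ (by positivity)
          exact mul_le_mul_of_nonneg_right hLVL he0.le
      _ = _ := by rw [hh]; ring
  have hh1 : 1 ≤ h := by
    have : ε1 * h ≤ 1 * h := mul_le_mul_of_nonneg_right (by linarith) hhpos.le
    linarith
  have hq4 : (h + 1) / Real.log NN ^ 2 ≤ ε1 * h := by
    rw [div_le_iff₀ hLV0]
    rw [div_le_iff₀ he0] at a6
    calc h + 1 ≤ h * 2 := by linarith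
      _ ≤ h * (L * ε1) := mul_le_mul_of_nonneg_left a6 hhpos.le
      _ = ε1 * h * L := by ring
      _ ≤ _ := mul_le_mul_of_nonneg_left hLVL (by positivity)
  have hq5 : (2 * (z : ℝ) ^ 2) ^ m ≤ ε1 * K.card := by
    calc (2 * (z : ℝ) ^ 2) ^ m ≤ (2 * (L ^ (B0 + 2)) ^ 2) ^ m := by
          apply pow_le_pow_left₀ (by positivity)
          apply mul_le_mul_of_nonneg_left _ (by norm_num)
          exact pow_le_pow_left₀ (Nat.cast_nonneg z) hz2 2
      _ = (2 * L ^ (2 * (B0 + 2))) ^ m := by rw [← pow_mul]; congr 3; ring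
      _ ≤ ε1 * (κ * ((X : ℝ) / (Wp w * L))) := a7
      _ ≤ _ := mul_le_mul_of_nonneg_left hKc he0.le
  -- second moment
  have hS2 := second_k m w z X t K ((1 + 3 * ε1) * (h * v ^ 2)) (2 * h * (z : ℝ) ^ 2) (h + 1) (1 + ε1)
    (by positivity) (by positivity) (by positivity)
    (by
      intro j b hb b' hb'
      have h1 := hsec NN (by omega) z hz1' hzNN w hwz X (t j) (ht j).1 (ht j).2 b b'
      rw [← hh, ← hv] at h1
      have hg := one_le_gw w z (Nat.dist b b')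
      have h2 : (h + 1) * (v ^ 2 * gw w z (Nat.dist b b')) ≤ (1 + ε1) * h * (v ^ 2 * gw w z (Nat.dist b b')) := by
        apply mul_le_mul_of_nonneg_right _ (by positivity)
        linarith
      have h3 : 2 * (ε1 * h) ≤ 2 * (ε1 * h) * (v ^ 2 * gw w z (Nat.dist b b')) := by
        apply le_mul_of_one_le_right (by positivity)
        have : 1 ≤ v ^ 2 := one_le_pow₀ hv1
        nlinarith
      calc _ ≤ _ := h1
        _ ≤ (1 + ε1) * h * (v ^ 2 * gw w z (Nat.dist b b')) + 2 * (ε1 * h) := by linarith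
        _ ≤ (1 + ε1) * h * (v ^ 2 * gw w z (Nat.dist b b')) + 2 * (ε1 * h) * (v ^ 2 * gw w z (Nat.dist b b')) := by
            linarith
        _ = _ := by ring)
    (by
      intro j b _
      have hc := card_It_le w 0 X (t j) (ht j).1 (by rw [zero_add]; exact (ht j).2)
      rw [← hh] at hc
      calc ∑ n ∈ It w 0 X (t j), lamz z (n + b) * lamz z (n + b) ≤ ∑ _n ∈ It w 0 X (t j), (z : ℝ) * z := by
            apply sum_le_sum
            intro n _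
            exact mul_le_mul (lamz_le z hz1' _) (lamz_le z hz1' _) (lamz_nonneg z _) (Nat.cast_nonneg z)
        _ = ((It w 0 X (t j)).card : ℝ) * (z * z) := by rw [sum_const, nsmul_eq_mul]
        _ ≤ (2 * h) * (z * z) := by
            apply mul_le_mul_of_nonneg_right _ (by positivity)
            linarith
        _ = _ := by ring)
    (by
      intro b hb
      exact (havg X hm5 z (by rw [← hL]; exact hz2) K hK hcls κ hκ hcard b hb).trans
        (mul_le_mul_of_nonneg_left hJ2 (Nat.cast_nonneg _)))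
  -- first moment
  have hS1 := first_k m w z X t K ((1 - ε1) * (h * v)) (by
      apply mul_nonneg (by linarith) (by positivity))
    (by
      intro j b hb
      have hcj : (t j + b).Coprime (Wp w) := by
        rw [← ZMod.isUnit_iff_coprime]
        have := hcop b hb j
        push_cast
        exact this
      have h1 := hfir NN (by omega) z hz1' hzNN w hWz X (t j) b (ht j).1 (by have := (hK b hb).2.2; omega) hcj
      rw [← hh, ← hv] at h1
      refine le_trans ?_ h1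
      have h2 : ε1 * h ≤ ε1 * h * v := le_mul_of_one_le_right (by positivity) hv1
      have h3 : (1 - ε1) * (h * v) = v * h - ε1 * h * v := by ring
      rw [h3]
      linarith)
  obtain ⟨f, hf⟩ : ∃ f : (Fin m → ℕ) → ℝ, f = fun N => ∑ n ∈ K, ∏ j, lamz z (N j + n) := ⟨_, rfl⟩
  have hIc : (((Fintype.piFinset (fun j => It w 0 X (t j))).card : ℕ) : ℝ) ≤ (1 + ε1) ^ m * h ^ m := by
    rw [Fintype.card_piFinset, Nat.cast_prod, ← mul_pow]
    calc ∏ j, ((It w 0 X (t j)).card : ℝ) ≤ ∏ _j : Fin m, ((1 + ε1) * h) := by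
          apply Finset.prod_le_prod
          · intro j _
            positivity
          · intro j _
            have hc := card_It_le w 0 X (t j) (ht j).1 (by rw [zero_add]; exact (ht j).2)
            rw [← hh] at hc
            linarith
      _ = _ := by rw [prod_const, card_univ, Fintype.card_fin]
  have hvar := var_k (Fintype.piFinset (fun j => It w 0 X (t j))) E hE f (v ^ m * K.card) ((1 - ε1) ^ m)
    ((1 + ε1) * (1 + 3 * ε1) ^ m + ε1) ((1 + ε1) ^ m) (h ^ m) (ε / 2) (by positivity) (by positivity)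
    (by positivity) hIc
    (by
      rw [hf]
      refine le_trans (le_of_eq ?_) hS1
      rw [mul_pow, mul_pow]
      ring)
    (by
      rw [hf]
      refine hS2.trans ?_
      have h1 : (K.card : ℝ) * (2 * h * (z : ℝ) ^ 2) ^ m ≤ ε1 * ((v ^ m * K.card) ^ 2 * h ^ m) := by
        calc (K.card : ℝ) * (2 * h * (z : ℝ) ^ 2) ^ m = K.card * h ^ m * (2 * (z : ℝ) ^ 2) ^ m := by
              rw [show 2 * h * (z : ℝ) ^ 2 = h * (2 * (z : ℝ) ^ 2) by ring, mul_pow]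
              ring
          _ ≤ K.card * h ^ m * (ε1 * K.card) := mul_le_mul_of_nonneg_left hq5 (by positivity)
          _ = ε1 * ((1 * (K.card : ℝ)) ^ 2 * h ^ m) := by ring
          _ ≤ _ := by
              apply mul_le_mul_of_nonneg_left _ he0.le
              apply mul_le_mul_of_nonneg_right _ (by positivity)
              apply pow_le_pow_left₀ (by positivity)
              exact mul_le_mul_of_nonneg_right (one_le_pow₀ hv1) hKr.le
      have h2 : (K.card : ℝ) ^ 2 * (1 + ε1) * ((1 + 3 * ε1) * (h * v ^ 2)) ^ m =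
          (1 + ε1) * (1 + 3 * ε1) ^ m * ((v ^ m * K.card) ^ 2 * h ^ m) := by
        rw [mul_pow, mul_pow, mul_pow, ← pow_mul, ← pow_mul]
        ring
      rw [h2]
      linarith)
    (by
      refine le_trans (le_of_eq ?_) hsmall
      ring) (by positivity)
  -- the other part
  have hEI : E ⊆ Fintype.piFinset (fun _ : Fin m => Icc 1 X) := by
    refine hE.trans ?_
    intro N hN
    rw [Fintype.mem_piFinset] at hN ⊢
    intro j
    have h1 := mem_It.1 (hN j)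
    rw [mem_Icc]
    omega
  have hbil := hsup X hm1 z (by rw [← hL]; exact hz0) (by rw [← hL]; exact hz2) K (by
      intro n hn
      have h1 := hK n hn
      rw [mem_Icc]
      refine ⟨?_, h1.2.2⟩
      have h2 : (0 : ℝ) < n := lt_of_le_of_lt (Real.sqrt_nonneg _) h1.2.1
      exact_mod_cast h2)
  rw [← hL] at hbil
  have e1 : |∑ N ∈ E, ∑ n ∈ K, ∏ j, lp (N j + n) - ∑ N ∈ E, f N| ≤ (X : ℝ) ^ m * X / L ^ 2 := by
    rw [← sum_sub_distrib, hf]
    refine le_trans (abs_sum_le_sum_abs _ _) (le_trans ?_ hbil)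
    refine le_trans (le_of_eq ?_) (sum_le_sum_of_subset_of_nonneg hEI fun _ _ _ => abs_nonneg _)
    apply sum_congr rfl
    intro N hN
    rw [← sum_sub_distrib]
  have e2 : (X : ℝ) ^ m * X / L ^ 2 ≤ (ε / 2) * (h ^ m * (v ^ m * K.card)) := by
    have h1 : ((X : ℝ) / Wp w) ^ m * (κ * ((X : ℝ) / (Wp w * L))) ≤ h ^ m * (v ^ m * K.card) := by
      rw [← hh]
      apply mul_le_mul_of_nonneg_left _ (by positivity)
      exact hKc.trans (le_mul_of_one_le_left hKr.le (one_le_pow₀ hv1))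
    refine le_trans ?_ (mul_le_mul_of_nonneg_left h1 (by positivity))
    rw [div_le_iff₀ (by positivity)] at a8
    rw [div_le_iff₀ (by positivity)]
    have h2 : ε / 2 * (((X : ℝ) / Wp w) ^ m * (κ * ((X : ℝ) / (Wp w * L)))) * L ^ 2 =
        (L * (ε * κ)) * ((X : ℝ) ^ m * X) / (2 * (Wp w : ℝ) ^ (m + 1)) := by
      rw [div_pow, pow_succ]
      field_simp
      exact pow_succ _ _
    rw [h2, le_div_iff₀ (by positivity)]
    calc (X : ℝ) ^ m * X * (2 * (Wp w : ℝ) ^ (m + 1)) = (2 * (Wp w : ℝ) ^ (m + 1)) * ((X : ℝ) ^ m * X) := by ring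
      _ ≤ _ := mul_le_mul_of_nonneg_right a8 (by positivity)
  rw [← hh, ← hv]
  have e3 := abs_le.1 (e1.trans e2)
  have e4 := abs_le.1 hvar
  rw [abs_le]
  constructor
  · linarith [e3.1, e4.1]
  · linarith [e3.2, e4.2]

end Pool.Agent.TH881.RK
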