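import Mathlib
import Pool.Agent.TH881.RK.Mix
import Pool.Agent.TH881.RQ.Sq
import Pool.Agent.TH986.J3801
import Pool.Agent.TH751.J3803
import Pool.Agent.TH494.J3809
import Pool.Agent.TH293.J3813
import Pool.Agent.TH692.J3814
import Pool.Agent.TH698.J3815
import Pool.Agent.TH336.J3810
import Pool.Agent.TH663.J3811

/-! Prime tuples along sparse sets of arguments: the law near density zero. -/

set_option autoImplicit false

namespace Pool.Agent.TH881.RK

open Finset Filter Topology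
open Pool.Agent.TH881
open Pool.Agent.TH881.RG
open Pool.Agent.TH881.RQ
open Pool.Agent.H373R2.T7

theorem stAbs3_in : StAbs3 := Pool.Agent.TH986.J3801.stAbs3

theorem stMix_in (pr : Bool) (m : ℕ) : StMixK pr m :=
  stMix_of pr m (stPMq_in pr Polynomial.X (by rw [Polynomial.natDegree_X]) (by rw [Polynomial.leadingCoeff_X]; exact one_pos))
    (fun U => Pool.Agent.TH494.J3809.mixA m U)

theorem stGlob_in (pr : Bool) (m : ℕ) (hm : 1 ≤ m) : StGlob pr m :=
  Pool.Agent.TH336.J3810.stGlob_of pr m hm (stMix_in pr m)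

theorem stUnion_inn (pr : Bool) (m : ℕ) (hm : 1 ≤ m) : StUnion pr m :=
  Pool.Agent.TH881.RK.stUnion_in stPC pr m hm

theorem stMBd_inn (pr : Bool) : StMBd (fun p => 1 / (Aq pr p : ℝ)) := by
  apply Pool.Agent.TH554.J2921.stMBd_of (fun p => 1 / (Aq pr p : ℝ)) (fun p _ => by positivity) 2
  intro p hp
  have h2 := Aq_ge pr p hp
  have h3 : (0 : ℝ) < p := by exact_mod_cast hp.pos
  have h4 : (0 : ℝ) < Aq pr p := by linarith
  rw [div_le_div_iff₀ h4 h3]
  linarith

theorem law_zero_in (pr : Bool) (m : ℕ) (hm : 1 ≤ m) :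
    Tendsto (fun β : ℝ => Real.log (Real.log (1 / β)) ^ m * FFk pr m β) (𝓝[>] 0)
      (𝓝 (Real.exp (-(m * Real.eulerMascheroniConstant)))) :=
  Pool.Agent.TH293.J3813.law_zero pr m hm
    (Pool.Agent.TH692.J3814.local_zero pr m hm (Pool.Agent.TH751.J3803.stMIdk_of stAbs3_in pr m) (stMBd_inn pr))
    (Pool.Agent.TH698.J3815.local_zero_up pr m hm) (stGlob_in pr m hm) (stUnion_inn pr m hm)

end Pool.Agent.TH881.RK
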