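import Mathlib
import Pool.Agent.TH881.RK.Zero
import Pool.Agent.TH11.J4002
import Pool.Agent.TH626.J4003

/-! The asymptotic formula for prime tuples along arbitrary sets, for almost all vectors of shifts. -/

set_option autoImplicit false

namespace Pool.Agent.TH881.RK

open Finset Filter Topology
open Pool.Agent.TH881
open Pool.Agent.TH881.RG
open Pool.Agent.TH881.RQ
open Pool.Agent.H373R2.T7

open Classical in
theorem uniK_in (pr : Bool) (m : ℕ) (hm : 1 ≤ m) (ε : ℝ) (hε : 0 < ε) :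
    ∃ w0 : ℕ, ∀ w : ℕ, w0 ≤ w → ∃ X0 : ℕ, ∀ X : ℕ, X0 ≤ X → ∀ S : Set ℕ,
      (((Fintype.piFinset (fun _ : Fin m => Icc 1 X)).filter (fun h : Fin m → ℕ =>
        ε * ((X : ℝ) / (if pr = true then Real.log X else 1)) <
          |(((Icc 1 X).filter (fun n => n ∈ S ∧ isArg pr n ∧ ∀ j, (n + h j).Prime)).card : ℝ) * Real.log X ^ m -
            (Vz w)⁻¹ ^ m * (((Icc 1 X).filter (fun n => n ∈ S ∧ isArg pr n ∧
              ∀ j, ∀ p : ℕ, p.Prime → p ≤ w → ¬ p ∣ n + h j)).card : ℝ)|)).card : ℝ) ≤ ε * (X : ℝ) ^ m :=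
  Pool.Agent.TH626.J4003.uniK pr m hm (Pool.Agent.TH11.J4002.bilK pr m hm (stMix_in pr m)) ε hε

end Pool.Agent.TH881.RK
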