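import Mathlib
import Pool.Agent.TH881.RK.Defs

/-! Several even numbers with a common prime of a dense set in their Goldbach partitions:
definitions. -/

set_option autoImplicit false

namespace Pool.Agent.TH881.RK

open Finset Filter Topology
open Pool.Agent.TH881
open Pool.Agent.TH881.RG
open Pool.Agent.TH881.RQ
open Pool.Agent.H373R2.T7

/-- no local obstruction to all the `h j - n` being prime -/
def AdmG (pr : Bool) {m : ℕ} (h : Fin m → ℕ) : Prop :=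
  ∀ p : ℕ, p.Prime → ∃ a : ℕ, (pr = true → ¬ p ∣ a) ∧ ∀ j, ¬ (p : ℤ) ∣ (h j : ℤ) - a

/-- the vectors `h` with all `h j - n` prime for some argument `n` in `A`, `√(h j) < n < h j / 2` -/
def hitG (pr : Bool) (m : ℕ) (A : Set ℕ) : Set (Fin m → ℕ) :=
  {h | ∃ n ∈ A, isArg pr n ∧ ∀ j, h j < n ^ 2 ∧ 2 * n < h j ∧ (h j - n).Prime}

/-- the vectors without local obstruction which are lost -/
def losG (pr : Bool) (m : ℕ) (A : Set ℕ) : Set (Fin m → ℕ) := {h | AdmG pr h ∧ h ∉ hitG pr m A}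

/-- the largest upper density of the lost vectors if a proportion `δ` of the arguments is deleted -/
noncomputable def MDG (pr : Bool) (m : ℕ) (δ : ℝ) : ℝ :=
  sSup {d | ∃ A : Set ℕ, 1 - δ ≤ relq pr A ∧ d = udk (losG pr m A)}

/-- mixing in windows, for differences -/
def StMixG (pr : Bool) (m : ℕ) : Prop := ∀ (G : ℕ) (κ ε ρ : ℝ), 1 ≤ G → 0 < κ → 0 < ε → ε < 1 → 0 < ρ →
    ∃ w0 : ℕ, ∀ w : ℕ, w0 ≤ w → ∃ X0 : ℕ, ∀ X : ℕ, X0 ≤ X → ∀ (M t : Fin m → ℕ) (H : ℕ),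
    (∀ j, X ≤ M j ∧ M j + H ≤ G * X ∧ M j < t j ∧ t j ≤ M j + Wp w) → ρ * X ≤ H →
    ∀ K : Finset ℕ, (∀ n ∈ K, isArg pr n ∧ √(X : ℝ) < n ∧ n ≤ X) →
    (∀ n ∈ K, ∀ n' ∈ K, n ≡ n' [MOD Wp w]) →
    (∀ n ∈ K, gk (fun j => (t j : ZMod (Wp w))) (-(n : ZMod (Wp w)))) →
    κ * ppq pr w X ≤ K.card →
    ∀ E ⊆ Fintype.piFinset (fun j => It w (M j) H (t j)),
      |∑ N ∈ E, ∑ n ∈ K, ∏ j, lp (N j - n) - E.card * ((Vz w)⁻¹ ^ m * K.card)| ≤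
        ε * (((H : ℝ) / Wp w) ^ m * ((Vz w)⁻¹ ^ m * K.card))

/-- upper bound for the density of the lost vectors -/
def StUpG (pr : Bool) (m : ℕ) : Prop := ∀ (η κ θ : ℝ), 0 ≤ η → 0 < κ → η + κ < 1 →
    (∃ w1 : ℕ, ∀ w : ℕ, w1 ≤ w → ∀ B ⊆ AA pr w, (1 - η - κ) * (AA pr w).card ≤ B.card →
      ((misk pr m w B).card : ℝ) / (Wp w : ℝ) ^ m ≤ θ) →
    ∀ A : Set ℕ, 1 - η ≤ relq pr A → udk (losG pr m A) ≤ θ

/-- unions of classes -/
def StLowG (pr : Bool) (m : ℕ) : Prop := ∀ (w : ℕ) (B : Finset (ZMod (Wp w))), B ⊆ AA pr w → m + 1 ≤ w →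
    ∃ A : Set ℕ, (B.card : ℝ) / (AA pr w).card ≤ relq pr A ∧
      ((misk pr m w B).card : ℝ) / (Wp w : ℝ) ^ m ≤ udk (losG pr m A)

end Pool.Agent.TH881.RK
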