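import Mathlib
import Pool.Agent.TH881.RK.Defs

/-! The exact local formula for prime tuples along dense sets of arguments: definitions. -/

set_option autoImplicit false

namespace Pool.Agent.TH881.RK

open Finset Filter Topology
open Pool.Agent.TH881
open Pool.Agent.TH881.RG
open Pool.Agent.TH881.RQ
open Pool.Agent.H373R2.T7

/-- the local minimum -/
noncomputable def LFk (pr : Bool) (m : ℕ) (β : ℝ) : ℝ :=
  sInf {d | ∃ w : ℕ, ∃ B ⊆ AA pr w, β * (AA pr w).card ≤ B.card ∧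
    d = ((sumk m w B).card : ℝ) / (Wp w : ℝ) ^ m}

/-- lifting to a larger modulus -/
def StLift (pr : Bool) (m : ℕ) : Prop := ∀ w w' : ℕ, w ≤ w' → ∀ B ⊆ AA pr w, ∃ B' ⊆ AA pr w',
    (B'.card : ℝ) / (AA pr w').card = (B.card : ℝ) / (AA pr w).card ∧
    ((sumk m w' B').card : ℝ) / (Wp w' : ℝ) ^ m ≤ ((sumk m w B).card : ℝ) / (Wp w : ℝ) ^ m

/-- unions with small intersection -/
def StShift (pr : Bool) (m : ℕ) : Prop := ∀ w : ℕ, ∀ B₁ ⊆ AA pr w, ∀ B₂ ⊆ AA pr w, ∃ B ⊆ AA pr w,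
    (B₁.card : ℝ) + B₂.card - (B₁.card * B₂.card : ℝ) / (AA pr w).card ≤ B.card ∧
    (sumk m w B).card ≤ (sumk m w B₁).card + (sumk m w B₂).card

/-- the local minimum is subadditive in this sense -/
def StSub (pr : Bool) (m : ℕ) : Prop := ∀ β₁ β₂ : ℝ, 0 ≤ β₁ → β₁ ≤ 1 → 0 ≤ β₂ → β₂ ≤ 1 →
    LFk pr m (1 - (1 - β₁) * (1 - β₂)) ≤ LFk pr m β₁ + LFk pr m β₂

end Pool.Agent.TH881.RK
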