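import Mathlib
import Pool.Agent.TH881.RK.DefsL
import Pool.Agent.TH293.J3813

/-! The exact local formula for prime tuples along dense sets of arguments. -/

set_option autoImplicit false

namespace Pool.Agent.TH881.RK

open Finset Filter Topology
open Pool.Agent.TH881
open Pool.Agent.TH881.RG
open Pool.Agent.TH881.RQ
open Pool.Agent.H373R2.T7
open Pool.Agent.TH293.J3813

lemma lower_gen {pr : Bool} {m : ℕ} (h3 : StGlob pr m) {β κ c : ℝ} (hκ : 0 < κ) (hκβ : κ < β) (hβ1 : β ≤ 1)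
    (hloc : ∀ w : ℕ, ∀ B ⊆ AA pr w, (β - κ) * (AA pr w).card ≤ B.card →
      c ≤ ((sumk m w B).card : ℝ) / (Wp w : ℝ) ^ m)
    {A : Set ℕ} (hA : β ≤ relq pr A) : c ≤ ldk (hitk pr m A) := by
  classical
  refine le_of_forall_pos_le_add fun ε hε => ?_
  rw [← sub_le_iff_le_add]
  obtain ⟨w, hw⟩ := h3 A β κ (ε / 2) hκ hκβ hβ1 (by positivity) hA
  obtain ⟨X0, hX0⟩ := hw w le_rfl
  have hW : 0 < Wp w := Wp_pos w
  have hWR : (0 : ℝ) < Wp w := by exact_mod_cast hW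
  have ht : Tendsto (fun X : ℕ => c * (1 - (Wp w : ℝ) / X) ^ m) atTop (𝓝 c) := by
    have h4 : Tendsto (fun X : ℕ => (Wp w : ℝ) / (X : ℝ)) atTop (𝓝 0) :=
      tendsto_const_div_atTop_nhds_zero_nat _
    have h5 : Tendsto (fun X : ℕ => c * (1 - (Wp w : ℝ) / X) ^ m) atTop (𝓝 (c * (1 - 0) ^ m)) :=
      ((tendsto_const_nhds.sub h4).pow m).const_mul c
    simpa using h5
  have hev : ∀ᶠ X : ℕ in atTop, c - ε / 2 < c * (1 - (Wp w : ℝ) / X) ^ m :=
    ht.eventually (lt_mem_nhds (by linarith))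
  refine le_ldk ?_
  filter_upwards [hev, eventually_ge_atTop X0, eventually_ge_atTop (Wp w), eventually_ge_atTop 1]
    with X hX1 hX2 hX3 hX4
  obtain ⟨B, hB, hBc, hcnt⟩ := hX0 X hX2
  have hXR : (0 : ℝ) < X := by exact_mod_cast hX4
  have hl := hloc w B hB hBc
  have h4 := cnt_classes (m := m) (Wp w) hW (sumk m w B) X hX3
    {h : Fin m → ℕ | (fun j => (h j : ZMod (Wp w))) ∈ sumk m w B} (fun h => Iff.rfl)
  have h5 : (cntk {h : Fin m → ℕ | (fun j => (h j : ZMod (Wp w))) ∈ sumk m w B} X : ℝ) ≤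
      cntk (hitk pr m A) X +
      cntk {h : Fin m → ℕ | (fun j => (h j : ZMod (Wp w))) ∈ sumk m w B ∧ h ∉ hitk pr m A} X := by
    refine cnt_split (fun h hh => ?_) X
    by_cases hm : h ∈ hitk pr m A
    · exact Or.inl hm
    · exact Or.inr ⟨hh, hm⟩
  rw [le_div_iff₀ (by positivity)]
  have h6 : c * (Wp w : ℝ) ^ m * ((X : ℝ) / Wp w - 1) ^ m ≤
      ((sumk m w B).card : ℝ) * ((X : ℝ) / Wp w - 1) ^ m := by
    rw [le_div_iff₀ (by positivity)] at hl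
    have h7 : 0 ≤ (X : ℝ) / Wp w - 1 := by
      rw [sub_nonneg, one_le_div hWR]
      exact_mod_cast hX3
    exact mul_le_mul_of_nonneg_right hl (by positivity)
  have h7 : c * (Wp w : ℝ) ^ m * ((X : ℝ) / Wp w - 1) ^ m =
      (c * (1 - (Wp w : ℝ) / X) ^ m) * (X : ℝ) ^ m := by
    rw [mul_assoc, ← mul_pow, mul_assoc, ← mul_pow]
    congr 2
    field_simp
  have h8 : (c - ε / 2) * (X : ℝ) ^ m ≤ (c * (1 - (Wp w : ℝ) / X) ^ m) * (X : ℝ) ^ m :=
    mul_le_mul_of_nonneg_right hX1.le (by positivity)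
  have h9 : (c - ε) * (X : ℝ) ^ m = (c - ε / 2) * (X : ℝ) ^ m - ε / 2 * (X : ℝ) ^ m := by ring
  rw [h9]
  linarith

lemma LFk_bdd (pr : Bool) (m : ℕ) (β : ℝ) :
    BddBelow {d : ℝ | ∃ w : ℕ, ∃ B ⊆ AA pr w, β * (AA pr w).card ≤ B.card ∧
      d = ((sumk m w B).card : ℝ) / (Wp w : ℝ) ^ m} := by
  refine ⟨0, ?_⟩
  rintro x ⟨w, B, _, _, rfl⟩
  positivity

lemma LFk_ne (pr : Bool) (m : ℕ) (β : ℝ) (h : β ≤ 1) :
    {d : ℝ | ∃ w : ℕ, ∃ B ⊆ AA pr w, β * (AA pr w).card ≤ B.card ∧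
      d = ((sumk m w B).card : ℝ) / (Wp w : ℝ) ^ m}.Nonempty := by
  refine ⟨_, 0, AA pr 0, subset_rfl, ?_, rfl⟩
  have := AA_pos pr 0
  nlinarith

lemma LFk_le {pr : Bool} {m : ℕ} {β : ℝ} {w : ℕ} {B : Finset (ZMod (Wp w))} (hB : B ⊆ AA pr w)
    (h : β * (AA pr w).card ≤ B.card) : LFk pr m β ≤ ((sumk m w B).card : ℝ) / (Wp w : ℝ) ^ m :=
  csInf_le (LFk_bdd pr m β) ⟨w, B, hB, h, rfl⟩

lemma LFk_nonneg (pr : Bool) (m : ℕ) (β : ℝ) : 0 ≤ LFk pr m β := by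
  unfold LFk
  apply Real.sInf_nonneg
  rintro x ⟨w, B, _, _, rfl⟩
  positivity

lemma LFk_mono {pr : Bool} {m : ℕ} {β β' : ℝ} (h : β ≤ β') (h1 : β' ≤ 1) : LFk pr m β ≤ LFk pr m β' := by
  unfold LFk
  apply csInf_le_csInf (LFk_bdd pr m β) (LFk_ne pr m β' h1)
  rintro x ⟨w, B, hB, hc, rfl⟩
  refine ⟨w, B, hB, le_trans ?_ hc, rfl⟩
  exact mul_le_mul_of_nonneg_right h (AA_pos pr w).le

theorem stSub_of {pr : Bool} {m : ℕ} (hl : StLift pr m) (hs : StShift pr m) : StSub pr m := by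
  intro β1 β2 h1 h1' h2 h2'
  refine le_of_forall_pos_le_add fun ε hε => ?_
  have e1 : LFk pr m β1 < LFk pr m β1 + ε / 2 := by linarith
  obtain ⟨d1, ⟨w1, B1, hB1, hc1, rfl⟩, hd1⟩ := exists_lt_of_csInf_lt (LFk_ne pr m β1 h1') e1
  have e2 : LFk pr m β2 < LFk pr m β2 + ε / 2 := by linarith
  obtain ⟨d2, ⟨w2, B2, hB2, hc2, rfl⟩, hd2⟩ := exists_lt_of_csInf_lt (LFk_ne pr m β2 h2') e2
  obtain ⟨w, hw1, hw2⟩ : ∃ w, w1 ≤ w ∧ w2 ≤ w := ⟨max w1 w2, le_max_left _ _, le_max_right _ _⟩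
  obtain ⟨C1, hC1, f1, g1⟩ := hl w1 w hw1 B1 hB1
  obtain ⟨C2, hC2, f2, g2⟩ := hl w2 w hw2 B2 hB2
  obtain ⟨B, hB, hBc, hBs⟩ := hs w C1 hC1 C2 hC2
  have hA := AA_pos pr w
  have hA1 := AA_pos pr w1
  have hA2 := AA_pos pr w2
  have b1 : β1 ≤ (C1.card : ℝ) / (AA pr w).card := by
    rw [f1, le_div_iff₀ hA1]; exact hc1
  have b2 : β2 ≤ (C2.card : ℝ) / (AA pr w).card := by
    rw [f2, le_div_iff₀ hA2]; exact hc2
  have c1 : (C1.card : ℝ) / (AA pr w).card ≤ 1 := by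
    rw [div_le_one hA]; exact_mod_cast card_le_card hC1
  have c2 : (C2.card : ℝ) / (AA pr w).card ≤ 1 := by
    rw [div_le_one hA]; exact_mod_cast card_le_card hC2
  have hbig : (1 - (1 - β1) * (1 - β2)) * (AA pr w).card ≤ B.card := by
    refine le_trans ?_ hBc
    have e3 : (C1.card : ℝ) + C2.card - (C1.card * C2.card : ℝ) / (AA pr w).card =
        (1 - (1 - (C1.card : ℝ) / (AA pr w).card) * (1 - (C2.card : ℝ) / (AA pr w).card)) * (AA pr w).card := by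
      field_simp
      ring
    rw [e3]
    apply mul_le_mul_of_nonneg_right _ hA.le
    have : (1 - (C1.card : ℝ) / (AA pr w).card) * (1 - (C2.card : ℝ) / (AA pr w).card) ≤ (1 - β1) * (1 - β2) :=
      mul_le_mul (by linarith) (by linarith) (by linarith) (by linarith)
    linarith
  have h3 := LFk_le (m := m) hB hbig
  have h4 : ((sumk m w B).card : ℝ) / (Wp w : ℝ) ^ m ≤
      ((sumk m w C1).card : ℝ) / (Wp w : ℝ) ^ m + ((sumk m w C2).card : ℝ) / (Wp w : ℝ) ^ m := by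
    rw [← add_div]
    have hWR : (0 : ℝ) < Wp w := by exact_mod_cast Wp_pos w
    apply div_le_div_of_nonneg_right _ (by positivity)
    exact_mod_cast hBs
  linarith

/-- the local minimum is small near zero -/
lemma LFk_small {pr : Bool} {m : ℕ} (hm : 1 ≤ m) (hZ : StZeroUpK pr m) (ε : ℝ) (hε : 0 < ε) :
    ∃ η : ℝ, 0 < η ∧ η ≤ 1 ∧ LFk pr m η ≤ ε := by
  obtain ⟨β0, hβ0, h⟩ := hZ 1 one_pos
  have hy : Tendsto (fun β : ℝ => Real.log (Real.log (1 / β)) ^ m) (𝓝[>] 0) atTop := by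
    have h1 : Tendsto (fun β : ℝ => 1 / β) (𝓝[>] 0) atTop := by
      simpa using tendsto_inv_nhdsGT_zero (𝕜 := ℝ)
    exact (tendsto_pow_atTop (by omega)).comp (Real.tendsto_log_atTop.comp (Real.tendsto_log_atTop.comp h1))
  set c := Real.exp (-(m * Real.eulerMascheroniConstant)) + 1 with hc
  have hc0 : 0 < c := by positivity
  have h1 : ∀ᶠ β : ℝ in 𝓝[>] 0, c / ε ≤ Real.log (Real.log (1 / β)) ^ m := hy.eventually_ge_atTop _
  have h2 : ∀ᶠ β : ℝ in 𝓝[>] 0, β ∈ Set.Ioo (0 : ℝ) (min β0 1) := Ioo_mem_nhdsGT (by positivity)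
  obtain ⟨β, hb1, hb2⟩ := (h1.and h2).exists
  have hβ1 : β < β0 := lt_of_lt_of_le hb2.2 (min_le_left _ _)
  have hβ2 : β < 1 := lt_of_lt_of_le hb2.2 (min_le_right _ _)
  obtain ⟨w, B, hB, hBc, hBs⟩ := h β hb2.1 hβ1.le
  refine ⟨β, hb2.1, hβ2.le, ?_⟩
  have h3 := LFk_le (m := m) hB hBc
  have hL : 0 < Real.log (Real.log (1 / β)) ^ m := lt_of_lt_of_le (by positivity) hb1
  have h4 : c / ε * (((sumk m w B).card : ℝ) / (Wp w : ℝ) ^ m) ≤ c := by
    refine le_trans ?_ hBs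
    exact mul_le_mul_of_nonneg_right hb1 (by positivity)
  have h5 : ((sumk m w B).card : ℝ) / (Wp w : ℝ) ^ m ≤ ε := by
    rw [div_mul_eq_mul_div, div_le_iff₀ hε] at h4
    exact le_of_mul_le_mul_left h4 hc0
  linarith

/-- **the exact local formula** -/
theorem FFk_eq {pr : Bool} {m : ℕ} (hm : 1 ≤ m) (hG : StGlob pr m) (hU : StUnion pr m) (hZ : StZeroUpK pr m)
    (hS : StSub pr m) {β : ℝ} (hβ : 0 < β) (hβ1 : β < 1) : FFk pr m β = LFk pr m β := by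
  apply le_antisymm
  · -- unions of classes
    unfold LFk
    apply le_csInf (LFk_ne pr m β hβ1.le)
    rintro d ⟨w, B, hB, hBc, rfl⟩
    obtain ⟨A, hA1, _, hA3⟩ := hU w B hB
    refine le_trans ?_ hA3
    apply csInf_le (FFk_bdd pr m β)
    refine ⟨A, le_trans ?_ hA1, rfl⟩
    rw [le_div_iff₀ (AA_pos pr w)]
    exact hBc
  · -- the global theorem and continuity
    unfold FFk
    apply le_csInf
    · exact ⟨_, Set.univ, by rw [relq_un]; exact hβ1.le, rfl⟩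
    rintro d ⟨A, hA, rfl⟩
    refine le_of_forall_pos_le_add fun ε hε => ?_
    obtain ⟨η, hη, hη1, hLη⟩ := LFk_small (pr := pr) hm hZ ε hε
    -- choose `κ` with `1 - (1 - β + κ) (1 - η) ≥ β`
    set κ := min (β / 2) (η * (1 - β)) with hκd
    have hκ : 0 < κ := lt_min (by positivity) (mul_pos hη (by linarith))
    have hκβ : κ < β := lt_of_le_of_lt (min_le_left _ _) (by linarith)
    have hκη : κ ≤ η * (1 - β) := min_le_right _ _
    have h1 := lower_gen (c := LFk pr m (β - κ)) hG hκ hκβ hβ1.le (fun w B hB hBc => LFk_le hB hBc) hA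
    have h2 := hS (β - κ) η (by linarith) (by linarith) hη.le hη1
    have h3 : β ≤ 1 - (1 - (β - κ)) * (1 - η) := by nlinarith
    have h4 : 1 - (1 - (β - κ)) * (1 - η) ≤ 1 := by
      have : 0 ≤ (1 - (β - κ)) * (1 - η) := mul_nonneg (by linarith) (by linarith)
      linarith
    have h5 := LFk_mono (pr := pr) (m := m) h3 h4
    linarith

end Pool.Agent.TH881.RK
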