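import Mathlib
import Pool.Agent.TH881.RK.Loc
import Pool.Agent.TH881.RK.DefsG
import Pool.Agent.TH111.J3812
import Pool.Agent.TH663.J3811

/-! The density of the vectors without local obstruction; the Goldbach form of the local formula. -/

set_option autoImplicit false

namespace Pool.Agent.TH881.RK

open Finset Filter Topology
open Pool.Agent.TH881
open Pool.Agent.TH881.RG
open Pool.Agent.TH881.RQ
open Pool.Agent.H373R2.T7

open Classical in
/-- the classes without obstruction -/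
noncomputable def okk (pr : Bool) (m w : ℕ) : Finset (Fin m → ZMod (Wp w)) :=
  univ.filter (fun t => wk pr m w t ≠ 0)

lemma mem_okk {pr : Bool} {m w : ℕ} {t : Fin m → ZMod (Wp w)} : t ∈ okk pr m w ↔ wk pr m w t ≠ 0 := by
  classical
  unfold okk
  rw [mem_filter]
  exact ⟨fun h => h.2, fun h => ⟨mem_univ _, h⟩⟩

lemma mem_sumk' {m w : ℕ} {B : Finset (ZMod (Wp w))} {t : Fin m → ZMod (Wp w)} :
    t ∈ sumk m w B ↔ ∃ a ∈ B, gk t a := by
  classical
  unfold sumk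
  rw [mem_filter]
  exact ⟨fun h => h.2, fun h => ⟨mem_univ _, h⟩⟩

lemma mem_misk' {pr : Bool} {m w : ℕ} {B : Finset (ZMod (Wp w))} {t : Fin m → ZMod (Wp w)} :
    t ∈ misk pr m w B ↔ wk pr m w t ≠ 0 ∧ ∀ a ∈ B, ¬ gk t a := by
  classical
  unfold misk
  rw [mem_filter]
  exact ⟨fun h => h.2, fun h => ⟨mem_univ _, h⟩⟩

lemma adm_iff (pr : Bool) {m w : ℕ} (hmw : m + 1 ≤ w) (h : Fin m → ℕ) :
    Admk pr h ↔ (fun j => (h j : ZMod (Wp w))) ∈ okk pr m w := by
  classical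
  unfold okk
  rw [mem_filter]
  constructor
  · exact fun hA => ⟨mem_univ _, Pool.Agent.TH111.J3812.wk_ne_zero pr w h hA⟩
  · exact fun hA => Pool.Agent.TH663.J3811.adm_of pr w hmw h hA.2

/-- the density of a union of classes -/
lemma dens_classes {m : ℕ} (w : ℕ) (C : Finset (Fin m → ZMod (Wp w))) (S : Set (Fin m → ℕ))
    (hS : ∀ h, h ∈ S ↔ (fun j => (h j : ZMod (Wp w))) ∈ C) :
    Tendsto (fun x : ℕ => (cntk S x : ℝ) / (x : ℝ) ^ m) atTop (𝓝 ((C.card : ℝ) / (Wp w : ℝ) ^ m)) := by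
  have hW := Wp_pos w
  have hWR : (0 : ℝ) < Wp w := by exact_mod_cast hW
  have hSe : S = {h : Fin m → ℕ | (fun j => (h j : ZMod (Wp w))) ∈ C} := by
    ext h; exact hS h
  have h4 : Tendsto (fun x : ℕ => (1 : ℝ) / (x : ℝ)) atTop (𝓝 0) := tendsto_const_div_atTop_nhds_zero_nat _
  have hlo : Tendsto (fun x : ℕ => (C.card : ℝ) * (1 / (Wp w : ℝ) - 1 / (x : ℝ)) ^ m) atTop
      (𝓝 ((C.card : ℝ) / (Wp w : ℝ) ^ m)) := by
    have h5 := ((tendsto_const_nhds (x := 1 / (Wp w : ℝ))).sub h4).pow m |>.const_mul (C.card : ℝ)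
    rw [sub_zero] at h5
    have e : (C.card : ℝ) * (1 / (Wp w : ℝ)) ^ m = (C.card : ℝ) / (Wp w : ℝ) ^ m := by
      rw [one_div, inv_pow, div_eq_mul_inv]
    rwa [e] at h5
  have hup : Tendsto (fun x : ℕ => (C.card : ℝ) * (1 / (Wp w : ℝ) + 1 / (x : ℝ)) ^ m) atTop
      (𝓝 ((C.card : ℝ) / (Wp w : ℝ) ^ m)) := by
    have h5 := ((tendsto_const_nhds (x := 1 / (Wp w : ℝ))).add h4).pow m |>.const_mul (C.card : ℝ)
    rw [add_zero] at h5
    have e : (C.card : ℝ) * (1 / (Wp w : ℝ)) ^ m = (C.card : ℝ) / (Wp w : ℝ) ^ m := by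
      rw [one_div, inv_pow, div_eq_mul_inv]
    rwa [e] at h5
  refine tendsto_of_tendsto_of_tendsto_of_le_of_le' hlo hup ?_ ?_
  · filter_upwards [eventually_ge_atTop (Wp w), eventually_ge_atTop 1] with x hx hx1
    have hxR : (0 : ℝ) < x := by exact_mod_cast hx1
    have h6 := Pool.Agent.TH293.J3813.cnt_classes (m := m) (Wp w) hW C x hx S hS
    rw [le_div_iff₀ (by positivity)]
    refine le_trans (le_of_eq ?_) h6
    rw [mul_assoc, ← mul_pow]
    congr 2
    field_simp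
  · filter_upwards [eventually_ge_atTop 1] with x hx1
    have hxR : (0 : ℝ) < x := by exact_mod_cast hx1
    have h6 := Pool.Agent.TH111.J3812.cntk_cls w C x
    rw [← hSe] at h6
    rw [div_le_iff₀ (by positivity)]
    refine le_trans h6 (le_of_eq ?_)
    rw [mul_assoc, ← mul_pow]
    congr 2
    field_simp

theorem okk_dens (pr : Bool) {m w : ℕ} (hmw : m + 1 ≤ w) :
    ((okk pr m w).card : ℝ) / (Wp w : ℝ) ^ m = ldk {h : Fin m → ℕ | Admk pr h} := by
  have h := dens_classes (m := m) w (okk pr m w) {h : Fin m → ℕ | Admk pr h} (fun h => adm_iff pr hmw h)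
  exact (h.liminf_eq).symm

lemma sumk_sub_okk (pr : Bool) {m w : ℕ} {B : Finset (ZMod (Wp w))} (hB : B ⊆ AA pr w) :
    sumk m w B ⊆ okk pr m w := by
  classical
  intro t ht
  unfold sumk at ht
  rw [mem_filter] at ht
  obtain ⟨_, a, ha, hg⟩ := ht
  unfold okk
  rw [mem_filter]
  refine ⟨mem_univ _, ?_⟩
  unfold wk
  apply ne_of_gt
  apply div_pos _ (Pool.Agent.TH111.J3812.AA_pos pr w)
  have h1 : 0 < ((AA pr w).filter (fun b => gk t b)).card := card_pos.2 ⟨a, mem_filter.2 ⟨hB ha, hg⟩⟩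
  exact_mod_cast h1

lemma misk_add_sumk (pr : Bool) {m w : ℕ} {B : Finset (ZMod (Wp w))} (hB : B ⊆ AA pr w) :
    ((misk pr m w B).card : ℝ) / (Wp w : ℝ) ^ m =
      ((okk pr m w).card : ℝ) / (Wp w : ℝ) ^ m - ((sumk m w B).card : ℝ) / (Wp w : ℝ) ^ m := by
  classical
  have e1 : (okk pr m w).filter (fun t => t ∈ sumk m w B) = sumk m w B := by
    apply Finset.ext
    intro t
    rw [mem_filter]
    exact ⟨fun h => h.2, fun h => ⟨sumk_sub_okk pr hB h, h⟩⟩
  have e2 : (okk pr m w).filter (fun t => ¬ t ∈ sumk m w B) = misk pr m w B := by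
    apply Finset.ext
    intro t
    rw [mem_filter, mem_okk, mem_sumk', mem_misk']
    constructor
    · rintro ⟨h1, h2⟩
      exact ⟨h1, fun a ha hg => h2 ⟨a, ha, hg⟩⟩
    · rintro ⟨h1, h2⟩
      refine ⟨h1, ?_⟩
      rintro ⟨a, ha, hg⟩
      exact h2 a ha hg
  have h3 : (misk pr m w B).card + (sumk m w B).card = (okk pr m w).card := by
    rw [← card_filter_add_card_filter_not (s := okk pr m w) (fun t => t ∈ sumk m w B), e1, e2, add_comm]
  rw [← sub_div]
  congr 1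
  have h4 : ((misk pr m w B).card : ℝ) + (sumk m w B).card = (okk pr m w).card := by exact_mod_cast h3
  linarith

/-- a near minimiser with a large modulus -/
lemma LFk_near {pr : Bool} {m : ℕ} (hl : StLift pr m) (β : ℝ) (hβ : β ≤ 1) (w0 : ℕ) (ε : ℝ) (hε : 0 < ε) :
    ∃ w : ℕ, w0 ≤ w ∧ ∃ B ⊆ AA pr w, β * (AA pr w).card ≤ B.card ∧
      ((sumk m w B).card : ℝ) / (Wp w : ℝ) ^ m ≤ LFk pr m β + ε := by
  have e1 : LFk pr m β < LFk pr m β + ε := by linarith
  obtain ⟨d1, ⟨w1, B1, hB1, hc1, rfl⟩, hd1⟩ := exists_lt_of_csInf_lt (LFk_ne pr m β hβ) e1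
  obtain ⟨w, hw1, hw2⟩ : ∃ w, w1 ≤ w ∧ w0 ≤ w := ⟨max w1 w0, le_max_left _ _, le_max_right _ _⟩
  obtain ⟨C1, hC1, f1, g1⟩ := hl w1 w hw1 B1 hB1
  refine ⟨w, hw2, C1, hC1, ?_, by linarith⟩
  have hA := Pool.Agent.TH111.J3812.AA_pos pr w
  have hA1 := Pool.Agent.TH111.J3812.AA_pos pr w1
  rw [← le_div_iff₀ hA, f1, le_div_iff₀ hA1]
  exact hc1

/-- continuity of the local minimum -/
lemma LFk_cont {pr : Bool} {m : ℕ} (hm : 1 ≤ m) (hZ : StZeroUpK pr m) (hS : StSub pr m) (β : ℝ) (hβ : 0 < β) (hβ1 : β < 1)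
    (ε : ℝ) (hε : 0 < ε) : ∃ κ : ℝ, 0 < κ ∧ κ < β ∧ LFk pr m β ≤ LFk pr m (β - κ) + ε := by
  obtain ⟨η, hη, hη1, hLη⟩ := LFk_small (pr := pr) hm hZ ε hε
  refine ⟨min (β / 2) (η * (1 - β)), lt_min (by positivity) (mul_pos hη (by linarith)),
    lt_of_le_of_lt (min_le_left _ _) (by linarith), ?_⟩
  set κ := min (β / 2) (η * (1 - β)) with hκd
  have hκ : 0 < κ := lt_min (by positivity) (mul_pos hη (by linarith))
  have hκβ : κ < β := lt_of_le_of_lt (min_le_left _ _) (by linarith)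
  have hκη : κ ≤ η * (1 - β) := min_le_right _ _
  have h2 := hS (β - κ) η (by linarith) (by linarith) hη.le hη1
  have h3 : β ≤ 1 - (1 - (β - κ)) * (1 - η) := by nlinarith
  have h4 : 1 - (1 - (β - κ)) * (1 - η) ≤ 1 := by
    have : 0 ≤ (1 - (β - κ)) * (1 - η) := mul_nonneg (by linarith) (by linarith)
    linarith
  have h5 := LFk_mono (pr := pr) (m := m) h3 h4
  linarith

/-- **the Goldbach form**: the largest density of the lost vectors is given by the same local formula -/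
theorem MDG_eq {pr : Bool} {m : ℕ} (hm : 1 ≤ m) (hU : StUpG pr m) (hL : StLowG pr m) (hZ : StZeroUpK pr m)
    (hl : StLift pr m) (hS : StSub pr m) {δ : ℝ} (hδ : 0 < δ) (hδ1 : δ < 1) :
    MDG pr m δ = ldk {h : Fin m → ℕ | Admk pr h} - LFk pr m (1 - δ) := by
  set adm := ldk {h : Fin m → ℕ | Admk pr h} with hadm
  have hup : ∀ A : Set ℕ, 1 - δ ≤ relq pr A → udk (losG pr m A) ≤ adm - LFk pr m (1 - δ) := by
    intro A hA
    refine le_of_forall_pos_le_add fun ε hε => ?_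
    obtain ⟨κ, hκ, hκβ, hc⟩ := LFk_cont hm hZ hS (1 - δ) (by linarith) (by linarith) ε hε
    have h1 := hU δ κ (adm - LFk pr m (1 - δ - κ)) hδ.le hκ (by linarith) ⟨m + 1, ?_⟩ A hA
    · linarith
    · intro w hw B hB hBc
      rw [misk_add_sumk pr hB, okk_dens pr hw]
      have := LFk_le (m := m) hB hBc
      linarith
  apply le_antisymm
  · unfold MDG
    apply csSup_le
    · exact ⟨_, Set.univ, by rw [Pool.Agent.TH111.J3812.relq_univ]; linarith, rfl⟩
    rintro d ⟨A, hA, rfl⟩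
    exact hup A hA
  · refine le_of_forall_pos_le_add fun ε hε => ?_
    obtain ⟨w, hw, B, hB, hBc, hBs⟩ := LFk_near hl (1 - δ) (by linarith) (m + 1) ε hε
    obtain ⟨A, hA1, hA2⟩ := hL w B hB hw
    have hA3 : 1 - δ ≤ relq pr A := by
      refine le_trans ?_ hA1
      rw [le_div_iff₀ (Pool.Agent.TH111.J3812.AA_pos pr w)]
      exact hBc
    have h1 : udk (losG pr m A) ≤ MDG pr m δ := by
      unfold MDG
      apply le_csSup
      · refine ⟨1, ?_⟩
        rintro d ⟨A', _, rfl⟩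
        exact Pool.Agent.TH111.J3812.udk_le_one _
      · exact ⟨A, hA3, rfl⟩
    rw [misk_add_sumk pr hB, okk_dens pr hw] at hA2
    linarith

end Pool.Agent.TH881.RK
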