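import Mathlib
import Pool.Agent.TH881.RK.DefsG

/-! Goldbach form of the local formula: definition. -/

set_option autoImplicit false

namespace Pool.Agent.TH881.RK

open Finset Filter Topology
open Pool.Agent.TH881
open Pool.Agent.TH881.RG
open Pool.Agent.TH881.RQ

/-- the least lower density of the vectors `h` with all `h j - n` prime for some argument `n` in `A`,
`√(h j) < n < h j / 2`, for sets `A` of arguments of density `β` -/
noncomputable def FFG (pr : Bool) (m : ℕ) (β : ℝ) : ℝ :=
  sInf {d | ∃ A : Set ℕ, β ≤ relq pr A ∧ d = ldk (hitG pr m A)}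

end Pool.Agent.TH881.RK
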