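import Mathlib
import Pool.Agent.TH881.RK.Zero
import Pool.Agent.TH757.J3802
import Pool.Agent.TH921.J3804
import Pool.Agent.TH81.J3805
import Pool.Agent.TH365.J3806
import Pool.Agent.TH484.J3807
import Pool.Agent.TH615.J3808
import Pool.Agent.TH111.J3812

/-! Prime tuples along dense sets of arguments: the law near density one. -/

set_option autoImplicit false

namespace Pool.Agent.TH881.RK

open Finset Filter Topology
open Pool.Agent.TH881
open Pool.Agent.TH881.RG
open Pool.Agent.TH881.RQ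
open Pool.Agent.H373R2.T7

/-- the constant of the law -/
noncomputable def cK (pr : Bool) (m : ℕ) : ℝ := Real.exp (-(m * Real.eulerMascheroniConstant)) * SSk pr m

theorem cK_pos (pr : Bool) (m : ℕ) : 0 < cK pr m :=
  mul_pos (Real.exp_pos _) (Pool.Agent.TH81.J3805.stLim_in pr m).1

theorem stOneK_in (pr : Bool) (m : ℕ) (hm : 1 ≤ m) : StOneK pr m (cK pr m) :=
  Pool.Agent.TH484.J3807.local_one pr m hm (cK pr m) (cK_pos pr m) (Pool.Agent.TH81.J3805.stLim_in pr m).2
    (Pool.Agent.TH757.J3802.stMIk_of stAbs3_in pr m) (Pool.Agent.TH921.J3804.stMBk_in pr m)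
    (Pool.Agent.TH365.J3806.stLBk_in pr m)

theorem stOneUpK_in (pr : Bool) (m : ℕ) (hm : 1 ≤ m) : StOneUpK pr m (cK pr m) :=
  Pool.Agent.TH615.J3808.local_example pr m hm (cK pr m) (cK_pos pr m) (Pool.Agent.TH81.J3805.stLim_in pr m).2

theorem law_one_in (pr : Bool) (m : ℕ) (hm : 1 ≤ m) :
    Tendsto (fun δ : ℝ => δ * Real.log (Real.log (1 / MDk pr m δ)) ^ m) (𝓝[>] 0) (𝓝 (cK pr m)) :=
  Pool.Agent.TH111.J3812.law_one pr m hm (cK pr m) (cK_pos pr m) (stOneK_in pr m hm) (stOneUpK_in pr m hm)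
    (stGlob_in pr m hm) (stUnion_inn pr m hm)

end Pool.Agent.TH881.RK
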