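import Mathlib
import Pool.Agent.TH881.RK.Loc
import Pool.Agent.TH881.RK.One
import Pool.Agent.TH881.RK.AdmD
import Pool.Agent.TH381.J4392
import Pool.Agent.TH240.J4393
import Pool.Agent.TH111.J4394

/-! The exact local formula for prime tuples along dense sets of arguments. -/

set_option autoImplicit false

namespace Pool.Agent.TH881.RK

open Finset Filter Topology
open Pool.Agent.TH881
open Pool.Agent.TH881.RG
open Pool.Agent.TH881.RQ
open Pool.Agent.H373R2.T7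

theorem stSub_in (pr : Bool) (m : ℕ) : StSub pr m := 
  stSub_of (Pool.Agent.TH381.J4392.stLift_in pr m) (Pool.Agent.TH240.J4393.stShift_in pr m)

theorem FFk_loc_in (pr : Bool) (m : ℕ) (hm : 1 ≤ m) (β : ℝ) (hβ : 0 < β) (hβ1 : β < 1) :
    FFk pr m β = LFk pr m β :=
  FFk_eq hm (stGlob_in pr m hm) (stUnion_inn pr m hm) (Pool.Agent.TH698.J3815.local_zero_up pr m hm)
    (stSub_in pr m) hβ hβ1

theorem FFk_sub_in (pr : Bool) (m : ℕ) (hm : 1 ≤ m) (β η : ℝ) (hβ : 0 < β) (hβ1 : β < 1) (hη : 0 < η) (hη1 : η < 1) :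
    FFk pr m (β + η - β * η) ≤ FFk pr m β + FFk pr m η := by
  have h1 : 0 < β + η - β * η := by nlinarith
  have h2 : β + η - β * η < 1 := by nlinarith [mul_pos (sub_pos.2 hβ1) (sub_pos.2 hη1)]
  rw [FFk_loc_in pr m hm _ h1 h2, FFk_loc_in pr m hm β hβ hβ1, FFk_loc_in pr m hm η hη hη1]
  have h3 := stSub_in pr m β η hβ.le hβ1.le hη.le hη1.le
  have e : 1 - (1 - β) * (1 - η) = β + η - β * η := by ring
  rwa [e] at h3

theorem dual_in (pr : Bool) (m : ℕ) (hm : 1 ≤ m) :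
    (Tendsto (fun x : ℕ => (cntk {h : Fin m → ℕ | Admk pr h} x : ℝ) / (x : ℝ) ^ m) atTop
      (𝓝 (ldk {h : Fin m → ℕ | Admk pr h}))) ∧
    ∀ δ : ℝ, 0 ≤ δ → MDk pr m δ = ldk {h : Fin m → ℕ | Admk pr h} - FFk pr m (1 - δ) :=
  Pool.Agent.TH111.J4394.dual_k pr m hm

end Pool.Agent.TH881.RK
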