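import Mathlib
import Pool.Agent.TH881.RK.Mix
import Pool.Agent.TH881.RK.DefsG

/-! Mixing for differences. -/

set_option autoImplicit false

namespace Pool.Agent.TH881.RK

open Finset Filter Topology
open Pool.Agent.TH881
open Pool.Agent.TH881.RG
open Pool.Agent.TH881.RQ
open Pool.Agent.H373R2.T7

/-- pair correlations of the sieve model along a progression -/
lemma pair_corrG (E V : ℕ) : ∃ N0 : ℕ, ∀ N : ℕ, N0 ≤ N → ∀ z : ℕ, 1 ≤ z → (z : ℝ) ≤ Real.log N ^ E →
    ∀ w : ℕ, w ≤ z → ∀ M H t : ℕ, M < t → t ≤ M + Wp w → ∀ b b' : ℕ, b ≤ M → b' ≤ M →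
    ∑ n ∈ It w M H t, lamz z (n - b) * lamz z (n - b') ≤
      ((H : ℝ) / Wp w + 1) * ((Vz w)⁻¹ ^ 2 * gw w z (Nat.dist b b')) +
        ((H : ℝ) / Wp w + 1) / Real.log N ^ V + √(N : ℝ) := by
  obtain ⟨N0, h0⟩ := corr E V
  refine ⟨N0, fun N hN z hz hzE w hwz M H t ht htW b b' hb hb' => ?_⟩
  have hcorr := h0 N hN z hz hzE w hwz
  have hW := Wp_pos w
  set W := Wp w with hWd
  have hWr : (0 : ℝ) < W := by exact_mod_cast hW
  set X := H / W + 1 with hX
  have hXr : (X : ℝ) ≤ (H : ℝ) / W + 1 := by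
    rw [hX]
    push_cast
    have : ((H / W : ℕ) : ℝ) ≤ (H : ℝ) / W := Nat.cast_div_le
    linarith
  have h1 : ∑ n ∈ It w M H t, lamz z (n - b) * lamz z (n - b') ≤
      ∑ m ∈ range X, lamz z (t + W * m - b) * lamz z (t + W * m - b') := by
    have hinj : Set.InjOn (fun m => t + W * m) ((range X : Finset ℕ) : Set ℕ) := by
      intro a _ b _ hab
      simp only at hab
      have : W * a = W * b := by omega
      exact Nat.eq_of_mul_eq_mul_left hW this
    rw [← sum_image (f := fun n => lamz z (n - b) * lamz z (n - b')) hinj]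
    apply sum_le_sum_of_subset_of_nonneg
    · intro n hn
      unfold It at hn
      rw [mem_filter, mem_Ioc] at hn
      obtain ⟨⟨h1, h2⟩, h3⟩ := hn
      have h4 : t ≤ n := by
        by_contra hcon
        have h5 : n < t := by omega
        have h6 := (Nat.modEq_iff_dvd' h5.le).1 h3
        have := Nat.le_of_dvd (by omega) h6
        omega
      have h5 := (Nat.modEq_iff_dvd' h4).1 h3.symm
      obtain ⟨m, hm⟩ := h5
      rw [← hWd] at hm
      rw [mem_image]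
      refine ⟨m, ?_, by omega⟩
      rw [mem_range, hX]
      have h6 : W * m ≤ H := by omega
      have h7 : m ≤ H / W := (Nat.le_div_iff_mul_le hW).2 (by rw [mul_comm]; exact h6)
      omega
    · intro n _ _
      exact mul_nonneg (lamz_nonneg z _) (lamz_nonneg z _)
  refine h1.trans ?_
  have h2 : ∑ m ∈ range X, lamz z (t + W * m - b) * lamz z (t + W * m - b') ≤
      X * ((Vz w)⁻¹ ^ 2 * gw w z (Nat.dist b b')) + X / Real.log N ^ V + √(N : ℝ) := by
    rcases le_total b b' with h | h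
    · have h3 := hcorr X (t - b') (b' - b)
      have e1 : Nat.dist b b' = b' - b := by simp only [Nat.dist]; omega
      rw [e1]
      refine le_trans (le_of_eq ?_) h3
      apply sum_congr rfl
      intro m _
      rw [mul_comm]
      congr 2
      · omega
      · omega
    · have h3 := hcorr X (t - b) (b - b')
      have e1 : Nat.dist b b' = b - b' := by simp only [Nat.dist]; omega
      rw [e1]
      refine le_trans (le_of_eq ?_) h3
      apply sum_congr rfl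
      intro m _
      congr 2
      · omega
      · omega
  refine h2.trans ?_
  have hV0 : 0 < (Vz w)⁻¹ := inv_pos.2 (Vz_pos w)
  have hg := one_le_gw w z (Nat.dist b b')
  have hL : 0 ≤ Real.log N ^ V := pow_nonneg (Real.log_natCast_nonneg N) V
  gcongr

/-- the first moment along a progression -/
lemma first_oneG (E V : ℕ) : ∃ N0 : ℕ, ∀ N : ℕ, N0 ≤ N → ∀ z : ℕ, 1 ≤ z → (z : ℝ) ≤ Real.log N ^ E →
    ∀ w : ℕ, Wp w ≤ z → ∀ M H t b : ℕ, M < t → M + H ≤ N → b ≤ M → (t - b).Coprime (Wp w) →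
    (Vz w)⁻¹ * (H / Wp w) - 2 * (N / Real.log N ^ V) ≤ ∑ n ∈ It w M H t, lamz z (n - b) := by
  obtain ⟨N0, h0⟩ := first_moment E V
  refine ⟨N0, fun N hN z hz hzE w hWz M H t b ht hMH hb hcop => ?_⟩
  have h1 := h0 N hN z hz hzE w hWz M H t ht hMH {b} (by
    intro x hx
    rw [mem_singleton] at hx
    omega) (by
    intro x hx
    rw [mem_singleton] at hx
    rw [hx]
    exact hcop)
  rw [card_singleton, Nat.cast_one, one_mul] at h1
  refine h1.trans (le_of_eq ?_)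
  apply sum_congr rfl
  intro n hn
  rw [mem_It] at hn
  unfold cv
  rw [filter_true_of_mem, sum_singleton]
  intro x hx
  rw [mem_singleton] at hx
  omega

open Classical in
/-- the second moment -/
lemma second_kG (m : ℕ) (w z : ℕ) (I : Fin m → Finset ℕ) (F : ℕ → ℕ → ℝ) (hF : ∀ b n, 0 ≤ F b n) (K : Finset ℕ) (A D Γ : ℝ)
    (hA0 : 0 ≤ A)
    (hoff : ∀ j, ∀ b ∈ K, ∀ b' ∈ K.erase b, ∑ n ∈ I j, F b n * F b' n ≤ A * gw w z (Nat.dist b b'))
    (hdiag : ∀ j, ∀ b ∈ K, ∑ n ∈ I j, F b n * F b n ≤ D)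
    (hΓ : ∀ b ∈ K, ∑ b' ∈ K.erase b, gw w z (Nat.dist b b') ^ m ≤ K.card * Γ) :
    ∑ N ∈ Fintype.piFinset I, (∑ b ∈ K, ∏ j, F b (N j)) ^ 2 ≤
      (K.card : ℝ) ^ 2 * Γ * A ^ m + K.card * D ^ m := by
  have h1 : ∀ N : Fin m → ℕ, (∑ b ∈ K, ∏ j, F b (N j)) ^ 2 =
      ∑ b ∈ K, (∏ j, (F b (N j) * F b (N j)) + ∑ b' ∈ K.erase b, ∏ j, (F b (N j) * F b' (N j))) := by
    intro N
    rw [sq, sum_mul_sum]
    apply sum_congr rfl
    intro b hb
    rw [← add_sum_erase K _ hb]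
    rw [prod_mul_distrib]
    congr 1
    apply sum_congr rfl
    intro b' _
    rw [prod_mul_distrib]
  rw [sum_congr rfl fun N _ => h1 N, sum_comm]
  have h2 : ∀ b ∈ K, ∑ N ∈ Fintype.piFinset I,
      (∏ j, (F b (N j) * F b (N j)) + ∑ b' ∈ K.erase b, ∏ j, (F b (N j) * F b' (N j))) ≤
        D ^ m + A ^ m * (K.card * Γ) := by
    intro b hb
    rw [sum_add_distrib, sum_comm]
    apply add_le_add
    · rw [← prod_univ_sum I (fun _ n => F b n * F b n)]
      calc ∏ j, ∑ n ∈ I j, F b n * F b n ≤ ∏ _j : Fin m, D := by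
            apply Finset.prod_le_prod
            · intro j _
              exact sum_nonneg fun n _ => mul_nonneg (hF _ _) (hF _ _)
            · intro j _
              exact hdiag j b hb
        _ = D ^ m := by rw [prod_const, card_univ, Fintype.card_fin]
    · calc ∑ b' ∈ K.erase b, ∑ N ∈ Fintype.piFinset I, ∏ j, (F b (N j) * F b' (N j)) ≤
            ∑ b' ∈ K.erase b, A ^ m * gw w z (Nat.dist b b') ^ m := by
            apply sum_le_sum
            intro b' hb'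
            rw [← prod_univ_sum I (fun _ n => F b n * F b' n), ← mul_pow]
            calc ∏ j, ∑ n ∈ I j, F b n * F b' n ≤ ∏ _j : Fin m, (A * gw w z (Nat.dist b b')) := by
                  apply Finset.prod_le_prod
                  · intro j _
                    exact sum_nonneg fun n _ => mul_nonneg (hF _ _) (hF _ _)
                  · intro j _
                    exact hoff j b hb b' hb'
              _ = _ := by rw [prod_const, card_univ, Fintype.card_fin]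
        _ = A ^ m * ∑ b' ∈ K.erase b, gw w z (Nat.dist b b') ^ m := by rw [mul_sum]
        _ ≤ _ := mul_le_mul_of_nonneg_left (hΓ b hb) (pow_nonneg hA0 m)
  refine (sum_le_sum h2).trans (le_of_eq ?_)
  rw [sum_const, nsmul_eq_mul]
  ring

open Classical in
/-- the first moment -/
lemma first_kG (m : ℕ) (I : Fin m → Finset ℕ) (F : ℕ → ℕ → ℝ) (K : Finset ℕ) (a : ℝ) (ha : 0 ≤ a)
    (h : ∀ j, ∀ b ∈ K, a ≤ ∑ n ∈ I j, F b n) :
    (K.card : ℝ) * a ^ m ≤ ∑ N ∈ Fintype.piFinset I, ∑ b ∈ K, ∏ j, F b (N j) := by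
  rw [sum_comm]
  calc (K.card : ℝ) * a ^ m = ∑ _b ∈ K, a ^ m := by rw [sum_const, nsmul_eq_mul]
    _ ≤ _ := by
        apply sum_le_sum
        intro b hb
        rw [← prod_univ_sum I (fun _ n => F b n)]
        calc a ^ m = ∏ _j : Fin m, a := by rw [prod_const, card_univ, Fintype.card_fin]
          _ ≤ _ := Finset.prod_le_prod (fun _ _ => ha) (fun j _ => h j b hb)

/-- largeness conditions -/
lemma numkG (m B0 w W G : ℕ) (hW : 1 ≤ W) (hG : 1 ≤ G) (κ ε ε1 ρ : ℝ) (hκ : 0 < κ) (hρ : 0 < ρ)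
    (hε1 : 0 < ε1) : ∃ X0 : ℕ, ∀ X : ℕ, X0 ≤ X →
    4 ≤ Real.log X ∧ (W : ℝ) ≤ Real.log X ∧ (w : ℝ) ≤ Real.log X ∧
    2 * G * (W : ℝ) ^ 2 / (ε1 * ρ) ^ 2 ≤ X ∧
    4 * G * (W : ℝ) / (ε1 * ρ) ≤ Real.log X ∧ 2 / ε1 ≤ Real.log X ∧
    (2 * Real.log X ^ (2 * (B0 + 2))) ^ m ≤ ε1 * (κ * ((X : ℝ) / (W * Real.log X))) ∧
    2 * (W : ℝ) ^ (m + 1) / (ε * κ * ρ ^ m) ≤ Real.log X := by
  have hlim : Tendsto (fun N : ℕ => Real.log (N : ℝ)) atTop atTop :=
    Real.tendsto_log_atTop.comp (tendsto_natCast_atTop_atTop (R := ℝ))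
  obtain ⟨X1, h1⟩ := numk m B0 w W hW κ 1 ε1 hκ hε1
  obtain ⟨X0, h0⟩ := eventually_atTop.1 (((tendsto_natCast_atTop_atTop (R := ℝ)).eventually_ge_atTop
      (2 * G * (W : ℝ) ^ 2 / (ε1 * ρ) ^ 2)).and ((hlim.eventually_ge_atTop (4 * G * (W : ℝ) / (ε1 * ρ))).and
      (hlim.eventually_ge_atTop (2 * (W : ℝ) ^ (m + 1) / (ε * κ * ρ ^ m)))))
  refine ⟨max X1 X0, fun X hX => ?_⟩
  obtain ⟨a1, a2, a3, a4, a5, a6, a7, a8⟩ := h1 X (le_trans (le_max_left _ _) hX)
  obtain ⟨b1, b2, b3⟩ := h0 X (le_trans (le_max_right _ _) hX)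
  exact ⟨a1, a2, a3, b1, b2, a6, a7, b3⟩

/-- **Mixing.** -/
theorem stMixG_of (pr : Bool) (m : ℕ) (hPM : StPMq pr (Polynomial.X))
    (hA : ∀ G U : ℕ, 1 ≤ G → ∃ B0 : ℕ, ∀ E : ℕ, ∃ X0 : ℕ, ∀ X : ℕ, X0 ≤ X → ∀ z : ℕ,
      Real.log X ^ B0 ≤ z → (z : ℝ) ≤ Real.log X ^ E → ∀ K : Finset ℕ, K ⊆ Icc 1 X →
      ∑ N ∈ Fintype.piFinset (fun _ : Fin m => Ioc X (G * X)),
        |∑ n ∈ K, (∏ j, lp (N j - n) - ∏ j, lamz z (N j - n))| ≤ (X : ℝ) ^ m * X / Real.log X ^ U) :
    StMixG pr m := by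
  classical
  intro G κ ε ρ hG hκ hε hε1 hρ
  obtain ⟨ε1, he0, he16, hsmall⟩ := exists_small m ((ε / 2) ^ 2) (by positivity)
  obtain ⟨J, hJ, hJ2⟩ := root_close (100 / κ) ε1 (by positivity) he0
  obtain ⟨B0, hsup⟩ := hA G 2 hG
  obtain ⟨m1, hsup⟩ := hsup (B0 + 2)
  obtain ⟨m2, hsec⟩ := pair_corrG (B0 + 2) 2
  obtain ⟨m3, hfir⟩ := first_oneG (B0 + 2) 2
  obtain ⟨w0, havg⟩ := avg_pow pr hPM m J (B0 + 2) hJ
  refine ⟨w0, fun w hw => ?_⟩
  obtain ⟨m5, havg⟩ := havg w hw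
  obtain ⟨m4, hnum⟩ := numkG m B0 w (Wp w) G (Wp_pos w) hG κ ε ε1 ρ hκ hρ he0
  refine ⟨max (max m1 m2) (max (max m3 m5) (max m4 3)), ?_⟩
  intro X hX M t H hMt hHX K hK hcls hcop hcard E hE
  simp only [max_le_iff] at hX
  obtain ⟨⟨hm1, hm2⟩, ⟨hm3, hm5⟩, ⟨hm4, hX3⟩⟩ := hX
  obtain ⟨a1, a2, a3, a4, a5, a6, a7, a8⟩ := hnum X hm4
  obtain ⟨L, hL⟩ : ∃ L : ℝ, L = Real.log X := ⟨_, rfl⟩
  rw [← hL] at a1 a2 a3 a5 a6 a7 a8
  have hL0 : 0 < L := by linarith
  have hL1 : 1 ≤ L := by linarith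
  have hXr : (3 : ℝ) ≤ X := by exact_mod_cast hX3
  have hX0 : (0 : ℝ) < X := by linarith
  have hW : (0 : ℝ) < Wp w := by exact_mod_cast Wp_pos w
  have hW1 : (1 : ℝ) ≤ Wp w := by exact_mod_cast Wp_pos w
  have hGr : (1 : ℝ) ≤ G := by exact_mod_cast hG
  obtain ⟨h, hh⟩ : ∃ h : ℝ, h = (H : ℝ) / Wp w := ⟨_, rfl⟩
  have hh0 : ρ * (X : ℝ) / Wp w ≤ h := by
    rw [hh]
    exact div_le_div_of_nonneg_right hHX hW.le
  have hhpos : 0 < h := lt_of_lt_of_le (by positivity) hh0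
  obtain ⟨v, hv⟩ : ∃ v : ℝ, v = (Vz w)⁻¹ := ⟨_, rfl⟩
  have hv1 : 1 ≤ v := by rw [hv]; exact (one_le_inv₀ (Vz_pos w)).2 (Vz_le_one w)
  have hv0 : 0 < v := by linarith
  -- sizes
  obtain ⟨NN, hNN⟩ : ∃ N : ℕ, N = 2 * G * X := ⟨_, rfl⟩
  have hXNN : X ≤ NN := by
    rw [hNN]
    calc X = 1 * X := (one_mul _).symm
      _ ≤ 2 * G * X := Nat.mul_le_mul_right _ (by omega)
  have hNNr : (NN : ℝ) = 2 * G * X := by rw [hNN]; push_cast; ring
  have hlog : L ≤ Real.log NN := by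
    rw [hL]
    exact Real.log_le_log hX0 (by exact_mod_cast hXNN)
  have hLV0 : 0 < Real.log NN ^ 2 := by
    have : 0 < Real.log NN := by linarith
    positivity
  have hLVL : L ≤ Real.log NN ^ 2 := by nlinarith
  -- the cardinality of K
  have hpp := ppq_ge pr w X (by rw [← hL]; exact hL1)
  rw [← hL] at hpp
  have hKc : κ * ((X : ℝ) / (Wp w * L)) ≤ K.card := (mul_le_mul_of_nonneg_left hpp hκ.le).trans hcard
  have hKr : (0 : ℝ) < K.card := lt_of_lt_of_le (by positivity) hKc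
  -- level
  obtain ⟨z, hz⟩ : ∃ z : ℕ, z = ⌈L ^ (B0 + 1)⌉₊ := ⟨_, rfl⟩
  have hz1 : L ^ (B0 + 1) ≤ z := by rw [hz]; exact Nat.le_ceil _
  have hLB : L ≤ L ^ (B0 + 1) := by
    calc L = L ^ 1 := (pow_one L).symm
      _ ≤ L ^ (B0 + 1) := pow_le_pow_right₀ hL1 (by omega)
  have hz2 : (z : ℝ) ≤ L ^ (B0 + 2) := by
    have h1 : (z : ℝ) ≤ L ^ (B0 + 1) + 1 := by
      rw [hz]
      exact (Nat.ceil_lt_add_one (by positivity)).le
    have h2 : L ^ (B0 + 2) = L ^ (B0 + 1) * L := pow_succ _ _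
    have h3 : L ^ (B0 + 1) * 4 ≤ L ^ (B0 + 1) * L := mul_le_mul_of_nonneg_left a1 (by positivity)
    rw [h2]
    linarith
  have hz0 : L ^ B0 ≤ z := (pow_le_pow_right₀ hL1 (by omega)).trans hz1
  have hz1' : 1 ≤ z := by
    have : (1 : ℝ) ≤ z := by linarith
    exact_mod_cast this
  have hWz : Wp w ≤ z := by
    have : (Wp w : ℝ) ≤ z := by linarith
    exact_mod_cast this
  have hwz : w ≤ z := by
    have : (w : ℝ) ≤ z := by linarith
    exact_mod_cast this
  have hzNN : (z : ℝ) ≤ Real.log NN ^ (B0 + 2) := hz2.trans (pow_le_pow_left₀ hL0.le hlog _)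
  have hbM : ∀ n ∈ K, ∀ j, n ≤ M j := fun n hn j => (hK n hn).2.2.trans (hMt j).1
  -- numerical conditions
  have hq1 : √(NN : ℝ) ≤ ε1 * h := by
    apply Real.sqrt_le_iff.2
    refine ⟨by positivity, ?_⟩
    have h1 : ε1 * (ρ * (X : ℝ) / Wp w) ≤ ε1 * h := mul_le_mul_of_nonneg_left hh0 he0.le
    refine le_trans ?_ (pow_le_pow_left₀ (by positivity) h1 2)
    rw [hNNr]
    rw [div_le_iff₀ (by positivity)] at a4
    have h2 : ε1 * (ρ * (X : ℝ) / Wp w) = (ε1 * ρ) * (X : ℝ) / Wp w := by ring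
    rw [h2, div_pow, le_div_iff₀ (by positivity)]
    calc 2 * (G : ℝ) * (X : ℝ) * (Wp w : ℝ) ^ 2 = (2 * G * (Wp w : ℝ) ^ 2) * X := by ring
      _ ≤ (X * (ε1 * ρ) ^ 2) * X := mul_le_mul_of_nonneg_right a4 hX0.le
      _ = _ := by ring
  have hNN1 : (1 : ℝ) ≤ √(NN : ℝ) := by
    rw [Real.one_le_sqrt]
    have : (X : ℝ) ≤ NN := by exact_mod_cast hXNN
    linarith
  have hq2 : 1 ≤ ε1 * h := hNN1.trans hq1
  have hq3 : 2 * ((NN : ℝ) / Real.log NN ^ 2) ≤ ε1 * h := by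
    have h1 : ε1 * (ρ * (X : ℝ) / Wp w) ≤ ε1 * h := mul_le_mul_of_nonneg_left hh0 he0.le
    refine le_trans ?_ h1
    rw [div_le_iff₀ (by positivity)] at a5
    rw [← mul_div_assoc, div_le_iff₀ hLV0]
    have h2 : 4 * (G : ℝ) * Wp w ≤ (ε1 * ρ) * Real.log NN ^ 2 := by
      calc 4 * (G : ℝ) * Wp w ≤ L * (ε1 * ρ) := a5
        _ = (ε1 * ρ) * L := by ring
        _ ≤ _ := mul_le_mul_of_nonneg_left hLVL (by positivity)
    have e0 : (Wp w : ℝ) * ((X : ℝ) / Wp w) = X := by field_simp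
    calc 2 * (NN : ℝ) = 4 * (G : ℝ) * ((Wp w : ℝ) * ((X : ℝ) / Wp w)) := by rw [e0, hNNr]; ring
      _ = (4 * (G : ℝ) * Wp w) * ((X : ℝ) / Wp w) := by ring
      _ ≤ ((ε1 * ρ) * Real.log NN ^ 2) * ((X : ℝ) / Wp w) := mul_le_mul_of_nonneg_right h2 (by positivity)
      _ = _ := by ring
  have hh1 : 1 ≤ h := by
    have : ε1 * h ≤ 1 * h := mul_le_mul_of_nonneg_right (by linarith) hhpos.le
    linarith
  have hq4 : (h + 1) / Real.log NN ^ 2 ≤ ε1 * h := by
    rw [div_le_iff₀ hLV0]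
    rw [div_le_iff₀ he0] at a6
    calc h + 1 ≤ h * 2 := by linarith
      _ ≤ h * (L * ε1) := mul_le_mul_of_nonneg_left a6 hhpos.le
      _ = ε1 * h * L := by ring
      _ ≤ _ := mul_le_mul_of_nonneg_left hLVL (by positivity)
  have hq5 : (2 * (z : ℝ) ^ 2) ^ m ≤ ε1 * K.card := by
    calc (2 * (z : ℝ) ^ 2) ^ m ≤ (2 * (L ^ (B0 + 2)) ^ 2) ^ m := by
          apply pow_le_pow_left₀ (by positivity)
          apply mul_le_mul_of_nonneg_left _ (by norm_num)
          exact pow_le_pow_left₀ (Nat.cast_nonneg z) hz2 2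
      _ = (2 * L ^ (2 * (B0 + 2))) ^ m := by rw [← pow_mul]; congr 3; ring
      _ ≤ ε1 * (κ * ((X : ℝ) / (Wp w * L))) := a7
      _ ≤ _ := mul_le_mul_of_nonneg_left hKc he0.le
  -- second moment
  have hS2 := second_kG m w z (fun j => It w (M j) H (t j)) (fun b n => lamz z (n - b)) (fun b n => lamz_nonneg z _) K
    ((1 + 3 * ε1) * (h * v ^ 2)) (2 * h * (z : ℝ) ^ 2) (1 + ε1)
    (by positivity)
    (by
      intro j b hb b' hb'
      have h1 := hsec NN (by omega) z hz1' hzNN w hwz (M j) H (t j) (hMt j).2.2.1 (hMt j).2.2.2 b b'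
        (hbM b hb j) (hbM b' (mem_of_mem_erase hb') j)
      rw [← hh, ← hv] at h1
      have hg := one_le_gw w z (Nat.dist b b')
      have h2 : (h + 1) * (v ^ 2 * gw w z (Nat.dist b b')) ≤ (1 + ε1) * h * (v ^ 2 * gw w z (Nat.dist b b')) := by
        apply mul_le_mul_of_nonneg_right _ (by positivity)
        linarith
      have h3 : 2 * (ε1 * h) ≤ 2 * (ε1 * h) * (v ^ 2 * gw w z (Nat.dist b b')) := by
        apply le_mul_of_one_le_right (by positivity)
        have : 1 ≤ v ^ 2 := one_le_pow₀ hv1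
        nlinarith
      calc _ ≤ _ := h1
        _ ≤ (1 + ε1) * h * (v ^ 2 * gw w z (Nat.dist b b')) + 2 * (ε1 * h) := by linarith
        _ ≤ (1 + ε1) * h * (v ^ 2 * gw w z (Nat.dist b b')) + 2 * (ε1 * h) * (v ^ 2 * gw w z (Nat.dist b b')) := by
            linarith
        _ = _ := by ring)
    (by
      intro j b _
      have hc := card_It_le w (M j) H (t j) (hMt j).2.2.1 (hMt j).2.2.2
      rw [← hh] at hc
      calc ∑ n ∈ It w (M j) H (t j), lamz z (n - b) * lamz z (n - b) ≤ ∑ _n ∈ It w (M j) H (t j), (z : ℝ) * z := by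
            apply sum_le_sum
            intro n _
            exact mul_le_mul (lamz_le z hz1' _) (lamz_le z hz1' _) (lamz_nonneg z _) (Nat.cast_nonneg z)
        _ = ((It w (M j) H (t j)).card : ℝ) * (z * z) := by rw [sum_const, nsmul_eq_mul]
        _ ≤ (2 * h) * (z * z) := by
            apply mul_le_mul_of_nonneg_right _ (by positivity)
            linarith
        _ = _ := by ring)
    (by
      intro b hb
      exact (havg X hm5 z (by rw [← hL]; exact hz2) K hK hcls κ hκ hcard b hb).trans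
        (mul_le_mul_of_nonneg_left hJ2 (Nat.cast_nonneg _)))
  -- first moment
  have hS1 := first_kG m (fun j => It w (M j) H (t j)) (fun b n => lamz z (n - b)) K ((1 - ε1) * (h * v)) (by
      apply mul_nonneg (by linarith) (by positivity))
    (by
      intro j b hb
      have hcj : (t j - b).Coprime (Wp w) := by
        rw [← ZMod.isUnit_iff_coprime, Nat.cast_sub ((hbM b hb j).trans (hMt j).2.2.1.le)]
        have := hcop b hb j
        rw [sub_eq_add_neg]
        exact this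
      have hmh : M j + H ≤ NN := by
        refine (hMt j).2.1.trans ?_
        rw [hNN]
        exact Nat.mul_le_mul_right _ (by omega)
      have h1 := hfir NN (by omega) z hz1' hzNN w hWz (M j) H (t j) b (hMt j).2.2.1 hmh (hbM b hb j) hcj
      rw [← hh, ← hv] at h1
      refine le_trans ?_ h1
      have h2 : ε1 * h ≤ ε1 * h * v := le_mul_of_one_le_right (by positivity) hv1
      have h3 : (1 - ε1) * (h * v) = v * h - ε1 * h * v := by ring
      rw [h3]
      linarith)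
  obtain ⟨f, hf⟩ : ∃ f : (Fin m → ℕ) → ℝ, f = fun N => ∑ n ∈ K, ∏ j, lamz z (N j - n) := ⟨_, rfl⟩
  have hIc : (((Fintype.piFinset (fun j => It w (M j) H (t j))).card : ℕ) : ℝ) ≤ (1 + ε1) ^ m * h ^ m := by
    rw [Fintype.card_piFinset, Nat.cast_prod, ← mul_pow]
    calc ∏ j, ((It w (M j) H (t j)).card : ℝ) ≤ ∏ _j : Fin m, ((1 + ε1) * h) := by
          apply Finset.prod_le_prod
          · intro j _
            positivity
          · intro j _
            have hc := card_It_le w (M j) H (t j) (hMt j).2.2.1 (hMt j).2.2.2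
            rw [← hh] at hc
            linarith
      _ = _ := by rw [prod_const, card_univ, Fintype.card_fin]
  have hvar := var_k (Fintype.piFinset (fun j => It w (M j) H (t j))) E hE f (v ^ m * K.card) ((1 - ε1) ^ m)
    ((1 + ε1) * (1 + 3 * ε1) ^ m + ε1) ((1 + ε1) ^ m) (h ^ m) (ε / 2) (by positivity) (by positivity)
    (by positivity) hIc
    (by
      rw [hf]
      refine le_trans (le_of_eq ?_) hS1
      rw [mul_pow, mul_pow]
      ring)
    (by
      rw [hf]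
      refine hS2.trans ?_
      have h1 : (K.card : ℝ) * (2 * h * (z : ℝ) ^ 2) ^ m ≤ ε1 * ((v ^ m * K.card) ^ 2 * h ^ m) := by
        calc (K.card : ℝ) * (2 * h * (z : ℝ) ^ 2) ^ m = K.card * h ^ m * (2 * (z : ℝ) ^ 2) ^ m := by
              rw [show 2 * h * (z : ℝ) ^ 2 = h * (2 * (z : ℝ) ^ 2) by ring, mul_pow]
              ring
          _ ≤ K.card * h ^ m * (ε1 * K.card) := mul_le_mul_of_nonneg_left hq5 (by positivity)
          _ = ε1 * ((1 * (K.card : ℝ)) ^ 2 * h ^ m) := by ring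
          _ ≤ _ := by
              apply mul_le_mul_of_nonneg_left _ he0.le
              apply mul_le_mul_of_nonneg_right _ (by positivity)
              apply pow_le_pow_left₀ (by positivity)
              exact mul_le_mul_of_nonneg_right (one_le_pow₀ hv1) hKr.le
      have h2 : (K.card : ℝ) ^ 2 * (1 + ε1) * ((1 + 3 * ε1) * (h * v ^ 2)) ^ m =
          (1 + ε1) * (1 + 3 * ε1) ^ m * ((v ^ m * K.card) ^ 2 * h ^ m) := by
        rw [mul_pow, mul_pow, mul_pow, ← pow_mul, ← pow_mul]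
        ring
      rw [h2]
      linarith)
    (by
      refine le_trans (le_of_eq ?_) hsmall
      ring) (by positivity)
  -- the other part
  have hEI : E ⊆ Fintype.piFinset (fun _ : Fin m => Ioc X (G * X)) := by
    refine hE.trans ?_
    intro N hN
    rw [Fintype.mem_piFinset] at hN ⊢
    intro j
    have h1 := mem_It.1 (hN j)
    rw [mem_Ioc]
    have h2 := hMt j
    omega
  have hbil := hsup X hm1 z (by rw [← hL]; exact hz0) (by rw [← hL]; exact hz2) K (by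
      intro n hn
      have h1 := hK n hn
      rw [mem_Icc]
      refine ⟨?_, h1.2.2⟩
      have h2 : (0 : ℝ) < n := lt_of_le_of_lt (Real.sqrt_nonneg _) h1.2.1
      exact_mod_cast h2)
  rw [← hL] at hbil
  have e1 : |∑ N ∈ E, ∑ n ∈ K, ∏ j, lp (N j - n) - ∑ N ∈ E, f N| ≤ (X : ℝ) ^ m * X / L ^ 2 := by
    rw [← sum_sub_distrib, hf]
    refine le_trans (abs_sum_le_sum_abs _ _) (le_trans ?_ hbil)
    refine le_trans (le_of_eq ?_) (sum_le_sum_of_subset_of_nonneg hEI fun _ _ _ => abs_nonneg _)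
    apply sum_congr rfl
    intro N hN
    rw [← sum_sub_distrib]
  have e2 : (X : ℝ) ^ m * X / L ^ 2 ≤ (ε / 2) * (h ^ m * (v ^ m * K.card)) := by
    have h1 : (ρ * (X : ℝ) / Wp w) ^ m * (κ * ((X : ℝ) / (Wp w * L))) ≤ h ^ m * (v ^ m * K.card) := by
      apply mul_le_mul (pow_le_pow_left₀ (by positivity) hh0 m)
        (hKc.trans (le_mul_of_one_le_left hKr.le (one_le_pow₀ hv1))) (by positivity) (by positivity)
    refine le_trans ?_ (mul_le_mul_of_nonneg_left h1 (by positivity))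
    rw [div_le_iff₀ (by positivity)] at a8
    rw [div_le_iff₀ (by positivity)]
    have h2 : ε / 2 * ((ρ * (X : ℝ) / Wp w) ^ m * (κ * ((X : ℝ) / (Wp w * L)))) * L ^ 2 =
        (L * (ε * κ * ρ ^ m)) * ((X : ℝ) ^ m * X) / (2 * (Wp w : ℝ) ^ (m + 1)) := by
      rw [div_pow, mul_pow, pow_succ]
      field_simp
      exact pow_succ _ _
    rw [h2, le_div_iff₀ (by positivity)]
    calc (X : ℝ) ^ m * X * (2 * (Wp w : ℝ) ^ (m + 1)) = (2 * (Wp w : ℝ) ^ (m + 1)) * ((X : ℝ) ^ m * X) := by ring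
      _ ≤ _ := mul_le_mul_of_nonneg_right a8 (by positivity)
  rw [← hh, ← hv]
  have e3 := abs_le.1 (e1.trans e2)
  have e4 := abs_le.1 hvar
  rw [abs_le]
  constructor
  · linarith [e3.1, e4.1]
  · linarith [e3.2, e4.2]

end Pool.Agent.TH881.RK
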