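import Mathlib
import Pool.Agent.TH881.RK.LocIn
import Pool.Agent.TH881.RK.MixG
import Pool.Agent.TH881.RK.DefsGL
import Pool.Agent.TH989.J4026
import Pool.Agent.TH9.J4027
import Pool.Agent.TH429.J4028
import Pool.Agent.TH475.J4455

/-! Several even numbers with a common prime of a dense set in their Goldbach partitions: the
extremal functions are the same as for prime tuples. -/

set_option autoImplicit false

namespace Pool.Agent.TH881.RK

open Finset Filter Topology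
open Pool.Agent.TH881
open Pool.Agent.TH881.RG
open Pool.Agent.TH881.RQ
open Pool.Agent.H373R2.T7

theorem stMixG_in (pr : Bool) (m : ℕ) : StMixG pr m :=
  stMixG_of pr m (stPMq_in pr Polynomial.X (by rw [Polynomial.natDegree_X]) (by rw [Polynomial.leadingCoeff_X]; exact one_pos))
    (fun G U hG => Pool.Agent.TH989.J4026.mixAG m G U hG)

theorem stUpG_in (pr : Bool) (m : ℕ) (hm : 1 ≤ m) : StUpG pr m :=
  Pool.Agent.TH9.J4027.stUpG_of pr m hm (stMixG_in pr m)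

theorem stLowG_inn (pr : Bool) (m : ℕ) (hm : 1 ≤ m) : StLowG pr m :=
  Pool.Agent.TH881.RK.stLowG_in stPC pr m hm

theorem MDG_loc_in (pr : Bool) (m : ℕ) (hm : 1 ≤ m) (δ : ℝ) (hδ : 0 < δ) (hδ1 : δ < 1) :
    MDG pr m δ = ldk {h : Fin m → ℕ | Admk pr h} - LFk pr m (1 - δ) :=
  MDG_eq hm (stUpG_in pr m hm) (stLowG_inn pr m hm) (Pool.Agent.TH698.J3815.local_zero_up pr m hm)
    (Pool.Agent.TH381.J4392.stLift_in pr m) (stSub_in pr m) hδ hδ1

theorem MDG_eq_MDk (pr : Bool) (m : ℕ) (hm : 1 ≤ m) (δ : ℝ) (hδ : 0 < δ) (hδ1 : δ < 1) :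
    MDG pr m δ = MDk pr m δ := by
  rw [MDG_loc_in pr m hm δ hδ hδ1, (dual_in pr m hm).2 δ hδ.le,
    FFk_loc_in pr m hm (1 - δ) (by linarith) (by linarith)]

theorem FFG_eq_FFk (pr : Bool) (m : ℕ) (hm : 1 ≤ m) (β : ℝ) (hβ : 0 < β) (hβ1 : β < 1) :
    FFG pr m β = FFk pr m β := by
  have h1 := (Pool.Agent.TH475.J4455.dual_G pr m hm).2 (1 - β) (by linarith)
  have h2 := MDG_loc_in pr m hm (1 - β) (by linarith) (by linarith)
  have h3 := FFk_loc_in pr m hm β hβ hβ1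
  rw [sub_sub_cancel] at h1 h2
  linarith

theorem lawG_zero_in (pr : Bool) (m : ℕ) (hm : 1 ≤ m) :
    Tendsto (fun β : ℝ => Real.log (Real.log (1 / β)) ^ m * FFG pr m β) (𝓝[>] 0)
      (𝓝 (Real.exp (-(m * Real.eulerMascheroniConstant)))) := by
  refine (law_zero_in pr m hm).congr' ?_
  filter_upwards [Ioo_mem_nhdsGT (zero_lt_one' ℝ)] with β hβ
  rw [FFG_eq_FFk pr m hm β hβ.1 hβ.2]

theorem lawG_one_in (pr : Bool) (m : ℕ) (hm : 1 ≤ m) :
    Tendsto (fun δ : ℝ => δ * Real.log (Real.log (1 / MDG pr m δ)) ^ m) (𝓝[>] 0) (𝓝 (cK pr m)) := by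
  refine (law_one_in pr m hm).congr' ?_
  filter_upwards [Ioo_mem_nhdsGT (zero_lt_one' ℝ)] with δ hδ
  rw [MDG_eq_MDk pr m hm δ hδ.1 hδ.2]

end Pool.Agent.TH881.RK
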