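import Mathlib
import Pool.Agent.TH881.RK.AdmD

/-! A sharp explicit lower bound for the local minimum (half of the primes realise more than half of
the admissible patterns): definitions. -/

set_option autoImplicit false

namespace Pool.Agent.TH881.RK

open Finset Filter Topology
open Pool.Agent.TH881
open Pool.Agent.TH881.RG
open Pool.Agent.TH881.RQ
open Pool.Agent.H373R2.T7

/-- the exponent `log_2 (2 - 2 ^ (-m))` -/
noncomputable def alp (m : ℕ) : ℝ := Real.logb 2 (2 - (1 / 2) ^ m)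

/-- a scalar inequality -/
def StSc : Prop := ∀ (q : ℝ) (k : ℕ), 0 < q → q < 1 → 1 ≤ k →
    ∑ i ∈ range (k + 1), q ^ i ≤ (((k : ℝ) + 1) / k) ^ (Real.logb 2 (1 + q)) * ∑ i ∈ range k, q ^ i

open Classical in
/-- the number of the vectors modulo `p` for which one of the classes in `L` is good -/
noncomputable def Qn (m p : ℕ) [NeZero p] (L : Finset (ZMod p)) : ℕ :=
  (univ.filter (fun x : Fin m → ZMod p => ∃ b ∈ L, ∀ j, x j + b ≠ 0)).card

open Classical in
/-- the nonzero classes -/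
noncomputable def Un (p : ℕ) [NeZero p] : Finset (ZMod p) := univ.filter (fun b => b ≠ 0)

/-- the counting inequality modulo a prime -/
def StQn (m : ℕ) : Prop := ∀ (p : ℕ) [NeZero p], p.Prime → ∀ L ⊆ Un p,
    (Qn m p (Un p) : ℝ) * ((L.card : ℝ) / (Un p).card) ^ (alp m) ≤ Qn m p L

open Classical in
/-- an abstract inequality of Lorentz type -/
def StLor : Prop := ∀ (X Y : Type) [Fintype X] [Fintype Y] [Nonempty Y] (good : X → Y → Prop) (α : ℝ),
    0 < α → α ≤ 1 → ∀ A : ℝ, (∀ L : Finset Y, A * ((L.card : ℝ) / Fintype.card Y) ^ α ≤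
      ((univ.filter (fun x => ∃ y ∈ L, good x y)).card : ℝ)) →
    ∀ f : Y → ℝ, (∀ y, 0 ≤ f y) → ∀ M : X → ℝ, (∀ x, 0 ≤ M x) → (∀ x y, good x y → f y ^ α ≤ M x) →
      A * ((∑ y, f y) / Fintype.card Y) ^ α ≤ ∑ x, M x

/-- the explicit lower bound -/
def StHLow (m : ℕ) : Prop := ∀ w : ℕ, ∀ B ⊆ AA true w,
    ((okk true m w).card : ℝ) * ((B.card : ℝ) / (AA true w).card) ^ (alp m) ≤ ((sumk m w B).card : ℝ)

/-- the example of density one half -/
def StHUp (m : ℕ) : Prop := LFk true m (1 / 2) ≤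
    ldk {h : Fin m → ℕ | Admk true h} * (2 ^ m / (2 ^ (m + 1) - 1))

end Pool.Agent.TH881.RK
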