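import Mathlib
import Pool.Agent.TH881.RK.DefsH

/-! Occupancy numbers. -/

set_option autoImplicit false

namespace Pool.Agent.TH881.RK

open Finset Filter Topology

/-- the number of the vectors of length `m` with entries in a set of `N` elements in which `k` given
elements all occur -/
def dd : ℕ → ℕ → ℕ → ℕ
  | 0, _, 0 => 1
  | 0, _, _ + 1 => 0
  | m + 1, N, 0 => N * dd m N 0
  | m + 1, N, k + 1 => (N - (k + 1)) * dd m N (k + 1) + (k + 1) * dd m N k

/-- negative correlation -/
def StDR : Prop := ∀ m N k : ℕ, k + 1 ≤ N →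
    (dd m N (k + 1) : ℝ) ≤ (1 - (((N : ℝ) - 1) / N) ^ m) * dd m N k

open Classical in
/-- `b` is good and all the classes in `L` are bad -/
noncomputable def Dn (m p : ℕ) [NeZero p] (L : Finset (ZMod p)) (b : ZMod p) : ℕ :=
  (univ.filter (fun x : Fin m → ZMod p => (∀ j, x j + b ≠ 0) ∧ ∀ c ∈ L, ∃ j, x j + c = 0)).card

/-- the number of these vectors -/
def StDC : Prop := ∀ (m p : ℕ) [NeZero p], p.Prime → ∀ (L : Finset (ZMod p)) (b : ZMod p), b ∉ L →
    Dn m p L b = dd m (p - 1) L.card

end Pool.Agent.TH881.RK
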