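import Mathlib
import Pool.Agent.TH881.RK.DefsH2

/-! Exact values of the extremal function: definitions. -/

set_option autoImplicit false

namespace Pool.Agent.TH881.RK

open Finset Filter Topology

/-- log-concavity of the occupancy numbers -/
def StLC : Prop := ∀ m N k : ℕ, k + 2 ≤ N → dd m N k * dd m N (k + 2) ≤ dd m N (k + 1) ^ 2

/-- the partial sums of a log-concave nonincreasing sequence are log-concave in `log k`: chords -/
def StSl : Prop := ∀ (n : ℕ) (d : ℕ → ℝ), 2 ≤ n → 0 < d 0 → (∀ j, 0 ≤ d j) →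
    (∀ j, j + 1 < n → d (j + 1) ≤ d j) → (∀ j, j + 2 < n → d j * d (j + 2) ≤ d (j + 1) ^ 2) →
    ∀ k : ℕ, 1 ≤ k → k ≤ n →
      d 0 * ((∑ j ∈ range n, d j) / d 0) ^ (Real.log k / Real.log n) ≤ ∑ j ∈ range k, d j

/-- the number of the vectors of length `m` modulo a prime `n + 1` without local obstruction -/
def Qs (m n : ℕ) : ℕ := ∑ j ∈ range n, dd m n j

/-- the exponents -/
noncomputable def aam (m p : ℕ) : ℝ :=
  if p ≤ 2 then 1 else Real.log ((Qs m (p - 1) : ℝ) / ((p : ℝ) - 1) ^ m) / Real.log ((p : ℝ) - 1)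

/-- the properties of the exponents -/
def StEx (m : ℕ) : Prop := (∀ p : ℕ, 2 ≤ p → 0 < aam m p ∧ aam m p ≤ 1) ∧
    (∀ p q : ℕ, 2 ≤ p → p ≤ q → aam m q ≤ aam m p) ∧
    (∀ (p : ℕ) [NeZero p], p.Prime → (Qn m p (Un p) = Qs m (p - 1)) ∧ ∀ L ⊆ Un p,
      (Qn m p (Un p) : ℝ) * ((L.card : ℝ) / (Un p).card) ^ (aam m p) ≤ Qn m p L)

end Pool.Agent.TH881.RK
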