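import Mathlib
import Pool.Agent.TH881.RK.DefsX
import Pool.Agent.TH496.J5133z

/-! Chords for the partial sums of a log-concave sequence. -/

set_option autoImplicit false

namespace Pool.Agent.TH881.RK

open Finset Filter Topology

/-- geometric sequences -/
lemma geo_chord {r : ℝ} (h0 : 0 ≤ r) (h1 : r ≤ 1) {k n : ℕ} (hk : 1 ≤ k) (hkn : k ≤ n) (hn : 2 ≤ n) :
    (∑ j ∈ range n, r ^ j) ^ (Real.log k / Real.log n) ≤ ∑ j ∈ range k, r ^ j := by
  have hkR : (1 : ℝ) ≤ k := by exact_mod_cast hk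
  have hnR : (2 : ℝ) ≤ n := by exact_mod_cast hn
  have hknR : (k : ℝ) ≤ n := by exact_mod_cast hkn
  have hlk : 0 ≤ Real.log k := Real.log_nonneg hkR
  have hln : 0 < Real.log n := Real.log_pos (by linarith)
  have hlkn : Real.log k ≤ Real.log n := Real.log_le_log (by linarith) hknR
  set t := Real.log k / Real.log n with ht
  have ht0 : 0 ≤ t := div_nonneg hlk hln.le
  have ht1 : t ≤ 1 := (div_le_one hln).2 hlkn
  rcases h0.eq_or_lt with h | h
  · have e : ∀ l : ℕ, 1 ≤ l → ∑ j ∈ range l, r ^ j = 1 := by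
      intro l hl
      obtain ⟨l', rfl⟩ : ∃ l', l = l' + 1 := ⟨l - 1, by omega⟩
      rw [sum_range_succ', ← h]
      simp
    rw [e n (by omega), e k hk, Real.one_rpow]
  rcases h1.eq_or_lt with h' | h'
  · have e : ∀ l : ℕ, ∑ j ∈ range l, r ^ j = l := by
      intro l
      rw [h']
      simp
    rw [e n, e k, Real.rpow_def_of_pos (by linarith), ht, mul_div_cancel₀ _ hln.ne', Real.exp_log (by linarith)]
  · have hc : 0 < -Real.log r := by
      have := Real.log_neg h h'
      linarith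
    have hG := Pool.Agent.TH496.J5133z.G_concave hc
    have h3 := hG.2 (Set.mem_univ (0 : ℝ)) (Set.mem_univ (Real.log n)) (sub_nonneg.2 ht1) ht0 (by ring)
    have e0 : (0 : ℝ) = Real.log ((1 : ℕ) : ℝ) := by simp
    have hr : 0 < 1 - r := by linarith
    have hp : ∀ l : ℕ, 1 ≤ l → 0 < 1 - r ^ l := by
      intro l hl
      have := pow_lt_one₀ h.le h' (by omega : l ≠ 0)
      linarith
    have eG : ∀ l : ℕ, 1 ≤ l → ∑ j ∈ range l, r ^ j = (1 - r ^ l) / (1 - r) := by
      intro l hl
      rw [geom_sum_eq h'.ne, ← neg_div_neg_eq]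
      congr 1 <;> ring
    have e1 : (1 - t) • (0 : ℝ) + t • Real.log n = Real.log k := by
      rw [smul_zero, zero_add, smul_eq_mul, ht]
      field_simp
    rw [e1] at h3
    rw [smul_eq_mul, smul_eq_mul, Pool.Agent.TH496.J5133z.G_log h hk, Pool.Agent.TH496.J5133z.G_log h (by omega : 1 ≤ n)] at h3
    have e2 : Pool.Agent.TH496.J5133z.G (-Real.log r) 0 = Real.log (1 - r) := by
      have := Pool.Agent.TH496.J5133z.G_log h (le_refl 1)
      rw [Nat.cast_one, Real.log_one, pow_one] at this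
      exact this
    rw [e2] at h3
    rw [eG n (by omega), eG k hk]
    have hA : 0 < (1 - r ^ n) / (1 - r) := div_pos (hp n (by omega)) hr
    have hB : 0 < (1 - r ^ k) / (1 - r) := div_pos (hp k hk) hr
    rw [Real.rpow_def_of_pos hA, ← Real.exp_log hB]
    apply Real.exp_le_exp.2
    rw [Real.log_div (hp n (by omega)).ne' hr.ne', Real.log_div (hp k hk).ne' hr.ne']
    nlinarith

lemma exists_ratio {k : ℕ} (hk : 1 ≤ k) {Q : ℝ} (h1 : 1 ≤ Q) (h2 : Q ≤ k) :
    ∃ r : ℝ, 0 ≤ r ∧ r ≤ 1 ∧ ∑ j ∈ range k, r ^ j = Q := by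
  have hc : ContinuousOn (fun r : ℝ => ∑ j ∈ range k, r ^ j) (Set.Icc 0 1) :=
    (continuous_finsetSum _ (fun j _ => continuous_pow j)).continuousOn
  have h3 := intermediate_value_Icc (zero_le_one' ℝ) hc
  have e0 : ∑ j ∈ range k, (0 : ℝ) ^ j = 1 := by
    obtain ⟨l', rfl⟩ : ∃ l', k = l' + 1 := ⟨k - 1, by omega⟩
    rw [sum_range_succ']
    simp
  have e1 : ∑ j ∈ range k, (1 : ℝ) ^ j = k := by simp
  obtain ⟨r, hr, hrQ⟩ := h3 (show Q ∈ Set.Icc _ _ from ⟨by rw [e0]; exact h1, by rw [e1]; exact h2⟩)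
  exact ⟨r, hr.1, hr.2, hrQ⟩

/-- normalised log-concave sequences -/
lemma lc_chord {n : ℕ} {e : ℕ → ℝ} (hn : 2 ≤ n) (he0 : e 0 = 1) (hpos : ∀ j, 0 ≤ e j)
    (hanti : ∀ j, j + 1 < n → e (j + 1) ≤ e j) (hlc : ∀ j, j + 2 < n → e j * e (j + 2) ≤ e (j + 1) ^ 2)
    {k : ℕ} (hk : 1 ≤ k) (hkn : k ≤ n) :
    (∑ j ∈ range n, e j) ^ (Real.log k / Real.log n) ≤ ∑ j ∈ range k, e j := by
  have hnR : (2 : ℝ) ≤ n := by exact_mod_cast hn
  have hln : 0 < Real.log n := Real.log_pos (by linarith)
  have hkR : (1 : ℝ) ≤ k := by exact_mod_cast hk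
  have ht0 : 0 ≤ Real.log k / Real.log n := div_nonneg (Real.log_nonneg hkR) hln.le
  have hle1 : ∀ j, j < n → e j ≤ 1 := by
    intro j
    induction j with
    | zero => intro _; exact he0.le
    | succ j ih => intro hj; exact (hanti j hj).trans (ih (by omega))
  have hQ1 : ∀ l, 1 ≤ l → 1 ≤ ∑ j ∈ range l, e j := by
    intro l hl
    rw [← he0]
    exact single_le_sum (f := e) (fun j _ => hpos j) (mem_range.2 hl)
  rcases hk.eq_or_lt with h1 | h1
  · rw [← h1, Nat.cast_one, Real.log_one, zero_div, Real.rpow_zero]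
    exact hQ1 1 le_rfl
  rcases hkn.eq_or_lt with h2 | h2
  · rw [h2, div_self hln.ne', Real.rpow_one]
  have hQk : ∑ j ∈ range k, e j ≤ k := by
    have h3 : ∑ j ∈ range k, e j ≤ ∑ j ∈ range k, (1 : ℝ) :=
      sum_le_sum (fun j hj => hle1 j (by have := mem_range.1 hj; omega))
    simpa using h3
  obtain ⟨r, hr0, hr1, hrQ⟩ := exists_ratio hk (hQ1 k hk) hQk
  have hex : ∃ i, 1 ≤ i ∧ i < k ∧ e i ≤ r ^ i := by
    by_contra hno
    push Not at hno
    have h3 : ∑ j ∈ range k, r ^ j < ∑ j ∈ range k, e j := by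
      apply sum_lt_sum
      · intro j hj
        rcases Nat.eq_zero_or_pos j with h4 | h4
        · rw [h4, he0, pow_zero]
        · exact (hno j h4 (mem_range.1 hj)).le
      · exact ⟨1, mem_range.2 h1, hno 1 le_rfl h1⟩
    linarith
  classical
  set i := Nat.find hex with hi
  obtain ⟨hi1, hik, hir⟩ := Nat.find_spec hex
  rw [← hi] at hi1 hik hir
  have hprev : r ^ (i - 1) ≤ e (i - 1) := by
    rcases Nat.eq_zero_or_pos (i - 1) with h4 | h4
    · rw [h4, he0, pow_zero]
    · have h5 := Nat.find_min hex (m := i - 1) (by omega)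
      push Not at h5
      exact (h5 h4 (by omega)).le
  have hratio : ∀ l, i - 1 ≤ l → l + 1 < n → e (l + 1) ≤ r * e l := by
    intro l hl
    induction l, hl using Nat.le_induction with
    | base =>
      intro _
      have e1 : i - 1 + 1 = i := by omega
      have e2 : r ^ i = r * r ^ (i - 1) := by
        conv_lhs => rw [← e1]
        rw [pow_succ, mul_comm]
      rw [e1]
      rw [e2] at hir
      exact hir.trans (mul_le_mul_of_nonneg_left hprev hr0)
    | succ l hl ih =>
      intro hln'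
      have h5 := ih (by omega)
      have h6 := hlc l (by omega)
      have h7 := hanti (l + 1) (by omega)
      rcases (hpos l).eq_or_lt with h8 | h8
      · rw [← h8, mul_zero] at h5
        have h9 : e (l + 1) = 0 := le_antisymm h5 (hpos _)
        rw [h9, mul_zero]
        rw [h9] at h7
        exact h7
      · have h10 : e l * e (l + 2) ≤ e l * (r * e (l + 1)) := by
          nlinarith [hpos (l + 1)]
        exact le_of_mul_le_mul_left h10 h8
  have hbound : ∀ j, i ≤ j → j < n → e j ≤ r ^ j := by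
    intro j hj
    induction j, hj using Nat.le_induction with
    | base => intro _; exact hir
    | succ j hj ih =>
      intro hjn
      have h5 := hratio j (by omega) hjn
      have h6 := ih (by omega)
      rw [pow_succ, mul_comm]
      exact h5.trans (mul_le_mul_of_nonneg_left h6 hr0)
  have hsum : ∑ j ∈ range n, e j ≤ ∑ j ∈ range n, r ^ j := by
    rw [range_eq_Ico, ← sum_Ico_consecutive _ (Nat.zero_le k) hkn, ← sum_Ico_consecutive _ (Nat.zero_le k) hkn,
      ← range_eq_Ico, hrQ]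
    apply add_le_add_right
    apply sum_le_sum
    intro j hj
    have := mem_Ico.1 hj
    exact hbound j (by omega) this.2
  calc (∑ j ∈ range n, e j) ^ (Real.log k / Real.log n) ≤ (∑ j ∈ range n, r ^ j) ^ (Real.log k / Real.log n) :=
        Real.rpow_le_rpow (sum_nonneg fun j _ => hpos j) hsum ht0
    _ ≤ ∑ j ∈ range k, r ^ j := geo_chord hr0 hr1 hk hkn hn
    _ = _ := hrQ

theorem stSl_in : StSl := by
  intro n d hn hd0 hpos hanti hlc k hk hkn
  have h := lc_chord (n := n) (e := fun j => d j / d 0) hn (div_self hd0.ne') (fun j => div_nonneg (hpos j) hd0.le)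
    (fun j hj => div_le_div_of_nonneg_right (hanti j hj) hd0.le)
    (fun j hj => by
      have h1 := hlc j hj
      rw [div_mul_div_comm, div_pow, sq (d 0)]
      exact div_le_div_of_nonneg_right h1 (by positivity)) hk hkn
  rw [← sum_div, ← sum_div, le_div_iff₀ hd0, mul_comm] at h
  exact h

end Pool.Agent.TH881.RK
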