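import Mathlib
import Pool.Agent.TH881.RK.DefsH2

/-! Exact values of the extremal function: the one-prime step, abstractly. -/

set_option autoImplicit false

namespace Pool.Agent.TH881.RK

open Finset Filter Topology

/-- positive, monotone, `f 1 = 1` and growing at most like the power `a`, on `(0, 1]` -/
structure Grow (a : ℝ) (f : ℝ → ℝ) : Prop where
  pos : ∀ x, 0 < x → x ≤ 1 → 0 < f x
  one : f 1 = 1
  mono : ∀ x y, 0 < x → x ≤ y → y ≤ 1 → f x ≤ f y
  grow : ∀ x y, 0 < x → x ≤ y → y ≤ 1 → f y ≤ (y / x) ^ a * f x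

/-- one more prime -/
noncomputable def stepf (a n : ℝ) (f : ℝ → ℝ) (x : ℝ) : ℝ :=
  if 1 ≤ n * x then x ^ a else n ^ (-a) * f (n * x)

lemma Grow.weaken {a b : ℝ} {f : ℝ → ℝ} (h : Grow a f) (hab : a ≤ b) : Grow b f := by
  refine ⟨h.pos, h.one, h.mono, fun x y hx hxy hy => ?_⟩
  refine le_trans (h.grow x y hx hxy hy) ?_
  apply mul_le_mul_of_nonneg_right _ (h.pos x hx (hxy.trans hy)).le
  apply Real.rpow_le_rpow_of_exponent_le _ hab
  rw [one_le_div hx]
  exact hxy

lemma grow_step {a n : ℝ} {f : ℝ → ℝ} (h : Grow a f) (ha : 0 ≤ a) (hn : 1 ≤ n) : Grow a (stepf a n f) := by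
  have hn0 : 0 < n := by linarith
  have hpos : ∀ x, 0 < x → x ≤ 1 → 0 < stepf a n f x := by
    intro x hx hx1
    unfold stepf
    split_ifs with hc
    · positivity
    · push Not at hc
      exact mul_pos (Real.rpow_pos_of_pos hn0 _) (h.pos _ (by positivity) hc.le)
  have hna : n ^ (-a) = (1 / n) ^ a := by
    rw [Real.rpow_neg hn0.le, Real.div_rpow zero_le_one hn0.le, Real.one_rpow, one_div]
  refine ⟨hpos, ?_, ?_, ?_⟩
  · unfold stepf
    rw [if_pos (by rw [mul_one]; exact hn), Real.one_rpow]
  · intro x y hx hxy hy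
    have hy0 : 0 < y := lt_of_lt_of_le hx hxy
    unfold stepf
    split_ifs with h1 h2 h2
    · exact Real.rpow_le_rpow hx.le hxy ha
    · exact absurd (h1.trans (mul_le_mul_of_nonneg_left hxy hn0.le)) h2
    · push Not at h1
      have h3 : f (n * x) ≤ 1 := by
        rw [← h.one]
        exact h.mono _ _ (by positivity) h1.le le_rfl
      calc n ^ (-a) * f (n * x) ≤ n ^ (-a) * 1 := mul_le_mul_of_nonneg_left h3 (Real.rpow_nonneg hn0.le _)
        _ = (1 / n) ^ a := by rw [mul_one, hna]
        _ ≤ y ^ a := by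
            apply Real.rpow_le_rpow (by positivity) _ ha
            rw [div_le_iff₀ hn0]
            linarith
    · push Not at h1 h2
      apply mul_le_mul_of_nonneg_left _ (Real.rpow_nonneg hn0.le _)
      exact h.mono _ _ (by positivity) (mul_le_mul_of_nonneg_left hxy hn0.le) h2.le
  · intro x y hx hxy hy
    have hy0 : 0 < y := lt_of_lt_of_le hx hxy
    unfold stepf
    split_ifs with h1 h2 h2
    · rw [← Real.mul_rpow (by positivity) hx.le]
      rw [div_mul_cancel₀ _ hx.ne']
    · -- `n y ≥ 1`, `n x < 1`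
      push Not at h2
      have h3 := h.grow (n * x) 1 (by positivity) h2.le le_rfl
      rw [h.one] at h3
      have h5 : y ^ a = (y / x) ^ a * (n ^ (-a) * (n * x) ^ a) := by
        rw [hna, ← Real.mul_rpow (by positivity) (by positivity), ← Real.mul_rpow (by positivity) (by positivity)]
        congr 1
        field_simp
      rw [h5]
      apply mul_le_mul_of_nonneg_left _ (by positivity)
      apply mul_le_mul_of_nonneg_left _ (Real.rpow_nonneg hn0.le _)
      have h6 : (n * x) ^ a * 1 ≤ (n * x) ^ a * ((1 / (n * x)) ^ a * f (n * x)) :=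
        mul_le_mul_of_nonneg_left h3 (by positivity)
      have h7 : (n * x) ^ a * ((1 / (n * x)) ^ a * f (n * x)) = f (n * x) := by
        rw [← mul_assoc, ← Real.mul_rpow (by positivity) (by positivity)]
        have : n * x * (1 / (n * x)) = 1 := by field_simp
        rw [this, Real.one_rpow, one_mul]
      linarith
    · exact absurd (h2.trans (mul_le_mul_of_nonneg_left hxy hn0.le)) h1
    · push Not at h1
      have h3 := h.grow (n * x) (n * y) (by positivity) (mul_le_mul_of_nonneg_left hxy hn0.le) h1.le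
      have h4 : n * y / (n * x) = y / x := by field_simp
      rw [h4] at h3
      calc n ^ (-a) * f (n * y) ≤ n ^ (-a) * ((y / x) ^ a * f (n * x)) :=
            mul_le_mul_of_nonneg_left h3 (Real.rpow_nonneg hn0.le _)
        _ = (y / x) ^ a * (n ^ (-a) * f (n * x)) := by ring

open Classical in
/-- the step inequality -/
lemma step_ineq (hLor : StLor) {X Y : Type} [Fintype X] [Fintype Y] [Nonempty Y] (good : X → Y → Prop) {a : ℝ}
    (ha : 0 < a) (ha1 : a ≤ 1) {A : ℝ} (hA : ∀ L : Finset Y, A * ((L.card : ℝ) / Fintype.card Y) ^ a ≤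
      ((univ.filter (fun x => ∃ y ∈ L, good x y)).card : ℝ)) {f : ℝ → ℝ} (hf : Grow a f) (b : Y → ℝ)
    (hb0 : ∀ y, 0 ≤ b y) (hb1 : ∀ y, b y ≤ 1) (hpos : 0 < ∑ y, b y) (M : X → ℝ) (hM : ∀ x, 0 ≤ M x)
    (hMf : ∀ x y, good x y → 0 < b y → f (b y) ≤ M x) :
    A * stepf a (Fintype.card Y) f ((∑ y, b y) / Fintype.card Y) ≤ ∑ x, M x := by
  have hnn : 1 ≤ Fintype.card Y := Fintype.card_pos
  have hn : (1 : ℝ) ≤ Fintype.card Y := by exact_mod_cast hnn
  have hn0 : (0 : ℝ) < Fintype.card Y := by linarith
  set n : ℝ := (Fintype.card Y : ℝ) with hnd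
  set z : ℝ := ∑ y, b y with hz
  have hnz : n * (z / n) = z := by field_simp
  have hbz : ∀ y, b y ≤ z := fun y => single_le_sum (fun i _ => hb0 i) (mem_univ y)
  unfold stepf
  rw [hnz]
  split_ifs with h1
  · -- `z ≥ 1`
    apply hLor X Y good a ha ha1 A hA b hb0 M hM
    intro x y hxy
    rcases (hb0 y).eq_or_lt with h0 | h0
    · rw [← h0, Real.zero_rpow ha.ne']
      exact hM x
    · refine le_trans ?_ (hMf x y hxy h0)
      have h2 := hf.grow (b y) 1 h0 (hb1 y) le_rfl
      rw [hf.one] at h2
      have h3 : b y ^ a * 1 ≤ b y ^ a * ((1 / b y) ^ a * f (b y)) := mul_le_mul_of_nonneg_left h2 (by positivity)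
      have h4 : b y ^ a * ((1 / b y) ^ a * f (b y)) = f (b y) := by
        rw [← mul_assoc, ← Real.mul_rpow (by positivity) (by positivity)]
        have : b y * (1 / b y) = 1 := by field_simp
        rw [this, Real.one_rpow, one_mul]
      linarith
  · -- `z < 1`
    push Not at h1
    have hfz := hf.pos z hpos h1.le
    have key := hLor X Y good a ha ha1 A hA b hb0 (fun x => M x * (z ^ a / f z))
      (fun x => mul_nonneg (hM x) (by positivity)) ?_
    · rw [← sum_mul] at key
      have h5 : A * (z / n) ^ a = A * (n ^ (-a) * f z) * (z ^ a / f z) := by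
        rw [Real.div_rpow hpos.le hn0.le, Real.rpow_neg hn0.le]
        field_simp
      rw [h5] at key
      exact le_of_mul_le_mul_right key (by positivity)
    · intro x y hxy
      rcases (hb0 y).eq_or_lt with h0 | h0
      · rw [← h0, Real.zero_rpow ha.ne']
        exact mul_nonneg (hM x) (by positivity)
      · have h2 := hf.grow (b y) z h0 (hbz y) h1.le
        have h3 : b y ^ a ≤ f (b y) * (z ^ a / f z) := by
          rw [mul_div_assoc', le_div_iff₀ hfz]
          calc b y ^ a * f z ≤ b y ^ a * ((z / b y) ^ a * f (b y)) := mul_le_mul_of_nonneg_left h2 (by positivity)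
            _ = f (b y) * z ^ a := by
                rw [← mul_assoc, ← Real.mul_rpow (by positivity) (by positivity)]
                have : b y * (z / b y) = z := by field_simp
                rw [this, mul_comm]
        refine le_trans h3 ?_
        exact mul_le_mul_of_nonneg_right (hMf x y hxy h0) (by positivity)

end Pool.Agent.TH881.RK
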