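import Mathlib
import Pool.Agent.TH881.RK.Step

/-! The local inequality: adding a prime, by the Chinese remainder theorem. -/

set_option autoImplicit false

namespace Pool.Agent.TH881.RK

open Finset Filter Topology

open Classical in
/-- the units modulo `n` -/
noncomputable def unitsF (n : ℕ) [NeZero n] : Finset (ZMod n) := univ.filter (fun a => IsUnit a)

open Classical in
/-- the vectors which are hit by `B` modulo `n` -/
noncomputable def hitF (m n : ℕ) [NeZero n] (B : Finset (ZMod n)) : Finset (Fin m → ZMod n) :=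
  univ.filter (fun t => ∃ a ∈ B, ∀ j, IsUnit (t j + a))

lemma mem_unitsF {n : ℕ} [NeZero n] {a : ZMod n} : a ∈ unitsF n ↔ IsUnit a := by
  classical
  unfold unitsF
  rw [mem_filter]
  exact ⟨fun h => h.2, fun h => ⟨mem_univ _, h⟩⟩

lemma mem_hitF {m n : ℕ} [NeZero n] {B : Finset (ZMod n)} {t : Fin m → ZMod n} :
    t ∈ hitF m n B ↔ ∃ a ∈ B, ∀ j, IsUnit (t j + a) := by
  classical
  unfold hitF
  rw [mem_filter]
  exact ⟨fun h => h.2, fun h => ⟨mem_univ _, h⟩⟩

/-- the local inequality modulo `n` -/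
def Pst (m n : ℕ) [NeZero n] (f : ℝ → ℝ) : Prop := ∀ B ⊆ unitsF n, B.Nonempty →
  ((hitF m n (unitsF n)).card : ℝ) * f ((B.card : ℝ) / (unitsF n).card) ≤ ((hitF m n B).card : ℝ)

lemma card_split {α β γ : Type} [Fintype α] [Fintype β] [Fintype γ] (Φ : α ≃ β × γ) (P : α → Prop)
    [DecidablePred P] : (univ.filter P).card = ∑ c : γ, (univ.filter (fun b : β => P (Φ.symm (b, c)))).card := by
  simp_rw [card_filter]
  rw [← Equiv.sum_comp Φ.symm, Fintype.sum_prod_type_right]

/-- the equivalence of vectors -/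
def vecE {n p N : ℕ} (m : ℕ) (e : ZMod N ≃+* ZMod n × ZMod p) :
    (Fin m → ZMod N) ≃ (Fin m → ZMod n) × (Fin m → ZMod p) where
  toFun t := (fun j => (e (t j)).1, fun j => (e (t j)).2)
  invFun s := fun j => e.symm (s.1 j, s.2 j)
  left_inv t := by
    funext j
    simp
  right_inv s := by
    ext j <;> simp

lemma isUnit_e {n p N : ℕ} (e : ZMod N ≃+* ZMod n × ZMod p) (c : ZMod N) :
    IsUnit c ↔ IsUnit (e c).1 ∧ IsUnit (e c).2 := by
  rw [← Prod.isUnit_iff]
  exact (MulEquiv.isUnit_map e).symm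

open Classical in
theorem crt_step (hLor : StLor) {m n p N : ℕ} [NeZero n] [NeZero p] [NeZero N] (hp : p.Prime)
    (e : ZMod N ≃+* ZMod n × ZMod p) {a : ℝ} (ha : 0 < a) (ha1 : a ≤ 1)
    (hQ : ∀ L ⊆ Un p, (Qn m p (Un p) : ℝ) * ((L.card : ℝ) / (Un p).card) ^ a ≤ Qn m p L)
    {f : ℝ → ℝ} (hf : Grow a f) (hP : Pst m n f) : Pst m N (stepf a ((p : ℝ) - 1) f) := by
  have hfact : Fact p.Prime := ⟨hp⟩
  intro B hB hne
  let Y := {y : ZMod p // y ≠ 0}
  have hY : Nonempty Y := ⟨⟨1, one_ne_zero⟩⟩
  have hup : ∀ y : ZMod p, IsUnit y ↔ y ≠ 0 := fun y => isUnit_iff_ne_zero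
  have hYc : (Fintype.card Y : ℝ) = (p : ℝ) - 1 := by
    have h1 : Fintype.card Y = p - 1 := by
      rw [Fintype.card_subtype_compl, ZMod.card, Fintype.card_subtype_eq]
    rw [h1, Nat.cast_sub hp.one_le, Nat.cast_one]
  have hUn : ∀ y : ZMod p, y ∈ Un p ↔ y ≠ 0 := by
    intro y
    unfold Un
    rw [mem_filter]
    exact ⟨fun h => h.2, fun h => ⟨mem_univ _, h⟩⟩
  have hUnc : (Un p).card = Fintype.card Y := by
    rw [Fintype.card_of_subtype (Un p) hUn]
  -- the slices
  let By : Y → Finset (ZMod n) := fun y => (unitsF n).filter (fun a' => e.symm (a', y.1) ∈ B)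
  let b : Y → ℝ := fun y => ((By y).card : ℝ) / (unitsF n).card
  have hu0 : 0 < (unitsF n).card := card_pos.2 ⟨1, mem_unitsF.2 isUnit_one⟩
  have hu0' : (0 : ℝ) < (unitsF n).card := by exact_mod_cast hu0
  have hBsum : ∑ y : Y, (By y).card = B.card := by
    have h1 : B = univ.filter (fun c => c ∈ B) := by ext; simp
    rw [h1, card_split e.toEquiv]
    have h2 : ∀ c : ZMod p, (univ.filter (fun a' : ZMod n => e.toEquiv.symm (a', c) ∈ B)).card =
        if c ≠ 0 then ((unitsF n).filter (fun a' => e.symm (a', c) ∈ B)).card else 0 := by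
      intro c
      split_ifs with hc
      · congr 1
        ext a'
        rw [mem_filter, mem_filter, mem_unitsF]
        constructor
        · rintro ⟨_, h⟩
          have h3 := mem_unitsF.1 (hB h)
          rw [isUnit_e e] at h3
          have h4 : e (e.toEquiv.symm (a', c)) = (a', c) := e.apply_symm_apply (a', c)
          rw [h4] at h3
          exact ⟨h3.1, h⟩
        · rintro ⟨_, h⟩
          exact ⟨mem_univ _, h⟩
      · rw [card_eq_zero, filter_eq_empty_iff]
        intro a' _ h
        have h3 := mem_unitsF.1 (hB h)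
        rw [isUnit_e e] at h3
        have h4 : e (e.toEquiv.symm (a', c)) = (a', c) := e.apply_symm_apply (a', c)
        rw [h4, hup] at h3
        exact hc h3.2
    rw [sum_congr rfl (fun c _ => h2 c), ← sum_filter]
    have h5 : univ.filter (fun c : ZMod p => c ≠ 0) = Un p := by
      ext c
      rw [hUn, mem_filter]
      exact ⟨fun h => h.2, fun h => ⟨mem_univ _, h⟩⟩
    rw [h5]
    refine (sum_subtype (Un p) hUn (fun c => ((unitsF n).filter (fun a' => e.symm (a', c) ∈ B)).card)).symm.trans ?_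
    rfl
  -- the number of units
  have hNu : ((unitsF N).card : ℝ) = (unitsF n).card * Fintype.card Y := by
    have h1 : unitsF N = univ.filter (fun c => c ∈ unitsF N) := by ext; simp
    rw [h1, card_split e.toEquiv]
    have h2 : ∀ c : ZMod p, (univ.filter (fun a' : ZMod n => e.toEquiv.symm (a', c) ∈ unitsF N)).card =
        if c ≠ 0 then (unitsF n).card else 0 := by
      intro c
      split_ifs with hc
      · congr 1
        ext a'
        have h4 : e (e.toEquiv.symm (a', c)) = (a', c) := e.apply_symm_apply (a', c)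
        rw [mem_filter, mem_unitsF, mem_unitsF, isUnit_e e, h4]
        exact ⟨fun h => h.2.1, fun h => ⟨mem_univ _, h, (hup c).2 hc⟩⟩
      · rw [card_eq_zero, filter_eq_empty_iff]
        intro a' _ h
        have h4 : e (e.toEquiv.symm (a', c)) = (a', c) := e.apply_symm_apply (a', c)
        rw [mem_unitsF, isUnit_e e, h4, hup] at h
        exact hc h.2
    rw [sum_congr rfl (fun c _ => h2 c), ← sum_filter]
    have h5 : univ.filter (fun c : ZMod p => c ≠ 0) = Un p := by
      ext c
      rw [hUn, mem_filter]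
      exact ⟨fun h => h.2, fun h => ⟨mem_univ _, h⟩⟩
    rw [h5, sum_const, hUnc, smul_eq_mul]
    push_cast
    ring
  -- the number of classes which are hit
  obtain ⟨okn, hokn⟩ : ∃ k : ℕ, k = (hitF m n (unitsF n)).card := ⟨_, rfl⟩
  have hok0 : 0 < okn := by
    rw [hokn]
    apply card_pos.2
    refine ⟨fun _ => 0, mem_hitF.2 ⟨1, mem_unitsF.2 isUnit_one, fun j => ?_⟩⟩
    show IsUnit ((0 : ZMod n) + 1)
    rw [zero_add]
    exact isUnit_one
  have hok0' : (0 : ℝ) < okn := by exact_mod_cast hok0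
  have hvec : ∀ (t' : Fin m → ZMod n) (x : Fin m → ZMod p) (c : ZMod n × ZMod p),
      (∀ j, IsUnit ((vecE m e).symm (t', x) j + e.symm c)) ↔ (∀ j, IsUnit (t' j + c.1)) ∧ (∀ j, x j + c.2 ≠ 0) := by
    intro t' x c
    have h1 : ∀ j, IsUnit ((vecE m e).symm (t', x) j + e.symm c) ↔ IsUnit (t' j + c.1) ∧ x j + c.2 ≠ 0 := by
      intro j
      have h2 : (vecE m e).symm (t', x) j + e.symm c = e.symm ((t' j, x j) + c) := by
        rw [map_add]
        rfl
      rw [h2, isUnit_e e, e.apply_symm_apply, hup]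
      rfl
    constructor
    · intro h
      exact ⟨fun j => ((h1 j).1 (h j)).1, fun j => ((h1 j).1 (h j)).2⟩
    · rintro ⟨h2, h3⟩ j
      exact (h1 j).2 ⟨h2 j, h3 j⟩
  have hokN : ((hitF m N (unitsF N)).card : ℝ) = okn * Qn m p (Un p) := by
    have h1 : hitF m N (unitsF N) = univ.filter (fun c => c ∈ hitF m N (unitsF N)) := by ext; simp
    rw [h1, card_split (vecE m e)]
    have h2 : ∀ x : Fin m → ZMod p, (univ.filter (fun t' : Fin m → ZMod n =>
        (vecE m e).symm (t', x) ∈ hitF m N (unitsF N))).card =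
        if (∃ b ∈ Un p, ∀ j, x j + b ≠ 0) then okn else 0 := by
      intro x
      split_ifs with hx
      · obtain ⟨y, hy, hxy⟩ := hx
        rw [hokn]
        congr 1
        ext t'
        rw [mem_filter, mem_hitF, mem_hitF]
        constructor
        · rintro ⟨_, c, hc, h⟩
          rw [mem_unitsF, isUnit_e e] at hc
          have h3 := (hvec t' x (e c)).1 (by rw [e.symm_apply_apply]; exact h)
          exact ⟨(e c).1, mem_unitsF.2 hc.1, h3.1⟩
        · rintro ⟨a', ha', h⟩
          refine ⟨mem_univ _, e.symm (a', y), ?_, (hvec t' x (a', y)).2 ⟨h, hxy⟩⟩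
          rw [mem_unitsF, isUnit_e e, e.apply_symm_apply, hup]
          exact ⟨mem_unitsF.1 ha', (hUn y).1 hy⟩
      · rw [card_eq_zero, filter_eq_empty_iff]
        intro t' _ h
        rw [mem_hitF] at h
        obtain ⟨c, hc, h⟩ := h
        rw [mem_unitsF, isUnit_e e, hup] at hc
        have h3 := (hvec t' x (e c)).1 (by rw [e.symm_apply_apply]; exact h)
        exact hx ⟨(e c).2, (hUn _).2 hc.2, h3.2⟩
    rw [sum_congr rfl (fun x _ => h2 x), ← sum_filter, sum_const, smul_eq_mul]
    have h3 : (univ.filter (fun x : Fin m → ZMod p => ∃ b ∈ Un p, ∀ j, x j + b ≠ 0)).card = Qn m p (Un p) := rfl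
    rw [h3]
    push_cast
    ring
  -- the function `M`
  let M : (Fin m → ZMod p) → ℝ := fun x =>
    ((univ.filter (fun t' : Fin m → ZMod n => (vecE m e).symm (t', x) ∈ hitF m N B)).card : ℝ) / okn
  have hMsum : ∑ x, M x = ((hitF m N B).card : ℝ) / okn := by
    have h1 : (hitF m N B).card = ∑ x : Fin m → ZMod p,
        (univ.filter (fun t' : Fin m → ZMod n => (vecE m e).symm (t', x) ∈ hitF m N B)).card := by
      have h2 : hitF m N B = univ.filter (fun c => c ∈ hitF m N B) := by ext; simp
      conv_lhs => rw [h2]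
      rw [card_split (vecE m e)]
    rw [h1]
    push_cast
    rw [sum_div]
  have hb0 : ∀ y, 0 ≤ b y := fun y => by positivity
  have hb1 : ∀ y, b y ≤ 1 := by
    intro y
    show ((By y).card : ℝ) / (unitsF n).card ≤ 1
    rw [div_le_one hu0']
    exact_mod_cast card_le_card (filter_subset _ _)
  have hbs : ∑ y, b y = (B.card : ℝ) / (unitsF n).card := by
    show ∑ y, ((By y).card : ℝ) / (unitsF n).card = _
    rw [← sum_div, ← hBsum]
    push_cast
    rfl
  have hB0 : (0 : ℝ) < B.card := by exact_mod_cast card_pos.2 hne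
  have hbpos : 0 < ∑ y, b y := by rw [hbs]; positivity
  have key := step_ineq hLor (X := Fin m → ZMod p) (Y := Y) (fun x y => ∀ j, x j + y.1 ≠ 0) ha ha1
    (A := (Qn m p (Un p) : ℝ)) ?_ hf b hb0 hb1 hbpos M (fun x => by positivity) ?_
  · rw [hMsum, hbs, hYc] at key
    rw [hokN]
    have h1 : (B.card : ℝ) / (unitsF N).card = (B.card : ℝ) / (unitsF n).card / ((p : ℝ) - 1) := by
      rw [hNu, hYc, div_div]
    rw [h1]
    rw [le_div_iff₀ hok0'] at key
    linarith
  · intro L
    have h1 := hQ (L.image (fun y => y.1)) (by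
      intro c hc
      rw [mem_image] at hc
      obtain ⟨y, _, rfl⟩ := hc
      exact (hUn _).2 y.2)
    rw [card_image_of_injective _ Subtype.val_injective, hUnc] at h1
    refine le_trans h1 ?_
    have h2 : Qn m p (L.image (fun y => y.1)) = (univ.filter (fun x : Fin m → ZMod p => ∃ y ∈ L, ∀ j, x j + y.1 ≠ 0)).card := by
      unfold Qn
      congr 1
      ext x
      rw [mem_filter, mem_filter]
      constructor
      · rintro ⟨h3, c, hc, h4⟩
        rw [mem_image] at hc
        obtain ⟨y, hy, rfl⟩ := hc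
        exact ⟨h3, y, hy, h4⟩
      · rintro ⟨h3, y, hy, h4⟩
        exact ⟨h3, y.1, mem_image_of_mem _ hy, h4⟩
    rw [h2]
    apply le_of_eq
    congr!
  · intro x y hxy hby
    have hByne : (By y).Nonempty := by
      rw [← card_pos]
      by_contra h0
      have h1 : (By y).card = 0 := by omega
      have h2 : b y = 0 := by
        show ((By y).card : ℝ) / (unitsF n).card = 0
        rw [h1]
        simp
      rw [h2] at hby
      exact lt_irrefl _ hby
    have h1 := hP (By y) (filter_subset _ _) hByne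
    rw [← hokn] at h1
    show f (b y) ≤ _ / (okn : ℝ)
    rw [le_div_iff₀ hok0', mul_comm]
    refine le_trans h1 ?_
    have h2 : (hitF m n (By y)).card ≤ (univ.filter (fun t' : Fin m → ZMod n => (vecE m e).symm (t', x) ∈ hitF m N B)).card := by
      apply card_le_card
      intro t' ht'
      rw [mem_hitF] at ht'
      obtain ⟨a', ha', h3⟩ := ht'
      rw [mem_filter]
      refine ⟨mem_univ _, mem_hitF.2 ⟨e.symm (a', y.1), (mem_filter.1 ha').2, (hvec t' x (a', y.1)).2 ⟨h3, hxy⟩⟩⟩
    exact_mod_cast h2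

end Pool.Agent.TH881.RK
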