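import Mathlib
import Pool.Agent.TH881.RK.Crt
import Pool.Agent.TH881.RK.DefsX

/-! The local inequality: iteration over the primes, from the large to the small ones. -/

set_option autoImplicit false

namespace Pool.Agent.TH881.RK

open Finset Filter Topology
open Pool.Agent.TH881
open Pool.Agent.TH881.RQ
open Pool.Agent.H373R2.T7

open Classical in
theorem ok_mul {m n p N : ℕ} [NeZero n] [NeZero p] [NeZero N] (hp : p.Prime)
    (e : ZMod N ≃+* ZMod n × ZMod p) :
    (hitF m N (unitsF N)).card = (hitF m n (unitsF n)).card * Qn m p (Un p) := by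
  have hfact : Fact p.Prime := ⟨hp⟩
  have hup : ∀ y : ZMod p, IsUnit y ↔ y ≠ 0 := fun y => isUnit_iff_ne_zero
  have hUn : ∀ y : ZMod p, y ∈ Un p ↔ y ≠ 0 := by
    intro y
    unfold Un
    rw [mem_filter]
    exact ⟨fun h => h.2, fun h => ⟨mem_univ _, h⟩⟩
  obtain ⟨okn, hokn⟩ : ∃ k : ℕ, k = (hitF m n (unitsF n)).card := ⟨_, rfl⟩
  rw [← hokn]
  have hvec : ∀ (t' : Fin m → ZMod n) (x : Fin m → ZMod p) (c : ZMod n × ZMod p),
      (∀ j, IsUnit ((vecE m e).symm (t', x) j + e.symm c)) ↔ (∀ j, IsUnit (t' j + c.1)) ∧ (∀ j, x j + c.2 ≠ 0) := by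
    intro t' x c
    have h1 : ∀ j, IsUnit ((vecE m e).symm (t', x) j + e.symm c) ↔ IsUnit (t' j + c.1) ∧ x j + c.2 ≠ 0 := by
      intro j
      have h2 : (vecE m e).symm (t', x) j + e.symm c = e.symm ((t' j, x j) + c) := by
        rw [map_add]
        rfl
      rw [h2, isUnit_e e, e.apply_symm_apply, hup]
      rfl
    constructor
    · intro h
      exact ⟨fun j => ((h1 j).1 (h j)).1, fun j => ((h1 j).1 (h j)).2⟩
    · rintro ⟨h2, h3⟩ j
      exact (h1 j).2 ⟨h2 j, h3 j⟩
  have h1 : hitF m N (unitsF N) = univ.filter (fun c => c ∈ hitF m N (unitsF N)) := by ext; simp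
  rw [h1, card_split (vecE m e)]
  have h2 : ∀ x : Fin m → ZMod p, (univ.filter (fun t' : Fin m → ZMod n =>
      (vecE m e).symm (t', x) ∈ hitF m N (unitsF N))).card =
      if (∃ b ∈ Un p, ∀ j, x j + b ≠ 0) then okn else 0 := by
    intro x
    split_ifs with hx
    · obtain ⟨y, hy, hxy⟩ := hx
      rw [hokn]
      congr 1
      ext t'
      rw [mem_filter, mem_hitF, mem_hitF]
      constructor
      · rintro ⟨_, c, hc, h⟩
        rw [mem_unitsF, isUnit_e e] at hc
        have h3 := (hvec t' x (e c)).1 (by rw [e.symm_apply_apply]; exact h)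
        exact ⟨(e c).1, mem_unitsF.2 hc.1, h3.1⟩
      · rintro ⟨a', ha', h⟩
        refine ⟨mem_univ _, e.symm (a', y), ?_, (hvec t' x (a', y)).2 ⟨h, hxy⟩⟩
        rw [mem_unitsF, isUnit_e e, e.apply_symm_apply, hup]
        exact ⟨mem_unitsF.1 ha', (hUn y).1 hy⟩
    · rw [card_eq_zero, filter_eq_empty_iff]
      intro t' _ h
      rw [mem_hitF] at h
      obtain ⟨c, hc, h⟩ := h
      rw [mem_unitsF, isUnit_e e, hup] at hc
      have h3 := (hvec t' x (e c)).1 (by rw [e.symm_apply_apply]; exact h)
      exact hx ⟨(e c).2, (hUn _).2 hc.2, h3.2⟩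
  rw [sum_congr rfl (fun x _ => h2 x), ← sum_filter, sum_const, smul_eq_mul]
  have h3 : (univ.filter (fun x : Fin m → ZMod p => ∃ b ∈ Un p, ∀ j, x j + b ≠ 0)).card = Qn m p (Un p) := rfl
  rw [h3, mul_comm]

/-- the function for the primes in `(w - j, w]` -/
noncomputable def gg (a : ℕ → ℝ) (w : ℕ) : ℕ → ℝ → ℝ
  | 0 => fun _ => 1
  | j + 1 => if (w - j).Prime then stepf (a (w - j)) (((w - j : ℕ) : ℝ) - 1) (gg a w j) else gg a w j

/-- the product of the primes in `(w - j, w]` -/
def NN (w j : ℕ) : ℕ := ∏ p ∈ (pz w).filter (fun p => w - j < p), p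

lemma NN_pos (w j : ℕ) : 0 < NN w j :=
  Finset.prod_pos (fun p hp => (mem_pz.1 (mem_filter.1 hp).1).2.pos)

lemma filter_succ {w j : ℕ} (hj : j < w) : (pz w).filter (fun p => w - (j + 1) < p) =
    if (w - j).Prime then insert (w - j) ((pz w).filter (fun p => w - j < p)) else (pz w).filter (fun p => w - j < p) := by
  split_ifs with h
  · ext p
    rw [mem_filter, mem_insert, mem_filter]
    constructor
    · rintro ⟨h1, h2⟩
      by_cases h3 : p = w - j
      · exact Or.inl h3
      · exact Or.inr ⟨h1, by omega⟩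
    · rintro (h1 | ⟨h1, h2⟩)
      · rw [h1]
        exact ⟨mem_pz.2 ⟨by omega, h⟩, by omega⟩
      · exact ⟨h1, by omega⟩
  · ext p
    rw [mem_filter, mem_filter]
    constructor
    · rintro ⟨h1, h2⟩
      refine ⟨h1, ?_⟩
      have h3 : p ≠ w - j := by
        rintro rfl
        exact h (mem_pz.1 h1).2
      omega
    · rintro ⟨h1, h2⟩
      exact ⟨h1, by omega⟩

theorem iter (hLor : StLor) {m : ℕ} (a : ℕ → ℝ) (ha : ∀ p, 2 ≤ p → 0 < a p ∧ a p ≤ 1)
    (hanti : ∀ p q, 2 ≤ p → p ≤ q → a q ≤ a p)
    (hQ : ∀ (p : ℕ) [NeZero p], p.Prime → (Qn m p (Un p) = Qs m (p - 1)) ∧ ∀ L ⊆ Un p,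
      (Qn m p (Un p) : ℝ) * ((L.card : ℝ) / (Un p).card) ^ (a p) ≤ Qn m p L)
    (w : ℕ) : ∀ j : ℕ, j < w → Grow (a (w - j + 1)) (gg a w j) ∧ ∀ (N : ℕ) [NeZero N], N = NN w j →
      Pst m N (gg a w j) ∧ (hitF m N (unitsF N)).card = ∏ p ∈ (pz w).filter (fun p => w - j < p), Qs m (p - 1) := by
  intro j
  induction j with
  | zero =>
    intro hw
    have hE : (pz w).filter (fun p => w - 0 < p) = ∅ := by
      rw [filter_eq_empty_iff]
      intro p hp
      have := (mem_pz.1 hp).1
      omega
    refine ⟨⟨fun x _ _ => one_pos, rfl, fun x y _ _ _ => le_rfl, fun x y hx hxy _ => ?_⟩, ?_⟩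
    · show (1 : ℝ) ≤ (y / x) ^ (a (w - 0 + 1)) * 1
      rw [mul_one]
      apply Real.one_le_rpow
      · rw [one_le_div hx]
        exact hxy
      · exact (ha _ (by omega)).1.le
    · intro N _ hN
      unfold NN at hN
      rw [hE, prod_empty] at hN
      subst hN
      have hsub : ∀ B : Finset (ZMod 1), B.Nonempty → B = unitsF 1 := by
        intro B hB
        obtain ⟨b, hb⟩ := hB
        ext c
        rw [mem_unitsF]
        constructor
        · intro _
          have : c = 1 := Subsingleton.elim _ _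
          rw [this]
          exact isUnit_one
        · intro _
          have : c = b := Subsingleton.elim _ _
          rw [this]
          exact hb
      constructor
      · intro B _ hne
        rw [hsub B hne]
        show _ * (1 : ℝ) ≤ _
        rw [mul_one]
      · rw [hE, prod_empty]
        have h1 : hitF m 1 (unitsF 1) = univ := by
          ext t
          rw [mem_hitF]
          refine ⟨fun _ => mem_univ _, fun _ => ⟨1, mem_unitsF.2 isUnit_one, fun j => ?_⟩⟩
          have : t j + 1 = 1 := Subsingleton.elim _ _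
          rw [this]
          exact isUnit_one
        rw [h1, card_univ]
        have : Subsingleton (Fin m → ZMod 1) := inferInstance
        exact Fintype.card_eq_one_iff.2 ⟨fun _ => 0, fun _ => Subsingleton.elim _ _⟩
  | succ j ih =>
    intro hj
    obtain ⟨hG, hN⟩ := ih (by omega)
    have hq2 : 2 ≤ w - j := by omega
    have e1 : w - (j + 1) + 1 = w - j := by omega
    rw [e1]
    have hG' : Grow (a (w - j)) (gg a w j) := hG.weaken (hanti _ _ hq2 (by omega))
    by_cases hp : (w - j).Prime
    · have e2 : gg a w (j + 1) = stepf (a (w - j)) (((w - j : ℕ) : ℝ) - 1) (gg a w j) := by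
        show (if (w - j).Prime then _ else _) = _
        rw [if_pos hp]
      have hfs := filter_succ (w := w) (j := j) (by omega)
      rw [if_pos hp] at hfs
      have hnot : w - j ∉ (pz w).filter (fun p => w - j < p) := by
        rw [mem_filter]
        intro h
        omega
      rw [e2]
      have hn1 : (1 : ℝ) ≤ ((w - j : ℕ) : ℝ) - 1 := by
        have : (2 : ℝ) ≤ ((w - j : ℕ) : ℝ) := by exact_mod_cast hq2
        linarith
      refine ⟨grow_step hG' (ha _ hq2).1.le hn1, ?_⟩
      intro N _ hNN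
      have hNe : N = NN w j * (w - j) := by
        rw [hNN]
        unfold NN
        rw [hfs, prod_insert hnot, mul_comm]
      haveI : NeZero (NN w j) := ⟨(NN_pos w j).ne'⟩
      haveI : NeZero (w - j) := ⟨hp.ne_zero⟩
      have hcop : Nat.Coprime (NN w j) (w - j) := by
        unfold NN
        apply Nat.Coprime.prod_left
        intro q hq
        rw [mem_filter] at hq
        apply (Nat.coprime_primes (mem_pz.1 hq.1).2 hp).2
        omega
      obtain ⟨hP, hc⟩ := hN (NN w j) rfl
      subst hNe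
      have e := ZMod.chineseRemainder hcop
      constructor
      · exact crt_step hLor hp e (ha _ hq2).1 (ha _ hq2).2 (hQ (w - j) hp).2 hG' hP
      · rw [ok_mul hp e, hc, (hQ (w - j) hp).1, hfs, prod_insert hnot, mul_comm]
    · have e2 : gg a w (j + 1) = gg a w j := by
        show (if (w - j).Prime then _ else _) = _
        rw [if_neg hp]
      have hfs := filter_succ (w := w) (j := j) (by omega)
      rw [if_neg hp] at hfs
      rw [e2]
      refine ⟨hG', ?_⟩
      intro N _ hNN
      have hNe : N = NN w j := by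
        rw [hNN]
        unfold NN
        rw [hfs]
      obtain ⟨hP, hc⟩ := hN N hNe
      refine ⟨hP, ?_⟩
      rw [hc, hfs]

end Pool.Agent.TH881.RK
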