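import Mathlib
import Pool.Agent.TH881.RK.IterX
import Pool.Agent.TH881.RK.LocIn

/-! The local inequality: exact values. -/

set_option autoImplicit false

namespace Pool.Agent.TH881.RK

open Finset Filter Topology
open Pool.Agent.TH881
open Pool.Agent.TH881.RG
open Pool.Agent.TH881.RQ
open Pool.Agent.H373R2.T7

lemma stepf_div {a n : ℝ} {f : ℝ → ℝ} (hn : 1 ≤ n) (hf1 : f 1 = 1) {x : ℝ} (hx1 : x ≤ 1) :
    stepf a n f (x / n) = n ^ (-a) * f x := by
  have hn0 : 0 < n := by linarith
  have h1 : n * (x / n) = x := by field_simp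
  unfold stepf
  rw [h1]
  split_ifs with h2
  · have h3 : x = 1 := le_antisymm hx1 h2
    rw [h3, hf1, Real.rpow_neg hn0.le, Real.div_rpow zero_le_one hn0.le, Real.one_rpow, mul_one, one_div]
  · rfl

/-- the totient of the primorial, as a real number -/
noncomputable def Phr (k : ℕ) : ℝ := ∏ p ∈ pz k, ((p : ℝ) - 1)

/-- the product of the powers -/
noncomputable def VVr (a : ℕ → ℝ) (k : ℕ) : ℝ := ∏ p ∈ pz k, ((p : ℝ) - 1) ^ (-(a p))

lemma pz_succ (k : ℕ) : pz (k + 1) = if (k + 1).Prime then insert (k + 1) (pz k) else pz k := by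
  split_ifs with h
  · ext p
    rw [mem_insert, mem_pz, mem_pz]
    constructor
    · rintro ⟨h1, h2⟩
      by_cases h3 : p = k + 1
      · exact Or.inl h3
      · exact Or.inr ⟨by omega, h2⟩
    · rintro (h1 | ⟨h1, h2⟩)
      · rw [h1]
        exact ⟨le_rfl, h⟩
      · exact ⟨by omega, h2⟩
  · ext p
    rw [mem_pz, mem_pz]
    constructor
    · rintro ⟨h1, h2⟩
      refine ⟨?_, h2⟩
      have h3 : p ≠ k + 1 := by
        rintro rfl
        exact h h2
      omega
    · rintro ⟨h1, h2⟩
      exact ⟨by omega, h2⟩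

lemma Phr_pos (k : ℕ) : 0 < Phr k := by
  apply Finset.prod_pos
  intro p hp
  have h2 : 2 ≤ p := (mem_pz.1 hp).2.two_le
  have : (2 : ℝ) ≤ p := by exact_mod_cast h2
  linarith

lemma eval_gg (a : ℕ → ℝ) (w : ℕ) (h1 : ∀ j, j < w → gg a w j 1 = 1) (k : ℕ) (hk : 1 ≤ k) :
    k ≤ w → ∀ x : ℝ, 0 < x → x ≤ 1 → gg a w (w - 1) (x / Phr k) = VVr a k * gg a w (w - k) x := by
  induction k, hk using Nat.le_induction with
  | base =>
    intro _ x _ _
    have hE : pz 1 = ∅ := by
      rw [eq_empty_iff_forall_notMem]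
      intro p hp
      rw [mem_pz] at hp
      have := hp.2.two_le
      omega
    unfold Phr VVr
    rw [hE, prod_empty, prod_empty, div_one, one_mul]
  | succ k hk ih =>
    intro hkw x hx hx1
    have hj : w - k = (w - (k + 1)) + 1 := by omega
    have hj2 : w - (w - (k + 1)) = k + 1 := by omega
    have hk1 : (1 : ℝ) ≤ k := by exact_mod_cast hk
    by_cases hp : (k + 1).Prime
    · have hnot : k + 1 ∉ pz k := by
        rw [mem_pz]
        omega
      have hPh : Phr (k + 1) = k * Phr k := by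
        unfold Phr
        rw [pz_succ, if_pos hp, prod_insert hnot]
        push_cast
        ring
      have hVV : VVr a (k + 1) = (k : ℝ) ^ (-(a (k + 1))) * VVr a k := by
        unfold VVr
        rw [pz_succ, if_pos hp, prod_insert hnot]
        push_cast
        rw [add_sub_cancel_right]
      have h2 : x / Phr (k + 1) = (x / k) / Phr k := by
        rw [hPh, div_div]
      have h3 : 0 < x / (k : ℝ) := by positivity
      have h4 : x / (k : ℝ) ≤ 1 := by
        rw [div_le_one (by linarith)]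
        linarith
      rw [h2, ih (by omega) (x / k) h3 h4, hVV, hj]
      have h5 : gg a w (w - (k + 1) + 1) = stepf (a (k + 1)) (k : ℝ) (gg a w (w - (k + 1))) := by
        show (if (w - (w - (k + 1))).Prime then stepf (a (w - (w - (k + 1)))) (((w - (w - (k + 1)) : ℕ) : ℝ) - 1)
          (gg a w (w - (k + 1))) else _) = _
        rw [hj2, if_pos hp]
        push_cast
        rw [add_sub_cancel_right]
      rw [h5, stepf_div hk1 (h1 _ (by omega)) hx1]
      ring
    · have hPh : Phr (k + 1) = Phr k := by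
        unfold Phr
        rw [pz_succ, if_neg hp]
      have hVV : VVr a (k + 1) = VVr a k := by
        unfold VVr
        rw [pz_succ, if_neg hp]
      have h5 : gg a w (w - (k + 1) + 1) = gg a w (w - (k + 1)) := by
        show (if (w - (w - (k + 1))).Prime then stepf (a (w - (w - (k + 1)))) (((w - (w - (k + 1)) : ℕ) : ℝ) - 1)
          (gg a w (w - (k + 1))) else _) = _
        rw [hj2, if_neg hp]
      rw [hPh, hVV, ih (by omega) x hx hx1, hj, h5]

lemma AA_eq (w : ℕ) : AA true w = unitsF (Wp w) := by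
  classical
  apply Finset.ext
  intro a
  unfold AA
  rw [mem_filter, mem_unitsF]
  exact ⟨fun h => h.2 rfl, fun h => ⟨mem_univ _, fun _ => h⟩⟩

lemma sumk_eq (m w : ℕ) (B : Finset (ZMod (Wp w))) : sumk m w B = hitF m (Wp w) B := by
  apply Finset.ext
  intro t
  rw [mem_sumk', mem_hitF]
  exact Iff.rfl

lemma okk_eq (m w : ℕ) : okk true m w = hitF m (Wp w) (unitsF (Wp w)) := by
  classical
  rw [← sumk_eq, ← AA_eq]
  apply Finset.ext
  intro t
  rw [mem_okk, mem_sumk']
  have hA := Pool.Agent.TH111.J3812.AA_pos true w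
  unfold wk
  rw [Ne, div_eq_zero_iff, not_or]
  constructor
  · rintro ⟨h2, _⟩
    have h3 : ((AA true w).filter (fun a => gk t a)).card ≠ 0 := by exact_mod_cast h2
    obtain ⟨a, ha⟩ := card_pos.1 (Nat.pos_of_ne_zero h3)
    rw [mem_filter] at ha
    exact ⟨a, ha.1, ha.2⟩
  · rintro ⟨a, ha, h2⟩
    refine ⟨?_, hA.ne'⟩
    have h3 : 0 < ((AA true w).filter (fun a => gk t a)).card :=
      card_pos.2 ⟨a, mem_filter.2 ⟨ha, h2⟩⟩
    exact_mod_cast h3.ne'

lemma tail_all {w : ℕ} (hw : 2 ≤ w) : (pz w).filter (fun p => w - (w - 1) < p) = pz w := by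
  apply filter_true_of_mem
  intro p hp
  have := (mem_pz.1 hp).2.two_le
  omega

lemma NN_all {w : ℕ} (hw : 2 ≤ w) : Wp w = NN w (w - 1) := by
  unfold NN
  rw [tail_all hw]
  rfl

theorem okk_prod (hLor : StLor) {m : ℕ} (hEx : StEx m) {w : ℕ} (hw : 2 ≤ w) :
    (okk true m w).card = ∏ p ∈ pz w, Qs m (p - 1) := by
  have h := (iter hLor (aam m) hEx.1 hEx.2.1 hEx.2.2 w (w - 1) (by omega)).2 (Wp w) (NN_all hw)
  rw [okk_eq, h.2, tail_all hw]

theorem low_exact (hLor : StLor) {m : ℕ} (hEx : StEx m) {w k : ℕ} (hk : 2 ≤ k) (hkw : k ≤ w)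
    (B : Finset (ZMod (Wp w))) (hB : B ⊆ AA true w) (hBc : 1 / Phr k * (AA true w).card ≤ B.card) :
    ((okk true m w).card : ℝ) * VVr (aam m) k ≤ ((sumk m w B).card : ℝ) := by
  have hw : 2 ≤ w := hk.trans hkw
  obtain ⟨hG, hN⟩ := iter hLor (aam m) hEx.1 hEx.2.1 hEx.2.2 w (w - 1) (by omega)
  obtain ⟨hP, _⟩ := hN (Wp w) (NN_all hw)
  have hA := Pool.Agent.TH111.J3812.AA_pos true w
  have hPh := Phr_pos k
  have h1 : ∀ j, j < w → gg (aam m) w j 1 = 1 := fun j hj =>
    (iter hLor (aam m) hEx.1 hEx.2.1 hEx.2.2 w j hj).1.one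
  have hev := eval_gg (aam m) w h1 k (by omega) hkw 1 one_pos le_rfl
  rw [h1 (w - k) (by omega), mul_one] at hev
  have hBne : B.Nonempty := by
    rw [← card_pos]
    have : (0 : ℝ) < B.card := lt_of_lt_of_le (by positivity) hBc
    exact_mod_cast this
  have h2 : 1 / Phr k ≤ (B.card : ℝ) / (AA true w).card := by
    rw [le_div_iff₀ hA]; exact hBc
  have h3 : (B.card : ℝ) / (AA true w).card ≤ 1 := by
    rw [div_le_one hA]
    exact_mod_cast card_le_card hB
  have h4 := hG.mono (1 / Phr k) ((B.card : ℝ) / (AA true w).card) (by positivity) h2 h3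
  rw [hev] at h4
  have h5 := hP B (by rw [← AA_eq]; exact hB) hBne
  rw [okk_eq, sumk_eq]
  rw [AA_eq] at h4
  refine le_trans ?_ h5
  exact mul_le_mul_of_nonneg_left h4 (by positivity)

/-- the lower bound for the local minimum -/
theorem LFk_low_exact (hLor : StLor) {m : ℕ} (hEx : StEx m) {k : ℕ} (hk : 3 ≤ k) :
    ldk {h : Fin m → ℕ | Admk true h} * VVr (aam m) k ≤ LFk true m (1 / Phr k) := by
  have hPh := Phr_pos k
  have hPh2 : 1 / Phr k ≤ 1 := by
    rw [div_le_one hPh]
    have : ∀ j, 1 ≤ Phr j := by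
      intro j
      induction j with
      | zero =>
        have : pz 0 = ∅ := by
          rw [eq_empty_iff_forall_notMem]
          intro p hp
          rw [mem_pz] at hp
          have := hp.2.two_le
          omega
        unfold Phr
        rw [this, prod_empty]
      | succ j ih =>
        by_cases hp : (j + 1).Prime
        · have hnot : j + 1 ∉ pz j := by
            rw [mem_pz]
            omega
          have h1 : Phr (j + 1) = j * Phr j := by
            unfold Phr
            rw [pz_succ, if_pos hp, prod_insert hnot]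
            push_cast
            ring
          rw [h1]
          have h2 : (1 : ℝ) ≤ j := by
            have := hp.two_le
            exact_mod_cast (by omega : 1 ≤ j)
          nlinarith
        · have h1 : Phr (j + 1) = Phr j := by
            unfold Phr
            rw [pz_succ, if_neg hp]
          rw [h1]
          exact ih
    exact this k
  refine le_of_forall_pos_le_add fun ε hε => ?_
  obtain ⟨w, hw, B, hB, hBc, hBs⟩ := LFk_near (Pool.Agent.TH381.J4392.stLift_in true m) (1 / Phr k) hPh2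
    (m + 1 + k) ε hε
  refine le_trans ?_ hBs
  have h1 := low_exact hLor hEx (w := w) (k := k) (by omega) (by omega) B hB hBc
  have hWR : (0 : ℝ) < Wp w := by exact_mod_cast Wp_pos w
  rw [← okk_dens true (by omega : m + 1 ≤ w), div_mul_eq_mul_div]
  exact div_le_div_of_nonneg_right h1 (by positivity)

lemma dd_zero (m N : ℕ) : dd m N 0 = N ^ m := by
  induction m with
  | zero => rfl
  | succ m ih =>
    show N * dd m N 0 = _
    rw [ih, pow_succ, mul_comm]

lemma Qs_pos (m : ℕ) {n : ℕ} (hn : 1 ≤ n) : 0 < Qs m n := by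
  unfold Qs
  have h : dd m n 0 ≤ ∑ j ∈ range n, dd m n j :=
    single_le_sum (f := fun j => dd m n j) (fun _ _ => Nat.zero_le _) (mem_range.2 hn)
  rw [dd_zero] at h
  exact lt_of_lt_of_le (pow_pos hn m) h

lemma pow_aam (m : ℕ) {p : ℕ} (hp : 2 ≤ p) :
    ((p : ℝ) - 1) ^ (-(aam m p)) = ((p : ℝ) - 1) ^ m / Qs m (p - 1) := by
  by_cases h2 : p ≤ 2
  · have h3 : p = 2 := by omega
    subst h3
    have h4 : Qs m (2 - 1) = 1 := by
      show ∑ j ∈ range 1, dd m 1 j = 1
      rw [sum_range_one, dd_zero, one_pow]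
    rw [h4]
    norm_num
  · unfold aam
    rw [if_neg h2]
    have hp3 : (3 : ℝ) ≤ p := by exact_mod_cast (by omega : 3 ≤ p)
    have hn0 : (0 : ℝ) < (p : ℝ) - 1 := by linarith
    have hlog : 0 < Real.log ((p : ℝ) - 1) := Real.log_pos (by linarith)
    have hQ : (0 : ℝ) < Qs m (p - 1) := by exact_mod_cast Qs_pos m (by omega : 1 ≤ p - 1)
    rw [Real.rpow_def_of_pos hn0]
    have h5 : Real.log ((p : ℝ) - 1) * -(Real.log ((Qs m (p - 1) : ℝ) / ((p : ℝ) - 1) ^ m) / Real.log ((p : ℝ) - 1)) =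
        -Real.log ((Qs m (p - 1) : ℝ) / ((p : ℝ) - 1) ^ m) := by
      field_simp
    rw [h5, Real.exp_neg, Real.exp_log (by positivity), inv_div]

theorem value_exact (hLor : StLor) {m : ℕ} (hEx : StEx m) {k : ℕ} (hk : 2 ≤ k) (hkm : m + 1 ≤ k) :
    ldk {h : Fin m → ℕ | Admk true h} * VVr (aam m) k = Vz k ^ m := by
  rw [← okk_dens true hkm, okk_prod hLor hEx hk]
  unfold VVr
  have h1 : ∏ p ∈ pz k, ((p : ℝ) - 1) ^ (-(aam m p)) = ∏ p ∈ pz k, (((p : ℝ) - 1) ^ m / Qs m (p - 1)) :=
    prod_congr rfl (fun p hp => pow_aam m (mem_pz.1 hp).2.two_le)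
  have h2 : (Wp k : ℝ) = ∏ p ∈ pz k, (p : ℝ) := by
    unfold Wp
    push_cast
    rfl
  have h3 : Vz k = ∏ p ∈ pz k, (1 - 1 / (p : ℝ)) := rfl
  rw [h1, h2, h3]
  push_cast
  rw [← prod_pow, ← prod_div_distrib, ← prod_mul_distrib, ← prod_pow]
  apply prod_congr rfl
  intro p hp
  have hp2 := (mem_pz.1 hp).2.two_le
  have hp0 : (0 : ℝ) < p := by exact_mod_cast (by omega : 0 < p)
  have hQ : (0 : ℝ) < Qs m (p - 1) := by exact_mod_cast Qs_pos m (by omega : 1 ≤ p - 1)
  have h4 : 1 - 1 / (p : ℝ) = ((p : ℝ) - 1) / p := by field_simp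
  rw [h4, div_pow]
  field_simp

lemma Phr_eq (k : ℕ) : Phr k = Wp k * Vz k := by
  have h2 : (Wp k : ℝ) = ∏ p ∈ pz k, (p : ℝ) := by
    unfold Wp
    push_cast
    rfl
  have h3 : Vz k = ∏ p ∈ pz k, (1 - 1 / (p : ℝ)) := rfl
  rw [h2, h3, ← prod_mul_distrib]
  unfold Phr
  apply prod_congr rfl
  intro p hp
  have hp2 := (mem_pz.1 hp).2.two_le
  have hp0 : (0 : ℝ) < p := by exact_mod_cast (by omega : 0 < p)
  field_simp

lemma AA_card_Phr (k : ℕ) : ((AA true k).card : ℝ) = Phr k := by
  rw [AA_true, card_UU, totient_Wp, Phr_eq]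

lemma hit_one (m k : ℕ) : (sumk m k {1}).card = (AA true k).card ^ m := by
  classical
  rw [sumk_eq]
  have h1 : hitF m (Wp k) {1} = Fintype.piFinset (fun _ : Fin m => univ.filter (fun x : ZMod (Wp k) => IsUnit (x + 1))) := by
    apply Finset.ext
    intro t
    rw [mem_hitF, Fintype.mem_piFinset]
    constructor
    · rintro ⟨a, ha, h⟩ j
      rw [mem_singleton] at ha
      rw [mem_filter]
      refine ⟨mem_univ _, ?_⟩
      rw [← ha]
      exact h j
    · intro h
      exact ⟨1, mem_singleton_self _, fun j => (mem_filter.1 (h j)).2⟩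
  have h2 : (univ.filter (fun x : ZMod (Wp k) => IsUnit (x + 1))).card = (AA true k).card := by
    rw [AA_eq]
    apply card_bij (fun x _ => x + 1)
    · intro x hx
      rw [mem_unitsF]
      exact (mem_filter.1 hx).2
    · intro x _ y _ hxy
      exact add_right_cancel hxy
    · intro y hy
      rw [mem_unitsF] at hy
      refine ⟨y - 1, ?_, sub_add_cancel y 1⟩
      rw [mem_filter, sub_add_cancel]
      exact ⟨mem_univ _, hy⟩
  rw [h1, Fintype.card_piFinset, prod_const, card_univ, Fintype.card_fin, h2]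

/-- the single class -/
theorem LFk_up_exact {m : ℕ} (k : ℕ) : LFk true m (1 / Phr k) ≤ Vz k ^ m := by
  have hB : ({1} : Finset (ZMod (Wp k))) ⊆ AA true k := by
    rw [singleton_subset_iff, AA_eq, mem_unitsF]
    exact isUnit_one
  have hPh := Phr_pos k
  have h1 := LFk_le (pr := true) (m := m) (β := 1 / Phr k) hB (by
    rw [AA_card_Phr, card_singleton]
    have : 1 / Phr k * Phr k = 1 := by field_simp
    rw [this]
    norm_num)
  refine le_trans h1 (le_of_eq ?_)
  have hWR : (0 : ℝ) < Wp k := by exact_mod_cast Wp_pos k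
  rw [hit_one]
  push_cast
  rw [AA_card_Phr, Phr_eq, mul_pow]
  field_simp

end Pool.Agent.TH881.RK
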