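import Mathlib
import Pool.Agent.TH881.RK.EvalX

/-! Exact values of the extremal function at the reciprocals of the totients of the primorials. -/

set_option autoImplicit false

namespace Pool.Agent.TH881.RK

open Finset Filter Topology
open Pool.Agent.TH881
open Pool.Agent.TH881.RG
open Pool.Agent.TH881.RQ
open Pool.Agent.H373R2.T7

lemma two_le_Phr {k : ℕ} (hk : 3 ≤ k) : 2 ≤ Phr k := by
  unfold Phr
  have h3 : 3 ∈ pz k := mem_pz.2 ⟨hk, Nat.prime_three⟩
  rw [← mul_prod_erase _ _ h3]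
  have h1 : (1 : ℝ) ≤ ∏ p ∈ (pz k).erase 3, ((p : ℝ) - 1) := by
    have h2 : ∏ p ∈ (pz k).erase 3, (1 : ℝ) ≤ ∏ p ∈ (pz k).erase 3, ((p : ℝ) - 1) := by
      apply prod_le_prod (fun _ _ => zero_le_one)
      intro p hp
      have hp2 : (2 : ℝ) ≤ p := by exact_mod_cast (mem_pz.1 (mem_of_mem_erase hp)).2.two_le
      linarith
    rwa [prod_const_one] at h2
  push_cast
  linarith

theorem exact_of (hLor : StLor) {m : ℕ} (hm : 1 ≤ m) (hEx : StEx m) {k : ℕ} (hk : 3 ≤ k) (hkm : m + 1 ≤ k) :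
    FFk true m (1 / Phr k) = Vz k ^ m := by
  have h2 := two_le_Phr hk
  have hβ : 0 < 1 / Phr k := by positivity
  have hβ1 : 1 / Phr k < 1 := by
    rw [div_lt_one (by linarith)]
    linarith
  rw [FFk_loc_in true m hm _ hβ hβ1]
  apply le_antisymm (LFk_up_exact k)
  rw [← value_exact hLor hEx (by omega : 2 ≤ k) hkm]
  exact LFk_low_exact hLor hEx hk

lemma Phr_totient (k : ℕ) : Phr k = ((Wp k).totient : ℝ) := by
  rw [totient_Wp, Phr_eq]

lemma Vz_totient (k : ℕ) : Vz k = ((Wp k).totient : ℝ) / Wp k := by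
  have hWR : (0 : ℝ) < Wp k := by exact_mod_cast Wp_pos k
  rw [totient_Wp]
  field_simp

theorem exact_tot_of (hLor : StLor) {m : ℕ} (hm : 1 ≤ m) (hEx : StEx m) {k : ℕ} (hk : 3 ≤ k) (hkm : m + 1 ≤ k) :
    FFk true m (1 / ((Wp k).totient : ℝ)) = (((Wp k).totient : ℝ) / Wp k) ^ m := by
  rw [← Vz_totient, ← Phr_totient]
  exact exact_of hLor hm hEx hk hkm

end Pool.Agent.TH881.RK
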