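import Mathlib
import Pool.Agent.TH881.RK.DefsH2
import Pool.Agent.TH881.RK.LocIn

/-! A sharp explicit lower bound for the extremal function: assembly. -/

set_option autoImplicit false

namespace Pool.Agent.TH881.RK

open Finset Filter Topology
open Pool.Agent.TH881
open Pool.Agent.TH881.RG
open Pool.Agent.TH881.RQ
open Pool.Agent.H373R2.T7

lemma two_sub_pos (m : ℕ) : 1 ≤ 2 - (1 / 2 : ℝ) ^ m := by
  have : (1 / 2 : ℝ) ^ m ≤ 1 := pow_le_one₀ (by norm_num) (by norm_num)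
  linarith

lemma alp_nonneg (m : ℕ) : 0 ≤ alp m := by
  unfold alp
  exact Real.logb_nonneg (by norm_num) (two_sub_pos m)

lemma half_rpow (m : ℕ) : (1 / 2 : ℝ) ^ (alp m) = 2 ^ m / (2 ^ (m + 1) - 1) := by
  have h1 := two_sub_pos m
  have h2 : (2 : ℝ) ^ (alp m) = 2 - (1 / 2) ^ m := by
    unfold alp
    rw [Real.rpow_logb (by norm_num) (by norm_num) (by linarith)]
  rw [Real.div_rpow (by norm_num) (by norm_num), Real.one_rpow, h2]
  have h3 : (0 : ℝ) < 2 ^ m := by positivity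
  have h4 : (2 : ℝ) ^ (m + 1) - 1 = 2 ^ m * (2 - (1 / 2) ^ m) := by
    have : (2 : ℝ) ^ m * (1 / 2) ^ m = 1 := by
      rw [← mul_pow]
      norm_num
    rw [mul_sub, this, pow_succ]
  rw [h4]
  field_simp

theorem half_low {m : ℕ} (hm : 1 ≤ m) (hL : StHLow m) (β : ℝ) (hβ : 0 < β) (hβ1 : β < 1) :
    ldk {h : Fin m → ℕ | Admk true h} * β ^ (alp m) ≤ FFk true m β := by
  rw [FFk_loc_in true m hm β hβ hβ1]
  refine le_of_forall_pos_le_add fun ε hε => ?_
  obtain ⟨w, hw, B, hB, hBc, hBs⟩ := LFk_near (Pool.Agent.TH381.J4392.stLift_in true m) β hβ1.le (m + 1) ε hε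
  refine le_trans ?_ hBs
  have hA := Pool.Agent.TH111.J3812.AA_pos true w
  have hWR : (0 : ℝ) < Wp w := by exact_mod_cast Wp_pos w
  have h1 := hL w B hB
  rw [← okk_dens true hw]
  have h2 : β ≤ (B.card : ℝ) / (AA true w).card := by
    rw [le_div_iff₀ hA]; exact hBc
  have h3 : β ^ (alp m) ≤ ((B.card : ℝ) / (AA true w).card) ^ (alp m) :=
    Real.rpow_le_rpow hβ.le h2 (alp_nonneg m)
  rw [div_mul_eq_mul_div]
  apply div_le_div_of_nonneg_right _ (by positivity)
  refine le_trans ?_ h1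
  exact mul_le_mul_of_nonneg_left h3 (by positivity)

theorem half_eq {m : ℕ} (hm : 1 ≤ m) (hL : StHLow m) (hU : StHUp m) :
    FFk true m (1 / 2) = ldk {h : Fin m → ℕ | Admk true h} * (2 ^ m / (2 ^ (m + 1) - 1)) := by
  apply le_antisymm
  · rw [FFk_loc_in true m hm (1 / 2) (by norm_num) (by norm_num)]
    exact hU
  · rw [← half_rpow]
    exact half_low hm hL (1 / 2) (by norm_num) (by norm_num)

end Pool.Agent.TH881.RK
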