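import Mathlib
import Pool.Agent.TH881.RK.Half
import Pool.Agent.TH496.J5133
import Pool.Agent.TH914.J5134
import Pool.Agent.TH147.J5135
import Pool.Agent.TH473.J5136
import Pool.Agent.TH985.J5137
import Pool.Agent.TH692.J5138
import Pool.Agent.TH124.J5139

/-! A sharp explicit lower bound for the extremal function. -/

set_option autoImplicit false

namespace Pool.Agent.TH881.RK

open Finset Filter Topology
open Pool.Agent.TH881
open Pool.Agent.TH881.RG
open Pool.Agent.TH881.RQ
open Pool.Agent.H373R2.T7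

theorem stHLow_in (m : ℕ) (hm : 1 ≤ m) : StHLow m :=
  Pool.Agent.TH692.J5138.stHLow_of m hm (Pool.Agent.TH473.J5136.stQn_of m hm Pool.Agent.TH496.J5133.stSc
    Pool.Agent.TH914.J5134.stDR Pool.Agent.TH147.J5135.stDC) Pool.Agent.TH985.J5137.stLor

theorem stHUp_inn (m : ℕ) (hm : 1 ≤ m) : StHUp m := Pool.Agent.TH124.J5139.stHUp_in m hm

theorem half_low_in (m : ℕ) (hm : 1 ≤ m) (β : ℝ) (hβ : 0 < β) (hβ1 : β < 1) :
    ldk {h : Fin m → ℕ | Admk true h} * β ^ (Real.logb 2 (2 - (1 / 2) ^ m)) ≤ FFk true m β :=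
  half_low hm (stHLow_in m hm) β hβ hβ1

theorem half_eq_in (m : ℕ) (hm : 1 ≤ m) :
    FFk true m (1 / 2) = ldk {h : Fin m → ℕ | Admk true h} * (2 ^ m / (2 ^ (m + 1) - 1)) :=
  half_eq hm (stHLow_in m hm) (stHUp_inn m hm)

/-- the density of the admissible vectors is positive -/
theorem adm_dens_pos (m : ℕ) : 0 < ldk {h : Fin m → ℕ | Admk true h} := by
  rw [← okk_dens true (le_refl (m + 1))]
  have hWR : (0 : ℝ) < Wp (m + 1) := by exact_mod_cast Wp_pos (m + 1)
  apply div_pos _ (by positivity)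
  have h1 : 0 < (okk true m (m + 1)).card := by
    apply card_pos.2
    refine ⟨fun _ => 0, ?_⟩
    have hB : AA true (m + 1) ⊆ AA true (m + 1) := subset_rfl
    apply sumk_sub_okk true hB
    rw [mem_sumk']
    refine ⟨1, ?_, fun j => ?_⟩
    · unfold AA
      rw [mem_filter]
      exact ⟨mem_univ _, fun _ => isUnit_one⟩
    · show IsUnit ((0 : ZMod (Wp (m + 1))) + 1)
      rw [zero_add]
      exact isUnit_one
  exact_mod_cast h1

end Pool.Agent.TH881.RK
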