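import Mathlib
import Pool.Agent.TH881.RK.Exact
import Pool.Agent.TH881.RK.GoldIn
import Pool.Agent.TH881.RQ.Wrap

/-! Index form: primes whose index lies in a given set. -/

set_option autoImplicit false

namespace Pool.Agent.TH881.RK.Index

open Finset Filter Topology

open Classical in
/-- The number of elements of `S` in `[1, x]`. -/
noncomputable def count (S : Set ℕ) (x : ℕ) : ℕ := ((Icc 1 x).filter (fun n => n ∈ S)).card

open Classical in
lemma mem_cf {S : Set ℕ} {x n : ℕ} : n ∈ ((Icc 1 x).filter (fun n => n ∈ S)) ↔ (1 ≤ n ∧ n ≤ x) ∧ n ∈ S := by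
  rw [mem_filter, mem_Icc]

lemma pi_strict {p q : ℕ} (hq : q.Prime) (h : p < q) : Nat.primeCounting p < Nat.primeCounting q := by
  have h1 : Nat.primeCounting p ≤ Nat.primeCounting' q := by
    rw [Nat.primeCounting_eq_primeCounting'_succ]
    exact Nat.monotone_primeCounting' (by omega)
  have h2 : Nat.primeCounting q = Nat.primeCounting' q + 1 := by
    rw [Nat.primeCounting_eq_primeCounting'_succ]
    unfold Nat.primeCounting'
    rw [Nat.count_succ, if_pos hq]
  omega

lemma pi_inj {p q : ℕ} (hp : p.Prime) (hq : q.Prime) (h : Nat.primeCounting p = Nat.primeCounting q) : p = q := by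
  rcases lt_trichotomy p q with h1 | h1 | h1
  · exact absurd h (pi_strict hq h1).ne
  · exact h1
  · exact absurd h (pi_strict hp h1).ne'

lemma pi_pos {p : ℕ} (hp : p.Prime) : 1 ≤ Nat.primeCounting p := by
  have := pi_strict hp hp.pos
  omega

/-- the prime of index `j` -/
lemma exists_prime (j : ℕ) (hj : 1 ≤ j) : ∃ p : ℕ, p.Prime ∧ Nat.primeCounting p = j := by
  refine ⟨Nat.nth Nat.Prime (j - 1), Nat.prime_nth_prime _, ?_⟩
  rw [Nat.primeCounting_eq_primeCounting'_succ]
  unfold Nat.primeCounting'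
  rw [Nat.count_succ, if_pos (Nat.prime_nth_prime _)]
  have h : Nat.count Nat.Prime (Nat.nth Nat.Prime (j - 1)) = j - 1 := Nat.primeCounting'_nth_eq (j - 1)
  omega

lemma count_index (B : Set ℕ) (x : ℕ) :
    count {p | p.Prime ∧ Nat.primeCounting p ∈ B} x = count B (Nat.primeCounting x) := by
  unfold count
  apply card_bij (fun p _ => Nat.primeCounting p)
  · intro p hp
    obtain ⟨h1, h2⟩ := mem_cf.1 hp
    exact mem_cf.2 ⟨⟨pi_pos h2.1, Nat.monotone_primeCounting h1.2⟩, h2.2⟩
  · intro p hp q hq h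
    exact pi_inj (mem_cf.1 hp).2.1 (mem_cf.1 hq).2.1 h
  · intro j hj
    obtain ⟨⟨h3, h4⟩, h2⟩ := mem_cf.1 hj
    obtain ⟨p, hp, hpj⟩ := exists_prime j h3
    refine ⟨p, mem_cf.2 ⟨⟨hp.one_lt.le, ?_⟩, hp, ?_⟩, hpj⟩
    · by_contra h
      have := pi_strict hp (not_le.1 h)
      omega
    · rw [hpj]
      exact h2

lemma count_primes (x : ℕ) : count {p | p.Prime} x = Nat.primeCounting x := by
  have h1 := count_index Set.univ x
  have h2 : {p | p.Prime ∧ Nat.primeCounting p ∈ Set.univ} = {p : ℕ | p.Prime} := by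
    ext p
    exact ⟨fun h => h.1, fun h => ⟨h, Set.mem_univ _⟩⟩
  rw [h2] at h1
  rw [h1]
  have h3 : count Set.univ (Nat.primeCounting x) = (Icc 1 (Nat.primeCounting x)).card := by
    unfold count
    congr 1
    ext n
    rw [mem_cf, mem_Icc]
    exact ⟨fun h => h.1, fun h => ⟨h, Set.mem_univ _⟩⟩
  rw [h3, Nat.card_Icc]
  omega

/-- lower density -/
noncomputable def lowerDensity (S : Set ℕ) : ℝ := liminf (fun x : ℕ => (count S x : ℝ) / x) atTop

/-- relative lower density -/
noncomputable def relLower (A : Set ℕ) : ℝ :=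
  liminf (fun x : ℕ => (count {p | p.Prime ∧ p ∈ A} x : ℝ) / (count {p | p.Prime} x : ℝ)) atTop

lemma count_mono {S T : Set ℕ} (h : S ⊆ T) (x : ℕ) : count S x ≤ count T x := by
  unfold count
  apply card_le_card
  intro n hn
  obtain ⟨h1, h2⟩ := mem_cf.1 hn
  exact mem_cf.2 ⟨h1, h h2⟩

lemma ratio_nonneg (A : Set ℕ) (x : ℕ) :
    0 ≤ (count {p | p.Prime ∧ p ∈ A} x : ℝ) / (count {p | p.Prime} x : ℝ) := by positivity

lemma ratio_le_one (A : Set ℕ) (x : ℕ) :
    (count {p | p.Prime ∧ p ∈ A} x : ℝ) / (count {p | p.Prime} x : ℝ) ≤ 1 := by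
  apply div_le_one_of_le₀ _ (by positivity)
  have h : {p : ℕ | p.Prime ∧ p ∈ A} ⊆ {p | p.Prime} := fun p hp => hp.1
  exact_mod_cast count_mono h x

lemma dens_le_one (S : Set ℕ) (x : ℕ) : (count S x : ℝ) / x ≤ 1 := by
  classical
  apply div_le_one_of_le₀ _ (by positivity)
  have : count S x ≤ x := by
    unfold count
    refine (card_filter_le _ _).trans ?_
    rw [Nat.card_Icc]
    omega
  exact_mod_cast this

lemma rel_eq (B : Set ℕ) (x : ℕ) :
    (count {p | p.Prime ∧ p ∈ {p | Nat.primeCounting p ∈ B}} x : ℝ) / (count {p | p.Prime} x : ℝ) =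
      (count B (Nat.primeCounting x) : ℝ) / (Nat.primeCounting x : ℕ) := by
  rw [count_primes]
  have h := count_index B x
  have e : {p | p.Prime ∧ p ∈ {p | Nat.primeCounting p ∈ B}} = {p : ℕ | p.Prime ∧ Nat.primeCounting p ∈ B} := rfl
  rw [e, h]

lemma rel_ge (B : Set ℕ) : lowerDensity B ≤ relLower {p | Nat.primeCounting p ∈ B} := by
  refine le_of_forall_lt fun c hc => ?_
  obtain ⟨c', hc', hc2⟩ := exists_between hc
  have h1 : ∀ᶠ n : ℕ in atTop, c' < (count B n : ℝ) / n :=
    eventually_lt_of_lt_liminf hc2 ⟨0, eventually_map.2 (Eventually.of_forall fun n => by positivity)⟩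
  have h2 : ∀ᶠ x : ℕ in atTop, c' < (count {p | p.Prime ∧ p ∈ {p | Nat.primeCounting p ∈ B}} x : ℝ) /
      (count {p | p.Prime} x : ℝ) := by
    filter_upwards [Nat.tendsto_primeCounting.eventually h1] with x hx
    exact lt_of_lt_of_eq hx (rel_eq B x).symm
  refine lt_of_lt_of_le hc' ?_
  apply le_liminf_of_le _ (h2.mono fun x hx => hx.le)
  exact ⟨1, fun a ha => by
    obtain ⟨x, hx⟩ := (eventually_map.1 ha).exists
    exact hx.trans (ratio_le_one _ x)⟩

lemma low_ge (A : Set ℕ) : relLower A ≤ lowerDensity {j | ∃ p ∈ A, p.Prime ∧ Nat.primeCounting p = j} := by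
  set B : Set ℕ := {j | ∃ p ∈ A, p.Prime ∧ Nat.primeCounting p = j} with hB
  have e : {p : ℕ | p.Prime ∧ p ∈ A} = {p | p.Prime ∧ Nat.primeCounting p ∈ B} := by
    ext p
    constructor
    · rintro ⟨h1, h2⟩
      exact ⟨h1, p, h2, h1, rfl⟩
    · rintro ⟨h1, q, h2, h3, h4⟩
      rw [pi_inj h1 h3 h4.symm]
      exact ⟨h3, h2⟩
  refine le_of_forall_lt fun c hc => ?_
  obtain ⟨c', hc', hc2⟩ := exists_between hc
  have h1 : ∀ᶠ x : ℕ in atTop, c' < (count {p | p.Prime ∧ p ∈ A} x : ℝ) / (count {p | p.Prime} x : ℝ) :=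
    eventually_lt_of_lt_liminf hc2 ⟨0, eventually_map.2 (Eventually.of_forall fun n => by positivity)⟩
  have ht : Tendsto (fun n : ℕ => Nat.nth Nat.Prime (n - 1)) atTop atTop := by
    apply tendsto_atTop_mono (f := fun n : ℕ => n - 1)
    · intro n
      exact Nat.le_nth (fun hf => absurd hf Nat.infinite_setOfPred_prime)
    · exact tendsto_sub_atTop_nat 1
  have h2 : ∀ᶠ n : ℕ in atTop, c' < (count B n : ℝ) / n := by
    filter_upwards [ht.eventually h1, eventually_ge_atTop 1] with n hn hn1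
    rw [e, count_index, count_primes] at hn
    have h3 : Nat.primeCounting (Nat.nth Nat.Prime (n - 1)) = n := by
      rw [Nat.primeCounting_eq_primeCounting'_succ]
      unfold Nat.primeCounting'
      rw [Nat.count_succ, if_pos (Nat.prime_nth_prime _)]
      have h : Nat.count Nat.Prime (Nat.nth Nat.Prime (n - 1)) = n - 1 := Nat.primeCounting'_nth_eq (n - 1)
      omega
    rw [h3] at hn
    exact hn
  refine lt_of_lt_of_le hc' ?_
  apply le_liminf_of_le _ (h2.mono fun x hx => hx.le)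
  exact ⟨1, fun a ha => by
    obtain ⟨x, hx⟩ := (eventually_map.1 ha).exists
    exact hx.trans (dens_le_one _ x)⟩

end Pool.Agent.TH881.RK.Index
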