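import Mathlib
import Pool.Agent.TH881.RK.Index

/-! Index form: vectors of even numbers with a common prime whose index lies in a given set. -/

set_option autoImplicit false

namespace Pool.Agent.TH881.RK.Index

open Finset Filter Topology

open Classical in
/-- The number of the vectors in `S` with entries in `[1, x]`. -/
noncomputable def countVec {m : ℕ} (S : Set (Fin m → ℕ)) (x : ℕ) : ℕ :=
  ((Fintype.piFinset (fun _ : Fin m => Icc 1 x)).filter (fun h => h ∈ S)).card

open Classical in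
lemma mem_cv {m : ℕ} {S : Set (Fin m → ℕ)} {x : ℕ} {h : Fin m → ℕ} :
    h ∈ ((Fintype.piFinset (fun _ : Fin m => Icc 1 x)).filter (fun h => h ∈ S)) ↔
      (∀ j, 1 ≤ h j ∧ h j ≤ x) ∧ h ∈ S := by
  rw [mem_filter, Fintype.mem_piFinset]
  simp only [mem_Icc]

/-- lower density -/
noncomputable def lowerVec {m : ℕ} (S : Set (Fin m → ℕ)) : ℝ :=
  liminf (fun x : ℕ => (countVec S x : ℝ) / (x : ℝ) ^ m) atTop

/-- upper density -/
noncomputable def upperVec {m : ℕ} (S : Set (Fin m → ℕ)) : ℝ :=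
  limsup (fun x : ℕ => (countVec S x : ℝ) / (x : ℝ) ^ m) atTop

/-- the vectors `n` with `2 n j = p + q j`, `p`, `q j` prime, `√(2 n j) < p < n j`, index of `p` in `B` -/
def windowed (m : ℕ) (B : Set ℕ) : Set (Fin m → ℕ) :=
  {n | ∃ p : ℕ, p.Prime ∧ Nat.primeCounting p ∈ B ∧ ∀ j, 2 * n j < p ^ 2 ∧ p < n j ∧ (2 * n j - p).Prime}

/-- the vectors `n` with `2 n j = p + q j`, `p`, `q j` prime, index of `p` in `B` -/
def represented (m : ℕ) (B : Set ℕ) : Set (Fin m → ℕ) :=
  {n | ∃ p : ℕ, p.Prime ∧ Nat.primeCounting p ∈ B ∧ ∀ j, p < 2 * n j ∧ (2 * n j - p).Prime}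

lemma cv_le {m : ℕ} (S : Set (Fin m → ℕ)) (x : ℕ) : (countVec S x : ℝ) / (x : ℝ) ^ m ≤ 1 := by
  classical
  apply div_le_one_of_le₀ _ (by positivity)
  have h : countVec S x ≤ x ^ m := by
    unfold countVec
    refine (card_filter_le _ _).trans ?_
    rw [Fintype.card_piFinset]
    simp
  exact_mod_cast h

lemma cntk_eq {m : ℕ} (S : Set (Fin m → ℕ)) (x : ℕ) : cntk S x = countVec S x := rfl

lemma even_hit {n h : ℕ} (hn : n.Prime) (h1 : h < n ^ 2) (h2 : 2 * n < h) (h3 : (h - n).Prime) : h % 2 = 0 := by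
  have h4 : 2 < n := by
    by_contra h5
    have h6 : n = 2 := le_antisymm (not_lt.1 h5) hn.two_le
    subst h6
    omega
  have h5 := hn.eq_two_or_odd
  have h6 := h3.eq_two_or_odd
  omega

lemma hit_le (m : ℕ) (B : Set ℕ) (x : ℕ) :
    cntk (hitG true m {p | Nat.primeCounting p ∈ B}) (2 * x) ≤ countVec (windowed m B) x := by
  rw [cntk_eq]
  unfold countVec
  apply card_le_card_of_injOn (fun h j => h j / 2)
  · intro h hh
    obtain ⟨h1, n, hnB, hn, hj⟩ := mem_cv.1 (Finset.mem_coe.1 hh)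
    have hn' : n.Prime := hn rfl
    have he : ∀ j, 2 * (h j / 2) = h j := by
      intro j
      have := even_hit hn' (hj j).1 (hj j).2.1 (hj j).2.2
      omega
    apply Finset.mem_coe.2
    refine mem_cv.2 ⟨fun j => ?_, n, hn', hnB, fun j => ?_⟩
    · have h2 := h1 j
      have h3 := he j
      constructor <;> dsimp only <;> omega
    · dsimp only
      rw [he j]
      have h3 := he j
      refine ⟨(hj j).1, ?_, (hj j).2.2⟩
      have := (hj j).2.1
      omega
  · intro h hh h' hh' heq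
    obtain ⟨h1, n, hnB, hn, hj⟩ := mem_cv.1 (Finset.mem_coe.1 hh)
    obtain ⟨h1', n', hnB', hn', hj'⟩ := mem_cv.1 (Finset.mem_coe.1 hh')
    funext j
    have h2 := even_hit (hn rfl) (hj j).1 (hj j).2.1 (hj j).2.2
    have h3 := even_hit (hn' rfl) (hj' j).1 (hj' j).2.1 (hj' j).2.2
    have h4 : h j / 2 = h' j / 2 := congrFun heq j
    omega

lemma lower_ge (m : ℕ) (B : Set ℕ) :
    2 ^ m * ldk (hitG true m {p | Nat.primeCounting p ∈ B}) ≤ lowerVec (windowed m B) := by
  set S := hitG true m {p | Nat.primeCounting p ∈ B} with hS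
  have h2m : (0 : ℝ) < 2 ^ m := by positivity
  refine le_of_forall_lt fun c hc => ?_
  obtain ⟨c', hc', hc2⟩ := exists_between hc
  have hc3 : c' / 2 ^ m < ldk S := by
    rw [div_lt_iff₀ h2m, mul_comm]
    exact hc2
  have h1 : ∀ᶠ x : ℕ in atTop, c' / 2 ^ m < (cntk S x : ℝ) / (x : ℝ) ^ m :=
    eventually_lt_of_lt_liminf hc3 ⟨0, eventually_map.2 (Eventually.of_forall fun n => by positivity)⟩
  have ht : Tendsto (fun x : ℕ => 2 * x) atTop atTop := tendsto_id.const_mul_atTop' (by norm_num)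
  have h2 : ∀ᶠ x : ℕ in atTop, c' ≤ (countVec (windowed m B) x : ℝ) / (x : ℝ) ^ m := by
    filter_upwards [ht.eventually h1, eventually_ge_atTop 1] with x hx hx1
    have hx0 : (0 : ℝ) < x := by exact_mod_cast hx1
    have h3 : (cntk S (2 * x) : ℝ) ≤ countVec (windowed m B) x := by exact_mod_cast hit_le m B x
    rw [div_lt_div_iff₀ h2m (by positivity)] at hx
    rw [le_div_iff₀ (by positivity)]
    push_cast at hx
    rw [mul_pow] at hx
    have h4 : c' * (x : ℝ) ^ m * 2 ^ m < (cntk S (2 * x) : ℝ) * 2 ^ m := by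
      calc c' * (x : ℝ) ^ m * 2 ^ m = c' * (2 ^ m * (x : ℝ) ^ m) := by ring
        _ < _ := hx
    have h5 := lt_of_mul_lt_mul_right h4 h2m.le
    linarith
  refine lt_of_lt_of_le hc' ?_
  apply le_liminf_of_le _ h2
  exact ⟨1, fun a ha => by
    obtain ⟨x, hx⟩ := (eventually_map.1 ha).exists
    exact hx.trans (cv_le _ x)⟩

end Pool.Agent.TH881.RK.Index
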