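import Mathlib
import Pool.Agent.TH881.RK.Index2

/-! Index form: the extremal set. -/

set_option autoImplicit false

namespace Pool.Agent.TH881.RK.Index

open Finset Filter Topology
open Pool.Agent.TH881
open Pool.Agent.TH881.RG
open Pool.Agent.TH881.RQ
open Pool.Agent.H373R2.T7

/-- the indices of the primes congruent to `1` -/
def B1 (k : ℕ) : Set ℕ := {j | ∃ p ∈ {n : ℕ | (n : ZMod (Wp k)) ∈ ({1} : Finset (ZMod (Wp k)))},
  p.Prime ∧ Nat.primeCounting p = j}

/-- sums -/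
def S1 (k : ℕ) : Set ℕ := {n | ∃ p : ℕ, p.Prime ∧ (p : ZMod (Wp k)) = 1 ∧ p < 2 * n ∧ (2 * n - p).Prime}

lemma B1_prime {k p : ℕ} (hp : p.Prime) (h : Nat.primeCounting p ∈ B1 k) : (p : ZMod (Wp k)) = 1 := by
  obtain ⟨q, hq, hqp, hqpi⟩ := h
  rw [pi_inj hp hqp hqpi.symm]
  exact mem_singleton.1 hq

lemma rep_le (m k x : ℕ) : countVec (represented m (B1 k)) x ≤ count (S1 k) x ^ m := by
  classical
  have h1 : (Fintype.piFinset (fun _ : Fin m => (Icc 1 x).filter (fun n => n ∈ S1 k))).card = count (S1 k) x ^ m := by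
    rw [Fintype.card_piFinset, prod_const, card_univ, Fintype.card_fin]
    unfold count
    congr 2
  rw [← h1]
  unfold countVec
  apply card_le_card
  intro h hh
  obtain ⟨h2, p, hp, hpB, hj⟩ := mem_cv.1 hh
  rw [Fintype.mem_piFinset]
  intro j
  rw [mem_filter, mem_Icc]
  exact ⟨h2 j, p, hp, B1_prime hp hpB, (hj j).1, (hj j).2⟩

lemma coprime_of {k n p : ℕ} (hpW : (p : ZMod (Wp k)) = 1) (hp2 : p < 2 * n) (hq : (2 * n - p).Prime)
    (hk : k < 2 * n - p) : Nat.Coprime (Wp k) (2 * n - 1) := by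
  have h1 : IsUnit (((2 * n - p : ℕ) : ℤ) : ZMod (Wp k)) := by
    rw [Pool.Agent.TH881.RQ.unit_iff]
    intro l hl hlk hd
    have h2 : l ∣ 2 * n - p := by exact_mod_cast hd
    rcases (Nat.dvd_prime hq).1 h2 with h3 | h3
    · exact hl.one_lt.ne' h3
    · omega
  have h3 : (((2 * n - p : ℕ) : ℤ) : ZMod (Wp k)) = ((2 * n - 1 : ℕ) : ZMod (Wp k)) := by
    rw [Int.cast_natCast, Nat.cast_sub hp2.le, Nat.cast_sub (by omega), hpW]
    norm_num
  rw [h3] at h1
  exact ((ZMod.isUnit_iff_coprime _ _).1 h1).symm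

lemma S1_le (k x : ℕ) : count (S1 k) x ≤ (Wp k).totient * ((2 * x) / Wp k + 1) + (k + 1) * Nat.primeCounting (2 * x) := by
  classical
  set E1 := (Icc 1 x).filter (fun n => Nat.Coprime (Wp k) (2 * n - 1)) with hE1
  set E2 := ((range (k + 1)) ×ˢ ((Icc 1 (2 * x)).filter Nat.Prime)).image (fun a => (a.1 + a.2) / 2) with hE2
  have hsub : (Icc 1 x).filter (fun n => n ∈ S1 k) ⊆ E1 ∪ E2 := by
    intro n hn
    obtain ⟨h1, p, hp, hpW, hp2, hq⟩ := mem_filter.1 hn
    rw [mem_union]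
    by_cases hk : k < 2 * n - p
    · left
      exact mem_filter.2 ⟨h1, coprime_of hpW hp2 hq hk⟩
    · right
      rw [hE2, mem_image]
      refine ⟨(2 * n - p, p), ?_, ?_⟩
      · rw [mem_product, mem_range, mem_filter, mem_Icc]
        have := mem_Icc.1 h1
        refine ⟨by dsimp only; omega, ⟨hp.one_lt.le, by dsimp only; omega⟩, hp⟩
      · dsimp only
        omega
  have hE1c : E1.card ≤ (Wp k).totient * ((2 * x) / Wp k + 1) := by
    have h1 := Nat.Ico_filter_coprime_le (a := Wp k) 0 (2 * x) (Wp_pos k).ne'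
    refine le_trans ?_ h1
    apply card_le_card_of_injOn (fun n => 2 * n - 1)
    · intro n hn
      obtain ⟨h2, h3⟩ := mem_filter.1 (Finset.mem_coe.1 hn)
      have h4 := mem_Icc.1 h2
      apply Finset.mem_coe.2
      rw [mem_filter, mem_Ico]
      refine ⟨⟨Nat.zero_le _, by dsimp only; omega⟩, h3⟩
    · intro n hn n' hn' h
      have h4 := mem_Icc.1 (mem_filter.1 (Finset.mem_coe.1 hn)).1
      have h5 := mem_Icc.1 (mem_filter.1 (Finset.mem_coe.1 hn')).1
      dsimp only at h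
      omega
  have hE2c : E2.card ≤ (k + 1) * Nat.primeCounting (2 * x) := by
    refine card_image_le.trans ?_
    rw [card_product, card_range]
    apply Nat.mul_le_mul_left
    have h1 := count_primes (2 * x)
    rw [← h1]
    unfold count
    apply le_of_eq
    congr 1
    ext n
    rw [mem_cf, mem_filter, mem_Icc]
    exact Iff.rfl
  have h2 : count (S1 k) x ≤ (E1 ∪ E2).card := by
    refine le_trans (le_of_eq ?_) (card_le_card hsub)
    unfold count
    congr 1
  refine h2.trans ((card_union_le _ _).trans ?_)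
  exact Nat.add_le_add hE1c hE2c

lemma pi_small : Tendsto (fun x : ℕ => (Nat.primeCounting (2 * x) : ℝ) / x) atTop (𝓝 0) := by
  have h1 := Chebyshev.eventually_primeCounting_le (ε := 1) one_pos
  have ht : Tendsto (fun x : ℕ => 2 * (x : ℝ)) atTop atTop :=
    tendsto_natCast_atTop_atTop.const_mul_atTop (by norm_num)
  have hlog : Tendsto (fun x : ℕ => 2 * ((Real.log 4 + 1) / Real.log (2 * (x : ℝ)))) atTop (𝓝 (2 * 0)) :=
    (Tendsto.div_atTop tendsto_const_nhds (Real.tendsto_log_atTop.comp ht)).const_mul 2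
  rw [mul_zero] at hlog
  refine squeeze_zero' (Eventually.of_forall fun x => by positivity) ?_ hlog
  filter_upwards [ht.eventually h1, eventually_ge_atTop 1] with x hx hx1
  have hx0 : (0 : ℝ) < x := by exact_mod_cast hx1
  have e : ⌊2 * (x : ℝ)⌋₊ = 2 * x := by
    have : (2 * (x : ℝ)) = ((2 * x : ℕ) : ℝ) := by push_cast; ring
    rw [this, Nat.floor_natCast]
  rw [e] at hx
  rw [div_le_iff₀ hx0]
  refine hx.trans (le_of_eq ?_)
  ring

lemma S1_lim (k : ℕ) : Tendsto (fun x : ℕ => ((Wp k).totient : ℝ) * (2 * (1 / (Wp k : ℝ)) + 1 / (x : ℝ)) +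
    (k + 1) * ((Nat.primeCounting (2 * x) : ℝ) / x)) atTop (𝓝 (2 * ((Wp k).totient : ℝ) / Wp k)) := by
  have h := ((tendsto_const_nhds (x := 2 * (1 / (Wp k : ℝ)))).add (tendsto_one_div_atTop_nhds_zero_nat (𝕜 := ℝ))).const_mul
    ((Wp k).totient : ℝ)
  have h2 := h.add (pi_small.const_mul ((k : ℝ) + 1))
  have e : ((Wp k).totient : ℝ) * (2 * (1 / (Wp k : ℝ)) + 0) + ((k : ℝ) + 1) * 0 = 2 * ((Wp k).totient : ℝ) / Wp k := by
    ring
  rwa [e] at h2

lemma S1_dens (k x : ℕ) (hx : 1 ≤ x) : (count (S1 k) x : ℝ) / x ≤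
    ((Wp k).totient : ℝ) * (2 * (1 / (Wp k : ℝ)) + 1 / (x : ℝ)) + (k + 1) * ((Nat.primeCounting (2 * x) : ℝ) / x) := by
  have hx0 : (0 : ℝ) < x := by exact_mod_cast hx
  have h1 : (count (S1 k) x : ℝ) ≤ (Wp k).totient * (((2 * x) / Wp k : ℕ) + 1) + (k + 1) * Nat.primeCounting (2 * x) := by
    exact_mod_cast S1_le k x
  have h2 : (((2 * x) / Wp k : ℕ) : ℝ) ≤ 2 * x / Wp k := by
    refine Nat.cast_div_le.trans (le_of_eq ?_)
    push_cast
    ring
  rw [div_le_iff₀ hx0]
  refine h1.trans ?_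
  have h3 : ((Wp k).totient : ℝ) * (((2 * x) / Wp k : ℕ) + 1) ≤ (Wp k).totient * (2 * x / Wp k + 1) :=
    mul_le_mul_of_nonneg_left (by linarith) (by positivity)
  refine (add_le_add_left h3 _).trans (le_of_eq ?_)
  field_simp

theorem upper_le (m k : ℕ) : upperVec (represented m (B1 k)) ≤ (2 * ((Wp k).totient : ℝ) / Wp k) ^ m := by
  have h1 := (S1_lim k).pow m
  unfold upperVec
  rw [← h1.limsup_eq]
  apply limsup_le_limsup _ _ h1.isBoundedUnder_le
  · filter_upwards [eventually_ge_atTop 1] with x hx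
    have h2 : (countVec (represented m (B1 k)) x : ℝ) ≤ (count (S1 k) x : ℝ) ^ m := by exact_mod_cast rep_le m k x
    have hx0 : (0 : ℝ) < x := by exact_mod_cast hx
    calc (countVec (represented m (B1 k)) x : ℝ) / (x : ℝ) ^ m ≤ (count (S1 k) x : ℝ) ^ m / (x : ℝ) ^ m :=
          div_le_div_of_nonneg_right h2 (by positivity)
      _ = ((count (S1 k) x : ℝ) / x) ^ m := (div_pow _ _ _).symm
      _ ≤ _ := pow_le_pow_left₀ (by positivity) (S1_dens k x hx) m
  · exact IsCoboundedUnder.of_frequently_ge (a := 0) (Eventually.of_forall fun x => by positivity).frequently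

end Pool.Agent.TH881.RK.Index
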