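import Mathlib
import Pool.Agent.TH881.RK.Exact
import Pool.Agent.TH881.RK.Chord
import Pool.Agent.TH881.RK.HalfIn
import Pool.Agent.TH881.RK.GoldIn
import Pool.Agent.TH881.RK.Index3
import Pool.Agent.TH111.J5316
import Pool.Agent.TH406.J5318

/-! Exact values of the extremal functions. -/

set_option autoImplicit false

namespace Pool.Agent.TH881.RK

open Finset Filter Topology
open Pool.Agent.TH881
open Pool.Agent.TH881.RG
open Pool.Agent.TH881.RQ
open Pool.Agent.H373R2.T7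

theorem stEx_in (m : ℕ) (hm : 1 ≤ m) : StEx m :=
  Pool.Agent.TH406.J5318.stEx_of m hm Pool.Agent.TH147.J5135.stDC Pool.Agent.TH111.J5316.stLC stSl_in

theorem exact_in (m : ℕ) (hm : 1 ≤ m) {k : ℕ} (hk : 3 ≤ k) (hkm : m + 1 ≤ k) :
    FFk true m (1 / ((Wp k).totient : ℝ)) = (((Wp k).totient : ℝ) / Wp k) ^ m :=
  exact_tot_of Pool.Agent.TH985.J5137.stLor hm (stEx_in m hm) hk hkm

lemma tot_two {k : ℕ} (hk : 3 ≤ k) : (2 : ℝ) ≤ (Wp k).totient := by
  rw [← Phr_totient]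
  exact two_le_Phr hk

theorem exactG_in (m : ℕ) (hm : 1 ≤ m) {k : ℕ} (hk : 3 ≤ k) (hkm : m + 1 ≤ k) :
    FFG true m (1 / ((Wp k).totient : ℝ)) = (((Wp k).totient : ℝ) / Wp k) ^ m := by
  have h2 := tot_two hk
  rw [FFG_eq_FFk true m hm _ (by positivity) (by rw [div_lt_one (by linarith)]; linarith)]
  exact exact_in m hm hk hkm

lemma FFG_bdd (pr : Bool) (m : ℕ) (β : ℝ) :
    BddBelow {d | ∃ A : Set ℕ, β ≤ relq pr A ∧ d = ldk (hitG pr m A)} := by
  refine ⟨0, ?_⟩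
  rintro d ⟨A, -, rfl⟩
  exact Pool.Agent.TH293.J3813.ldk_nonneg _

namespace Index

theorem lower_exact (m : ℕ) (hm : 1 ≤ m) {k : ℕ} (hk : 3 ≤ k) (hkm : m + 1 ≤ k) (B : Set ℕ)
    (hB : 1 / ((Wp k).totient : ℝ) ≤ lowerDensity B) :
    (2 * ((Wp k).totient : ℝ) / Wp k) ^ m ≤ lowerVec (windowed m B) := by
  refine le_trans ?_ (lower_ge m B)
  have h1 : FFG true m (1 / ((Wp k).totient : ℝ)) ≤ ldk (hitG true m {p | Nat.primeCounting p ∈ B}) := by
    unfold FFG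
    apply csInf_le (FFG_bdd true m _)
    refine ⟨_, ?_, rfl⟩
    rw [relq_true]
    exact hB.trans (rel_ge B)
  rw [exactG_in m hm hk hkm] at h1
  have h2 : (2 * ((Wp k).totient : ℝ) / Wp k) ^ m = 2 ^ m * (((Wp k).totient : ℝ) / Wp k) ^ m := by
    rw [← mul_pow]
    ring_nf
  rw [h2]
  exact mul_le_mul_of_nonneg_left h1 (by positivity)

theorem B1_dens {k : ℕ} (hk : 3 ≤ k) : 1 / ((Wp k).totient : ℝ) ≤ lowerDensity (B1 k) := by
  have hB : ({1} : Finset (ZMod (Wp k))) ⊆ AA true k := by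
    rw [singleton_subset_iff, AA_eq, mem_unitsF]
    exact isUnit_one
  have h1 := Pool.Agent.TH416.J3004.rel_true stPC k {1} hB
  rw [relq_true, card_singleton, AA_card_Phr, Phr_totient, Nat.cast_one] at h1
  exact h1.trans (low_ge _)

end Index

end Pool.Agent.TH881.RK
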