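import Mathlib
import Pool.Agent.TH881.RK.ExactIn

/-! The lower bound between the exact values. -/

set_option autoImplicit false

namespace Pool.Agent.TH881.RK

open Finset Filter Topology
open Pool.Agent.TH881
open Pool.Agent.TH881.RG
open Pool.Agent.TH881.RQ
open Pool.Agent.H373R2.T7

lemma one_le_Phr (j : ℕ) : 1 ≤ Phr j := by
  unfold Phr
  have h2 : ∏ p ∈ pz j, (1 : ℝ) ≤ ∏ p ∈ pz j, ((p : ℝ) - 1) := by
    apply prod_le_prod (fun _ _ => zero_le_one)
    intro p hp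
    have hp2 : (2 : ℝ) ≤ p := by exact_mod_cast (mem_pz.1 hp).2.two_le
    linarith
  rwa [prod_const_one] at h2

theorem low_gen (hLor : StLor) {m : ℕ} (hEx : StEx m) {w k : ℕ} (hk : 2 ≤ k) (hkw : k ≤ w) {x : ℝ}
    (hx : 0 < x) (hx1 : x ≤ 1)
    (B : Finset (ZMod (Wp w))) (hB : B ⊆ AA true w) (hBc : x / Phr k * (AA true w).card ≤ B.card) :
    ((okk true m w).card : ℝ) * (VVr (aam m) k * x ^ (aam m (k + 1))) ≤ ((sumk m w B).card : ℝ) := by
  have hw : 2 ≤ w := hk.trans hkw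
  obtain ⟨hG, hN⟩ := iter hLor (aam m) hEx.1 hEx.2.1 hEx.2.2 w (w - 1) (by omega)
  obtain ⟨hP, _⟩ := hN (Wp w) (NN_all hw)
  have hA := Pool.Agent.TH111.J3812.AA_pos true w
  have hPh := Phr_pos k
  have h1 : ∀ j, j < w → gg (aam m) w j 1 = 1 := fun j hj =>
    (iter hLor (aam m) hEx.1 hEx.2.1 hEx.2.2 w j hj).1.one
  have hev := eval_gg (aam m) w h1 k (by omega) hkw x hx hx1
  have hG2 := (iter hLor (aam m) hEx.1 hEx.2.1 hEx.2.2 w (w - k) (by omega)).1
  have e1 : w - (w - k) + 1 = k + 1 := by omega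
  rw [e1] at hG2
  have hxa : x ^ (aam m (k + 1)) ≤ gg (aam m) w (w - k) x := by
    have h2 := hG2.grow x 1 hx hx1 le_rfl
    rw [hG2.one, one_div, Real.inv_rpow hx.le] at h2
    have hxp : 0 < x ^ (aam m (k + 1)) := Real.rpow_pos_of_pos hx _
    rw [inv_mul_eq_div, le_div_iff₀ hxp, one_mul] at h2
    exact h2
  have hBne : B.Nonempty := by
    rw [← card_pos]
    have : (0 : ℝ) < B.card := lt_of_lt_of_le (by positivity) hBc
    exact_mod_cast this
  have h2 : x / Phr k ≤ (B.card : ℝ) / (AA true w).card := by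
    rw [le_div_iff₀ hA]; exact hBc
  have h3 : (B.card : ℝ) / (AA true w).card ≤ 1 := by
    rw [div_le_one hA]
    exact_mod_cast card_le_card hB
  have h4 := hG.mono (x / Phr k) ((B.card : ℝ) / (AA true w).card) (by positivity) h2 h3
  rw [hev] at h4
  have h5 := hP B (by rw [← AA_eq]; exact hB) hBne
  rw [okk_eq, sumk_eq]
  rw [AA_eq] at h4
  refine le_trans ?_ h5
  refine mul_le_mul_of_nonneg_left (le_trans ?_ h4) (by positivity)
  apply mul_le_mul_of_nonneg_left hxa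
  unfold VVr
  apply prod_nonneg
  intro p hp
  have hp2 : (2 : ℝ) ≤ p := by exact_mod_cast (mem_pz.1 hp).2.two_le
  exact Real.rpow_nonneg (by linarith) _

theorem LFk_low_gen (hLor : StLor) {m : ℕ} (hEx : StEx m) {k : ℕ} (hk : 2 ≤ k) {x : ℝ} (hx : 0 < x) (hx1 : x ≤ 1) :
    ldk {h : Fin m → ℕ | Admk true h} * (VVr (aam m) k * x ^ (aam m (k + 1))) ≤ LFk true m (x / Phr k) := by
  have hPh := Phr_pos k
  have hPh1 := one_le_Phr k
  have hPh2 : x / Phr k ≤ 1 := by
    rw [div_le_one hPh]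
    linarith
  refine le_of_forall_pos_le_add fun ε hε => ?_
  obtain ⟨w, hw, B, hB, hBc, hBs⟩ := LFk_near (Pool.Agent.TH381.J4392.stLift_in true m) (x / Phr k) hPh2
    (m + 1 + k) ε hε
  refine le_trans ?_ hBs
  have h1 := low_gen hLor hEx (w := w) (k := k) hk (by omega) hx hx1 B hB hBc
  have hWR : (0 : ℝ) < Wp w := by exact_mod_cast Wp_pos w
  rw [← okk_dens true (by omega : m + 1 ≤ w), div_mul_eq_mul_div]
  exact div_le_div_of_nonneg_right h1 (by positivity)

/-- all the vectors modulo a large prime are admissible -/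
lemma Qn_full {m p : ℕ} [NeZero p] (hp : p.Prime) (hmp : m + 2 ≤ p) : Qn m p (Un p) = p ^ m := by
  classical
  have h1 : (univ.filter (fun x : Fin m → ZMod p => ∃ b ∈ Un p, ∀ j, x j + b ≠ 0)) = univ := by
    apply filter_true_of_mem
    intro x _
    have h2 : ((univ.image (fun j => -x j)) ∪ {0} : Finset (ZMod p)).card < (univ : Finset (ZMod p)).card := by
      refine lt_of_le_of_lt (card_union_le _ _) ?_
      have h3 : (univ.image (fun j => -x j)).card ≤ m := by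
        refine card_image_le.trans ?_
        simp
      rw [card_singleton, card_univ, ZMod.card]
      omega
    obtain ⟨b, _, hb⟩ := exists_mem_notMem_of_card_lt_card h2
    rw [mem_union, not_or, mem_image, mem_singleton] at hb
    refine ⟨b, ?_, fun j h => hb.1 ⟨j, mem_univ _, ?_⟩⟩
    · unfold Un
      rw [mem_filter]
      exact ⟨mem_univ _, hb.2⟩
    · exact neg_eq_of_add_eq_zero_right h
  have h2 : Qn m p (Un p) = (univ : Finset (Fin m → ZMod p)).card := by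
    refine Eq.trans ?_ (congrArg card h1)
    unfold Qn
    congr 1
  rw [h2, card_univ, Fintype.card_fun, ZMod.card, Fintype.card_fin]

lemma aam_large {m : ℕ} (hEx : StEx m) {p : ℕ} (hp : p.Prime) (hm : 1 ≤ m) (hmp : m + 2 ≤ p) :
    aam m p = m * Real.logb ((p : ℝ) - 1) ((p : ℝ) / ((p : ℝ) - 1)) := by
  have : NeZero p := ⟨hp.ne_zero⟩
  have h1 := (hEx.2.2 p hp).1
  rw [Qn_full hp hmp] at h1
  unfold aam
  rw [if_neg (by omega), ← h1, Nat.cast_pow, ← div_pow, Real.log_pow, mul_div_assoc]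
  rfl

theorem FFk_low_gen (m : ℕ) (hm : 1 ≤ m) {p : ℕ} (hp : p.Prime) (hmp : m + 2 ≤ p) {β : ℝ} (hβ : 0 < β) (hβ1 : β < 1)
    (hβ2 : β ≤ 1 / ((Wp (p - 1)).totient : ℝ)) :
    (((Wp (p - 1)).totient : ℝ) / Wp (p - 1)) ^ m *
      (β * ((Wp (p - 1)).totient : ℝ)) ^ ((m : ℝ) * Real.logb ((p : ℝ) - 1) ((p : ℝ) / ((p : ℝ) - 1))) ≤ FFk true m β := by
  have hEx := stEx_in m hm
  have hk : 2 ≤ p - 1 := by omega
  rw [← Phr_totient] at hβ2 ⊢
  have hPh := Phr_pos (p - 1)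
  have hx : 0 < β * Phr (p - 1) := by positivity
  have hx1 : β * Phr (p - 1) ≤ 1 := by
    rw [le_div_iff₀ hPh] at hβ2
    exact hβ2
  have h1 := LFk_low_gen Pool.Agent.TH985.J5137.stLor hEx hk hx hx1
  have e1 : p - 1 + 1 = p := by omega
  have e2 : β * Phr (p - 1) / Phr (p - 1) = β := by field_simp
  rw [e1, e2, aam_large hEx hp hm hmp, ← mul_assoc,
    value_exact Pool.Agent.TH985.J5137.stLor hEx hk (by omega), Vz_totient, ← Phr_totient] at h1
  rw [FFk_loc_in true m hm β hβ hβ1]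
  exact h1

namespace Index

theorem lower_gen (m : ℕ) (hm : 1 ≤ m) {p : ℕ} (hp : p.Prime) (hmp : m + 2 ≤ p) {β : ℝ} (hβ : 0 < β) (hβ1 : β < 1)
    (hβ2 : β ≤ 1 / ((Wp (p - 1)).totient : ℝ)) (B : Set ℕ) (hB : β ≤ lowerDensity B) :
    (2 * ((Wp (p - 1)).totient : ℝ) / Wp (p - 1)) ^ m *
      (β * ((Wp (p - 1)).totient : ℝ)) ^ ((m : ℝ) * Real.logb ((p : ℝ) - 1) ((p : ℝ) / ((p : ℝ) - 1))) ≤
      lowerVec (windowed m B) := by
  refine le_trans ?_ (lower_ge m B)
  have h1 : FFG true m β ≤ ldk (hitG true m {p | Nat.primeCounting p ∈ B}) := by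
    unfold FFG
    apply csInf_le (FFG_bdd true m _)
    refine ⟨_, ?_, rfl⟩
    rw [relq_true]
    exact hB.trans (rel_ge B)
  rw [FFG_eq_FFk true m hm β hβ hβ1] at h1
  have h3 := (FFk_low_gen m hm hp hmp hβ hβ1 hβ2).trans h1
  have h2 : (2 * ((Wp (p - 1)).totient : ℝ) / Wp (p - 1)) ^ m = 2 ^ m * (((Wp (p - 1)).totient : ℝ) / Wp (p - 1)) ^ m := by
    rw [← mul_pow]
    ring_nf
  rw [h2, mul_assoc]
  exact mul_le_mul_of_nonneg_left h3 (by positivity)

end Index

end Pool.Agent.TH881.RK
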