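import Mathlib
import Pool.Agent.TH881.RK.Interp

/-! Exact values for all lengths of tuples. -/

set_option autoImplicit false

namespace Pool.Agent.TH881.RK

open Finset Filter Topology
open Pool.Agent.TH881
open Pool.Agent.TH881.RG
open Pool.Agent.TH881.RQ
open Pool.Agent.H373R2.T7

open Classical in
lemma hit_mul {m n p N : ℕ} [NeZero n] [NeZero p] [NeZero N] (e : ZMod N ≃+* ZMod n × ZMod p)
    (B1 : Finset (ZMod n)) (hB1 : B1 ⊆ unitsF n) :
    (hitF m N ((unitsF N).filter (fun c => (e c).1 ∈ B1))).card =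
      (hitF m n B1).card * (hitF m p (unitsF p)).card := by
  rw [← card_product]
  apply card_equiv (vecE m e)
  intro t
  rw [mem_product, mem_hitF, mem_hitF, mem_hitF]
  constructor
  · rintro ⟨c, hc, h⟩
    obtain ⟨hc1, hc2⟩ := mem_filter.1 hc
    rw [mem_unitsF, isUnit_e e] at hc1
    have h1 : ∀ j, IsUnit ((e (t j)).1 + (e c).1) ∧ IsUnit ((e (t j)).2 + (e c).2) := by
      intro j
      have h2 := (isUnit_e e _).1 (h j)
      rw [map_add] at h2
      exact h2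
    exact ⟨⟨_, hc2, fun j => (h1 j).1⟩, ⟨_, mem_unitsF.2 hc1.2, fun j => (h1 j).2⟩⟩
  · rintro ⟨⟨a, ha, h1⟩, ⟨b, hb, h2⟩⟩
    refine ⟨e.symm (a, b), ?_, fun j => ?_⟩
    · rw [mem_filter, mem_unitsF, isUnit_e e, e.apply_symm_apply]
      exact ⟨⟨mem_unitsF.1 (hB1 ha), mem_unitsF.1 hb⟩, ha⟩
    · rw [isUnit_e e, map_add, e.apply_symm_apply]
      exact ⟨h1 j, h2 j⟩

open Classical in
lemma card_mul {n p N : ℕ} [NeZero n] [NeZero p] [NeZero N] (e : ZMod N ≃+* ZMod n × ZMod p)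
    (B1 : Finset (ZMod n)) (hB1 : B1 ⊆ unitsF n) :
    ((unitsF N).filter (fun c => (e c).1 ∈ B1)).card = B1.card * (unitsF p).card := by
  rw [← card_product]
  apply card_equiv e.toEquiv
  intro c
  rw [mem_product, mem_filter, mem_unitsF, isUnit_e e, mem_unitsF]
  constructor
  · rintro ⟨⟨h1, h2⟩, h3⟩
    exact ⟨h3, h2⟩
  · rintro ⟨h1, h2⟩
    exact ⟨⟨mem_unitsF.1 (hB1 h1), h2⟩, h1⟩

open Classical in
lemma filter_all {n p N : ℕ} [NeZero n] [NeZero p] [NeZero N] (e : ZMod N ≃+* ZMod n × ZMod p) :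
    (unitsF N).filter (fun c => (e c).1 ∈ unitsF n) = unitsF N := by
  apply filter_true_of_mem
  intro c hc
  rw [mem_unitsF, isUnit_e e] at hc
  exact mem_unitsF.2 hc.1

lemma Wp_split {k w : ℕ} (hkw : k ≤ w) : Wp w = Wp k * NN w (w - k) := by
  have h1 : (pz w).filter (fun p => w - (w - k) < p) = (pz w).filter (fun p => ¬ p ≤ k) := by
    apply filter_congr
    intro p _
    have : w - (w - k) = k := by omega
    rw [this, not_le]
  have h2 : (pz w).filter (fun p => p ≤ k) = pz k := by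
    ext p
    rw [mem_filter, mem_pz, mem_pz]
    constructor
    · rintro ⟨⟨_, h3⟩, h4⟩
      exact ⟨h4, h3⟩
    · rintro ⟨h3, h4⟩
      exact ⟨⟨h3.trans hkw, h4⟩, h3⟩
  have h3 := prod_filter_mul_prod_filter_not (pz w) (fun p => p ≤ k) (fun p : ℕ => p)
  rw [h2] at h3
  unfold NN
  rw [h1]
  exact h3.symm

lemma Wp_coprime {k w : ℕ} (hkw : k ≤ w) : Nat.Coprime (Wp k) (NN w (w - k)) := by
  unfold Wp NN
  apply Nat.Coprime.prod_left
  intro p hp
  apply Nat.Coprime.prod_right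
  intro q hq
  rw [mem_filter] at hq
  apply (Nat.coprime_primes (mem_pz.1 hp).2 (mem_pz.1 hq.1).2).2
  have := (mem_pz.1 hp).1
  omega

lemma Qn_hit {m p : ℕ} [NeZero p] (hp : p.Prime) : (hitF m p (unitsF p)).card = Qn m p (Un p) := by
  classical
  have hfact : Fact p.Prime := ⟨hp⟩
  unfold Qn
  congr 1
  ext x
  rw [mem_hitF, mem_filter]
  constructor
  · rintro ⟨b, hb, h⟩
    refine ⟨mem_univ _, b, ?_, fun j => (h j).ne_zero⟩
    unfold Un
    rw [mem_filter]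
    exact ⟨mem_univ _, (mem_unitsF.1 hb).ne_zero⟩
  · rintro ⟨_, b, hb, h⟩
    unfold Un at hb
    rw [mem_filter] at hb
    exact ⟨b, mem_unitsF.2 (isUnit_iff_ne_zero.2 hb.2), fun j => isUnit_iff_ne_zero.2 (h j)⟩

/-- the number of the vectors without local obstruction -/
noncomputable def Uc (m n : ℕ) : ℕ := Nat.card {t : Fin m → ZMod n // ∃ b : ZMod n, IsUnit b ∧ ∀ j, IsUnit (t j + b)}

lemma Uc_eq (m n : ℕ) [NeZero n] : Uc m n = (hitF m n (unitsF n)).card := by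
  classical
  unfold Uc
  rw [Nat.card_eq_fintype_card, Fintype.card_subtype]
  congr 1
  ext t
  rw [mem_filter, mem_hitF]
  constructor
  · rintro ⟨_, b, hb, h⟩
    exact ⟨b, mem_unitsF.2 hb, h⟩
  · rintro ⟨b, hb, h⟩
    exact ⟨mem_univ _, b, mem_unitsF.1 hb, h⟩

theorem VVr_eq (hLor : StLor) {m : ℕ} (hEx : StEx m) {k : ℕ} (hk : 2 ≤ k) :
    VVr (aam m) k = Phr k ^ m / Uc m (Wp k) := by
  rw [Uc_eq, ← okk_eq, okk_prod hLor hEx hk]
  unfold VVr Phr
  push_cast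
  rw [← prod_pow, ← prod_div_distrib]
  exact prod_congr rfl (fun p hp => pow_aam m (mem_pz.1 hp).2.two_le)

theorem LFk_up_gen {m : ℕ} (k : ℕ) : LFk true m (1 / Phr k) ≤
    ldk {h : Fin m → ℕ | Admk true h} * (Phr k ^ m / Uc m (Wp k)) := by
  classical
  obtain ⟨w, hw⟩ : ∃ w, w = k + m + 1 := ⟨_, rfl⟩
  have hkw : k ≤ w := by omega
  obtain ⟨M, hM⟩ : ∃ M, M = NN w (w - k) := ⟨_, rfl⟩
  have hMpos : 0 < M := by rw [hM]; exact NN_pos w (w - k)
  have : NeZero M := ⟨hMpos.ne'⟩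
  have hsp : Wp w = Wp k * M := by rw [hM]; exact Wp_split hkw
  have hcop : Nat.Coprime (Wp k) M := by rw [hM]; exact Wp_coprime hkw
  let e : ZMod (Wp w) ≃+* ZMod (Wp k) × ZMod M := (ZMod.ringEquivCongr hsp).trans (ZMod.chineseRemainder hcop)
  have h1u : ({1} : Finset (ZMod (Wp k))) ⊆ unitsF (Wp k) := by
    rw [singleton_subset_iff, mem_unitsF]
    exact isUnit_one
  obtain ⟨B, hB⟩ : ∃ B, B = (unitsF (Wp w)).filter (fun c => (e c).1 ∈ ({1} : Finset (ZMod (Wp k)))) := ⟨_, rfl⟩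
  have hBsub : B ⊆ AA true w := by
    rw [hB, AA_eq]
    exact filter_subset _ _
  have hBc : B.card = (unitsF M).card := by
    rw [hB, card_mul e {1} h1u, card_singleton, one_mul]
  have hAc : (AA true w).card = (unitsF (Wp k)).card * (unitsF M).card := by
    rw [AA_eq, ← card_mul e (unitsF (Wp k)) (Finset.Subset.refl _), filter_all e]
  have hPk : ((unitsF (Wp k)).card : ℝ) = Phr k := by
    rw [← AA_card_Phr, AA_eq]
  have hPh := Phr_pos k
  have hc : 1 / Phr k * ((AA true w).card : ℝ) ≤ B.card := by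
    rw [hAc, hBc]
    push_cast
    rw [hPk]
    apply le_of_eq
    field_simp
  refine (LFk_le (m := m) hBsub hc).trans (le_of_eq ?_)
  have hH : ((sumk m w B).card : ℝ) = Phr k ^ m * ((hitF m M (unitsF M)).card : ℝ) := by
    rw [sumk_eq, hB, hit_mul e {1} h1u, ← sumk_eq, hit_one]
    push_cast
    rw [AA_card_Phr]
  have hO : ((okk true m w).card : ℝ) = (Uc m (Wp k) : ℝ) * ((hitF m M (unitsF M)).card : ℝ) := by
    rw [okk_eq, Uc_eq, ← Nat.cast_mul, ← hit_mul e (unitsF (Wp k)) (Finset.Subset.refl _), filter_all e]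
  have hU : (0 : ℝ) < Uc m (Wp k) := by
    rw [Uc_eq]
    have h2 : 0 < (hitF m (Wp k) (unitsF (Wp k))).card := by
      apply card_pos.2
      refine ⟨fun _ => 0, mem_hitF.2 ⟨1, mem_unitsF.2 isUnit_one, fun j => ?_⟩⟩
      rw [zero_add]
      exact isUnit_one
    exact_mod_cast h2
  have hWR : (0 : ℝ) < Wp w := by exact_mod_cast Wp_pos w
  rw [hH, ← okk_dens true (show m + 1 ≤ w by omega), hO]
  field_simp

theorem FFk_exact_gen (m : ℕ) (hm : 1 ≤ m) {k : ℕ} (hk : 3 ≤ k) :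
    FFk true m (1 / ((Wp k).totient : ℝ)) =
      ldk {h : Fin m → ℕ | Admk true h} * (((Wp k).totient : ℝ) ^ m / Uc m (Wp k)) := by
  have h2 := two_le_Phr hk
  have hEx := stEx_in m hm
  rw [← Phr_totient]
  rw [FFk_loc_in true m hm _ (by positivity) (by rw [div_lt_one (by linarith)]; linarith)]
  apply le_antisymm (LFk_up_gen k)
  rw [← VVr_eq Pool.Agent.TH985.J5137.stLor hEx (by omega : 2 ≤ k)]
  exact LFk_low_exact Pool.Agent.TH985.J5137.stLor hEx hk

theorem FFk_low_all (m : ℕ) (hm : 1 ≤ m) {p : ℕ} (hp : p.Prime) (hp3 : 3 ≤ p) {β : ℝ} (hβ : 0 < β) (hβ1 : β < 1)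
    (hβ2 : β ≤ 1 / ((Wp (p - 1)).totient : ℝ)) :
    ldk {h : Fin m → ℕ | Admk true h} * (((Wp (p - 1)).totient : ℝ) ^ m / Uc m (Wp (p - 1)) *
      (β * ((Wp (p - 1)).totient : ℝ)) ^ (Real.logb ((p : ℝ) - 1) ((Uc m p : ℝ) / ((p : ℝ) - 1) ^ m))) ≤ FFk true m β := by
  have hEx := stEx_in m hm
  have hNe : NeZero p := ⟨hp.ne_zero⟩
  have hk : 2 ≤ p - 1 := by omega
  rw [← Phr_totient] at hβ2 ⊢
  have hPh := Phr_pos (p - 1)
  have hx : 0 < β * Phr (p - 1) := by positivity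
  have hx1 : β * Phr (p - 1) ≤ 1 := by
    rw [le_div_iff₀ hPh] at hβ2
    exact hβ2
  have h1 := LFk_low_gen Pool.Agent.TH985.J5137.stLor hEx hk hx hx1
  have e1 : p - 1 + 1 = p := by omega
  have e2 : β * Phr (p - 1) / Phr (p - 1) = β := by field_simp
  have e3 : aam m p = Real.logb ((p : ℝ) - 1) ((Uc m p : ℝ) / ((p : ℝ) - 1) ^ m) := by
    unfold aam
    rw [if_neg (by omega), Uc_eq, Qn_hit hp, (hEx.2.2 p hp).1]
    rfl
  rw [e1, e2, e3, VVr_eq Pool.Agent.TH985.J5137.stLor hEx hk] at h1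
  rw [FFk_loc_in true m hm β hβ hβ1]
  exact h1

end Pool.Agent.TH881.RK
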